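import Mathlib

/-!
TSq.DivSum (about 1.5 h, Mathlib only). `∑ 1/g` over the divisors `g` of `n` coprime to `Q`.

PROOF. `div_sum_le`: every `g ∣ n` coprime to `Q` is a product of powers of primes `P ∣ n`, `P ∤ Q`; so the sum is
`≤ ∏_P ∑_{j ≤ v_P(n)} P^{-j} ≤ ∏_P 1/(1 - 1/P) = ∏_P (1 + 1/(P-1))`. In Lean, e.g. by induction with `Nat.recOnPosPrimePosCoprime` or
`Nat.recOnMul`-type induction on `n = P^a m`, `P ∤ m`: the divisors of `n` coprime to `Q` are the `P^j g'`,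
`j ≤ a` (`j = 0` if `P ∣ Q`), `g' ∣ m` coprime to `Q` (`Nat.Coprime.sum_divisors_mul`-like, or
`Nat.Coprime.card_divisors_mul`, `Nat.divisors_mul`), and `∑_{j ≤ a} P^{-j} ≤ 1 + 1/(P-1)`.
`prod_le`: induction on the set `F` ordered by its maximum (`Finset.induction_on_max`): adding `P` larger than all
elements of `F` multiplies the product by `1 + 1/(P-1)`, so adds `(1/(P-1)) ∏_{P' ∈ F}(1 + 1/(P'-1))`; the
elements of `F` are distinct odd numbers `≥ 3`, `< P`, so `∏_{P' ∈ F} (1 + 1/(P'-1)) ≤ ∏_{j=1}^{J} (1 + 1/(2j))` with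
`2J + 1 ≤ P` (all odd numbers `2j+1 < P`), and `∏_{j=1}^{J} (1 + 1/(2j)) ≤ √(2J+1) ≤ √P` by induction
(`(1 + 1/(2j))² ≤ (2j+1)/(2j-1)`). Finally `√P/(P-1) ≤ 2/√P`.
`card_big`: the product of the prime factors of `n` which are `> K` is `≤ n < K^5`, and is `≥ K^r` if there are
`r` of them; so `r < 5`.
-/

open Finset

namespace Pool.Agent.Lib.TSq

namespace DivSumAux

open ArithmeticFunction

/-- `1/g` on the integers coprime to `Q` -/
noncomputable def ff (Q : ℕ) : ArithmeticFunction ℝ :=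
  ⟨fun g => if Nat.Coprime g Q then (1 : ℝ) / g else 0, by simp⟩

theorem ff_apply (Q g : ℕ) : ff Q g = if Nat.Coprime g Q then (1 : ℝ) / g else 0 := rfl

theorem ff_mult (Q : ℕ) : (ff Q).IsMultiplicative := by
  refine ⟨by simp [ff_apply], ?_⟩
  intro m n _
  rw [ff_apply, ff_apply, ff_apply]
  by_cases h1 : Nat.Coprime m Q
  · by_cases h2 : Nat.Coprime n Q
    · rw [if_pos h1, if_pos h2, if_pos (Nat.coprime_mul_iff_left.2 ⟨h1, h2⟩)]
      push_cast
      ring
    · rw [if_neg h2, if_neg (fun h => h2 (Nat.coprime_mul_iff_left.1 h).2), mul_zero]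
  · rw [if_neg h1, if_neg (fun h => h1 (Nat.coprime_mul_iff_left.1 h).1), zero_mul]

theorem FF_apply (Q n : ℕ) : (ff Q * ((zeta : ArithmeticFunction ℕ) : ArithmeticFunction ℝ)) n =
    ∑ g ∈ n.divisors.filter (fun g => Nat.Coprime g Q), (1 : ℝ) / g := by
  rw [coe_mul_zeta_apply, sum_filter]
  rfl

theorem FF_mult (Q : ℕ) : (ff Q * ((zeta : ArithmeticFunction ℕ) : ArithmeticFunction ℝ)).IsMultiplicative :=
  (ff_mult Q).mul (isMultiplicative_zeta.natCast)

theorem FF_prime_pow {Q P k : ℕ} (hP : P.Prime) :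
    (ff Q * ((zeta : ArithmeticFunction ℕ) : ArithmeticFunction ℝ)) (P ^ k) ≤
      if ¬ P ∣ Q then (1 + 1 / ((P : ℝ) - 1)) else 1 := by
  rw [coe_mul_zeta_apply, Nat.sum_divisors_prime_pow hP]
  have hP1 : (1 : ℝ) < P := by exact_mod_cast hP.one_lt
  by_cases h : P ∣ Q
  · rw [if_neg (not_not.2 h)]
    have h0 : ∀ j ∈ range (k + 1), j ≠ 0 → ff Q (P ^ j) = 0 := by
      intro j _ hj
      rw [ff_apply, if_neg]
      intro hc
      have h1 : Nat.Coprime P Q := Nat.Coprime.coprime_dvd_left (dvd_pow_self P hj) hc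
      exact hP.one_lt.ne' (Nat.eq_one_of_dvd_coprimes h1 dvd_rfl h)
    rw [sum_eq_single 0 h0 (fun h => absurd (mem_range.2 (Nat.succ_pos k)) h)]
    simp [ff_apply]
  · rw [if_pos h]
    have h1 : ∀ j ∈ range (k + 1), ff Q (P ^ j) ≤ (1 / (P : ℝ)) ^ j := by
      intro j _
      rw [ff_apply]
      split_ifs
      · rw [Nat.cast_pow, div_pow, one_pow]
      · positivity
    refine (sum_le_sum h1).trans ?_
    have hr : (1 / (P : ℝ)) < 1 := by
      rw [div_lt_one (by linarith)]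
      exact hP1
    rw [geom_sum_eq hr.ne]
    have h2 : (1 : ℝ) + 1 / ((P : ℝ) - 1) = 1 / (1 - 1 / (P : ℝ)) := by
      have h3 : (P : ℝ) - 1 ≠ 0 := by linarith
      have h4 : (P : ℝ) ≠ 0 := by linarith
      field_simp
      ring
    rw [h2]
    have h5 : ((1 / (P : ℝ)) ^ (k + 1) - 1) / (1 / (P : ℝ) - 1) =
        (1 - (1 / (P : ℝ)) ^ (k + 1)) / (1 - 1 / (P : ℝ)) := by
      rw [← neg_div_neg_eq, neg_sub, neg_sub]
    rw [h5]
    apply div_le_div_of_nonneg_right _ (by linarith)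
    have : (0 : ℝ) ≤ (1 / (P : ℝ)) ^ (k + 1) := by positivity
    linarith

theorem FF_nonneg (Q n : ℕ) : 0 ≤ (ff Q * ((zeta : ArithmeticFunction ℕ) : ArithmeticFunction ℝ)) n := by
  rw [FF_apply]
  exact sum_nonneg fun _ _ => by positivity

/-- the product is at most `√(x - 2)` -/
theorem prod_sqrt (F : Finset ℕ) : (∀ P ∈ F, 3 ≤ P ∧ Odd P) → ∀ x : ℕ, 3 ≤ x → Odd x →
    (∀ P ∈ F, P < x) → ∏ P ∈ F, (1 + 1 / ((P : ℝ) - 1)) ≤ Real.sqrt ((x : ℝ) - 2) := by
  induction F using Finset.induction_on_max with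
  | empty =>
    intro _ x hx _ _
    rw [prod_empty]
    have hx' : (3 : ℝ) ≤ x := by exact_mod_cast hx
    rw [Real.one_le_sqrt]
    linarith
  | insert P F hP ih =>
    intro hF x hx hox hlt
    have hn : P ∉ F := fun h => lt_irrefl _ (hP P h)
    rw [prod_insert hn]
    obtain ⟨hP3, hPo⟩ := hF P (mem_insert_self P F)
    have h1 := ih (fun P' hP' => hF P' (mem_insert_of_mem hP')) P hP3 hPo hP
    have hPx : P < x := hlt P (mem_insert_self P F)
    have hPx2 : P + 2 ≤ x := by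
      rcases hPo with ⟨a, ha⟩
      rcases hox with ⟨b, hb⟩
      omega
    have hP3' : (3 : ℝ) ≤ P := by exact_mod_cast hP3
    have hPx2' : (P : ℝ) + 2 ≤ x := by exact_mod_cast hPx2
    have h2 : (1 + 1 / ((P : ℝ) - 1)) = P / (P - 1) := by
      have : (P : ℝ) - 1 ≠ 0 := by linarith
      field_simp
      ring
    rw [h2]
    have h3 : (0 : ℝ) ≤ (P : ℝ) / (P - 1) := div_nonneg (by linarith) (by linarith)
    refine (mul_le_mul_of_nonneg_left h1 h3).trans ?_
    refine Real.le_sqrt_of_sq_le ?_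
    rw [mul_pow, Real.sq_sqrt (by linarith), div_pow, div_mul_eq_mul_div,
      div_le_iff₀ (by nlinarith)]
    nlinarith [mul_nonneg (mul_nonneg (by linarith : (0 : ℝ) ≤ P) (by linarith : (0 : ℝ) ≤ P))
      (by linarith : (0 : ℝ) ≤ (P : ℝ) - 2), mul_nonneg (by linarith : (0 : ℝ) ≤ (x : ℝ) - 2 - P)
      (sq_nonneg ((P : ℝ) - 1))]

end DivSumAux

open DivSumAux

theorem div_sum_le {n Q : ℕ} (hn : n ≠ 0) :
    ∑ g ∈ n.divisors.filter (fun g => Nat.Coprime g Q), (1 : ℝ) / g ≤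
      ∏ P ∈ n.primeFactors.filter (fun P => ¬ P ∣ Q), (1 + 1 / ((P : ℝ) - 1)) := by
  rw [← FF_apply, (FF_mult Q).multiplicative_factorization _ hn, prod_filter, Finsupp.prod,
    Nat.support_factorization]
  refine prod_le_prod (fun P _ => FF_nonneg _ _) (fun P hP => ?_)
  exact FF_prime_pow (Nat.prime_of_mem_primeFactors hP)

theorem prod_le (F : Finset ℕ) (hF : ∀ P ∈ F, P.Prime ∧ P ≠ 2) :
    ∏ P ∈ F, (1 + 1 / ((P : ℝ) - 1)) ≤ 1 + ∑ P ∈ F, 2 / Real.sqrt P := by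
  have h3 : ∀ P : ℕ, P.Prime ∧ P ≠ 2 → 3 ≤ P ∧ Odd P := by
    rintro P ⟨h1, h2⟩
    have h4 := h1.two_le
    exact ⟨by omega, h1.odd_of_ne_two h2⟩
  induction F using Finset.induction_on_max with
  | empty => simp
  | insert P F hP ih =>
    have hn : P ∉ F := fun h => lt_irrefl _ (hP P h)
    have hF' : ∀ P' ∈ F, P'.Prime ∧ P' ≠ 2 := fun P' hP' => hF P' (mem_insert_of_mem hP')
    have h1 := ih hF'
    obtain ⟨hP3, hPo⟩ := h3 P (hF P (mem_insert_self P F))
    have h2 := prod_sqrt F (fun P' hP' => h3 P' (hF' P' hP')) P hP3 hPo hP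
    have hP3' : (3 : ℝ) ≤ P := by exact_mod_cast hP3
    rw [prod_insert hn, sum_insert hn]
    have h4 : 1 / ((P : ℝ) - 1) * ∏ P' ∈ F, (1 + 1 / ((P' : ℝ) - 1)) ≤ 2 / Real.sqrt P := by
      have h5 : 0 < Real.sqrt P := Real.sqrt_pos.2 (by linarith)
      have h6 : Real.sqrt ((P : ℝ) - 2) ≤ Real.sqrt P := Real.sqrt_le_sqrt (by linarith)
      have h7 : Real.sqrt P * Real.sqrt P = P := Real.mul_self_sqrt (by linarith)
      rw [le_div_iff₀ h5, one_div, mul_assoc, inv_mul_le_iff₀ (by linarith)]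
      calc (∏ P' ∈ F, (1 + 1 / ((P' : ℝ) - 1))) * Real.sqrt P
          ≤ Real.sqrt P * Real.sqrt P := mul_le_mul_of_nonneg_right (h2.trans h6) h5.le
        _ = P := h7
        _ ≤ (P - 1) * 2 := by linarith
    linarith

theorem card_big {n K : ℕ} (hn : n ≠ 0) (h : n < K ^ 5) :
    (n.primeFactors.filter (fun P => K < P)).card ≤ 4 := by
  by_contra hc
  rw [not_le] at hc
  have hK : 1 ≤ K := by
    rcases Nat.eq_zero_or_pos K with rfl | hK
    · simp at h
    · exact hK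
  have h1 : K ^ (n.primeFactors.filter (fun P => K < P)).card ≤
      ∏ P ∈ n.primeFactors.filter (fun P => K < P), P :=
    Finset.pow_card_le_prod _ _ _ fun P hP => (mem_filter.1 hP).2.le
  have h2 : ∏ P ∈ n.primeFactors.filter (fun P => K < P), P ∣ n :=
    (prod_dvd_prod_of_subset _ _ _ (filter_subset _ _)).trans (Nat.prod_primeFactors_dvd n)
  have h3 := Nat.le_of_dvd (Nat.pos_of_ne_zero hn) h2
  have h4 : K ^ 5 ≤ K ^ (n.primeFactors.filter (fun P => K < P)).card :=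
    Nat.pow_le_pow_right hK hc
  omega

end Pool.Agent.Lib.TSq
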