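import Pool.Agent.Lib.TSq.Defs

/-!
TSq.PairPrime (about 1 h). How often does a prime divide `k(t₂)⁴ - k(t₁)⁴`? Imports are black boxes.

PROOF. Fix `t₁`. If `P ∣ k(t₂)⁴ - k(t₁)⁴` then the residue of `k(t₂) = k + 2Et₂` modulo `P` is a root of the nonzero
polynomial `X⁴ - k(t₁)⁴` over the field `ZMod P`, so it takes at most `4` values (`Polynomial.card_roots'`), and, `2E` being
invertible modulo `P`, the residue of `t₂` modulo `P` takes at most `4` values. Each residue class modulo `P` has at most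
`K / P + 1` elements in `range K` (`Nat.count_modEq_card` or: `t ↦ t / P` is injective on a class with values
`≤ K / P`). So for each `t₁` there are at most `4 (K / P + 1)` values `t₂`.
-/

open Finset

namespace Pool.Agent.Lib.TSq

open Par

private theorem pp_fiber (p : Par) {P : ℕ} (hP : P.Prime) (hPE : ¬ P ∣ 2 * p.E) (K : ℕ)
    (s : Finset ℕ) (hs : s ⊆ range K) (a : ZMod P) :
    (s.filter (fun t => ((p.kk t : ℕ) : ZMod P) = a)).card ≤ K / P + 1 := by
  have : Fact P.Prime := ⟨hP⟩
  have h0 : ((2 * p.E : ℕ) : ZMod P) ≠ 0 := by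
    intro h
    exact hPE ((ZMod.natCast_eq_zero_iff _ _).1 h)
  have h1 : (s.filter (fun t => ((p.kk t : ℕ) : ZMod P) = a)).card ≤ (range (K / P + 1)).card := by
    apply Finset.card_le_card_of_injOn (fun t => t / P)
    · intro t ht
      have ht' := Finset.mem_filter.1 (Finset.mem_coe.1 ht)
      have h2 := Finset.mem_range.1 (hs ht'.1)
      simp only [Finset.coe_range, Set.mem_Iio]
      exact Nat.lt_succ_of_le (Nat.div_le_div_right h2.le)
    · intro t ht t' ht' htt
      have h3 := (Finset.mem_filter.1 (Finset.mem_coe.1 ht)).2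
      have h4 := (Finset.mem_filter.1 (Finset.mem_coe.1 ht')).2
      have h5 : ((2 * p.E : ℕ) : ZMod P) * (t : ZMod P) = ((2 * p.E : ℕ) : ZMod P) * (t' : ZMod P) := by
        have h6 : ((p.kk t : ℕ) : ZMod P) = ((p.kk t' : ℕ) : ZMod P) := h3.trans h4.symm
        simp only [Par.kk] at h6
        push_cast at h6 ⊢
        exact add_left_cancel h6
      have h7 := mul_left_cancel₀ h0 h5
      have h8 : t % P = t' % P := (ZMod.natCast_eq_natCast_iff' _ _ _).1 h7
      have h9 : t / P = t' / P := htt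
      rw [← Nat.div_add_mod t P, ← Nat.div_add_mod t' P, h8, h9]
  simpa using h1

private theorem pp_row (p : Par) {P : ℕ} (hP : P.Prime) (hPE : ¬ P ∣ 2 * p.E) (K t₁ : ℕ) :
    ((range K).filter (fun t => (P : ℤ) ∣ p.hh t₁ t)).card ≤ 4 * (K / P + 1) := by
  have : Fact P.Prime := ⟨hP⟩
  set s := (range K).filter (fun t => (P : ℤ) ∣ p.hh t₁ t) with hs
  have h1 := Finset.card_le_mul_card_image (f := fun t => ((p.kk t : ℕ) : ZMod P)) s (K / P + 1)
    (fun a _ => pp_fiber p hP hPE K s (Finset.filter_subset _ _) a)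
  have h2 : (s.image (fun t => ((p.kk t : ℕ) : ZMod P))).card ≤ 4 := by
    set q : Polynomial (ZMod P) := Polynomial.X ^ 4 - Polynomial.C (((p.kk t₁ : ℕ) : ZMod P) ^ 4)
      with hq
    have hq0 : q ≠ 0 := Polynomial.X_pow_sub_C_ne_zero (by norm_num) _
    have h3 : s.image (fun t => ((p.kk t : ℕ) : ZMod P)) ⊆ q.roots.toFinset := by
      intro x hx
      obtain ⟨t, ht, rfl⟩ := Finset.mem_image.1 hx
      have h4 := (Finset.mem_filter.1 ht).2
      rw [Multiset.mem_toFinset, Polynomial.mem_roots hq0, Polynomial.IsRoot, hq]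
      simp only [Polynomial.eval_sub, Polynomial.eval_pow, Polynomial.eval_X, Polynomial.eval_C]
      have h5 := (ZMod.intCast_zmod_eq_zero_iff_dvd _ _).2 h4
      simp only [Par.hh] at h5
      push_cast at h5
      exact h5
    calc _ ≤ q.roots.toFinset.card := Finset.card_le_card h3
      _ ≤ q.roots.card := Multiset.toFinset_card_le _
      _ ≤ q.natDegree := Polynomial.card_roots' _
      _ = 4 := Polynomial.natDegree_X_pow_sub_C
  calc s.card ≤ (K / P + 1) * (s.image (fun t => ((p.kk t : ℕ) : ZMod P))).card := h1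
    _ ≤ (K / P + 1) * 4 := Nat.mul_le_mul_left _ h2
    _ = _ := Nat.mul_comm _ _

theorem pair_prime (p : Par) {P : ℕ} (hP : P.Prime) (hPE : ¬ P ∣ 2 * p.E) (K : ℕ) :
    ((range K ×ˢ range K).filter (fun t => (P : ℤ) ∣ p.hh t.1 t.2)).card ≤
      K * (4 * (K / P + 1)) := by
  have h1 : ((range K ×ˢ range K).filter (fun t => (P : ℤ) ∣ p.hh t.1 t.2)).card =
      ∑ t₁ ∈ range K, ((range K).filter (fun t => (P : ℤ) ∣ p.hh t₁ t)).card := by
    simp only [Finset.card_filter, Finset.sum_product]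
  rw [h1]
  calc _ ≤ ∑ _t₁ ∈ range K, 4 * (K / P + 1) := Finset.sum_le_sum (fun t₁ _ => pp_row p hP hPE K t₁)
    _ = _ := by simp

end Pool.Agent.Lib.TSq
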