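import Pool.Agent.Lib.TSq.Zero
import Pool.Agent.Lib.TSq.PairPrime
import Pool.Agent.Lib.TSq.DivSum

/-!
TSq.Average (about 2 h). The average of `A(t₁,t₂) = ∑ 1/g` over the pairs. Imports are black boxes (`hh_ne`, `hh_le`,
`pair_prime`, `div_sum_le`, `prod_le`, `card_big`).

PROOF. For `t₁ ≠ t₂ < K` let `n = |hh| ≠ 0` (`hh_ne`). `div_sum_le` with `Q = 2E` and `prod_le` (the primes `P ∤ 2E` are odd) give
`AA ≤ 1 + ∑_{P ∣ n, P ∤ 2E, P ≤ K} 2/√P + ∑_{P ∣ n, P > K} 2/√P`. If `K ≥ 16E⁴ + 1` then `n ≤ 16E⁴K⁴ < K⁵` (`hh_le`),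
so the last sum is `≤ 4 · 2/√K` (`card_big`). Sum over the pairs:
`∑ AA ≤ K² + 8K²/√K + ∑_{P ≤ K prime, P ∤ 2E} (2/√P) #{(t₁,t₂) : P ∣ hh}`, and by `pair_prime` the last sum is
`≤ ∑_{P} (2/√P) 4K (K/P + 1) = 8K² ∑_{P > w} P^{-3/2} + 8K ∑_{P ≤ K} P^{-1/2}` (the primes `P ∤ 2E` are `> w`),
`≤ 8K² · 2/√w + 8K · 2√K` (`∑_{n > w} n^{-3/2} ≤ 2/√w`: `n^{-3/2} ≤ 2/√(n-1) - 2/√n`, telescoping;
`∑_{n ≤ K} n^{-1/2} ≤ 2√K`: `n^{-1/2} ≤ 2√n - 2√(n-1)`).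
Choose `w ≥ 1` with `16/√w ≤ ε/2` and then `K₀` with `24/√K₀ ≤ ε/2`, `K₀ ≥ 16E⁴ + 1`.
-/

open Finset

namespace Pool.Agent.Lib.TSq

open Par

namespace AverageAux

theorem tel1 {n : ℕ} (hn : 1 ≤ n) :
    1 / (((n + 1 : ℕ) : ℝ) * Real.sqrt ((n + 1 : ℕ) : ℝ)) ≤
      2 / Real.sqrt n - 2 / Real.sqrt ((n + 1 : ℕ) : ℝ) := by
  have h0 : (0 : ℝ) < n := by exact_mod_cast hn
  obtain ⟨x, hxd⟩ : ∃ x, x = Real.sqrt n := ⟨_, rfl⟩
  obtain ⟨y, hyd⟩ : ∃ y, y = Real.sqrt ((n + 1 : ℕ) : ℝ) := ⟨_, rfl⟩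
  have hx : 0 < x := hxd ▸ Real.sqrt_pos.2 h0
  have hy : 0 < y := hyd ▸ Real.sqrt_pos.2 (by positivity)
  have hx2 : x ^ 2 = n := hxd ▸ Real.sq_sqrt h0.le
  have hy2 : y ^ 2 = ((n + 1 : ℕ) : ℝ) := hyd ▸ Real.sq_sqrt (by positivity)
  have hyx : y ^ 2 = x ^ 2 + 1 := by rw [hx2, hy2]; push_cast; ring
  have hle : x ≤ y := by nlinarith
  rw [← hxd, ← hyd, ← hy2]
  have h1 : 2 / x - 2 / y = 2 / (x * y * (x + y)) := by
    rw [div_sub_div _ _ hx.ne' hy.ne', div_eq_div_iff (by positivity) (by positivity)]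
    have h2 : (y - x) * (x + y) = 1 := by nlinarith
    calc (2 * y - x * 2) * (x * y * (x + y)) = 2 * (x * y) * ((y - x) * (x + y)) := by ring
      _ = 2 * (x * y) := by rw [h2, mul_one]
  rw [h1, div_le_div_iff₀ (by positivity) (by positivity)]
  have a1 : x ^ 2 * y ≤ y ^ 2 * y := by gcongr
  have a2 : x * y ^ 2 ≤ y * y ^ 2 := by gcongr
  nlinarith

theorem tel2 (n : ℕ) : 1 / Real.sqrt ((n + 1 : ℕ) : ℝ) ≤
    2 * Real.sqrt ((n + 1 : ℕ) : ℝ) - 2 * Real.sqrt n := by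
  obtain ⟨x, hxd⟩ : ∃ x, x = Real.sqrt n := ⟨_, rfl⟩
  obtain ⟨y, hyd⟩ : ∃ y, y = Real.sqrt ((n + 1 : ℕ) : ℝ) := ⟨_, rfl⟩
  have hx : 0 ≤ x := hxd ▸ Real.sqrt_nonneg _
  have hy : 0 < y := hyd ▸ Real.sqrt_pos.2 (by positivity)
  have hx2 : x ^ 2 = n := hxd ▸ Real.sq_sqrt (Nat.cast_nonneg n)
  have hy2 : y ^ 2 = ((n + 1 : ℕ) : ℝ) := hyd ▸ Real.sq_sqrt (by positivity)
  have hyx : y ^ 2 = x ^ 2 + 1 := by rw [hx2, hy2]; push_cast; ring
  rw [← hxd, ← hyd, div_le_iff₀ hy]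
  nlinarith [sq_nonneg (y - x)]

theorem sum1 {w : ℕ} (hw : 1 ≤ w) (K : ℕ) :
    ∑ n ∈ Ioc w (w + K), 1 / ((n : ℝ) * Real.sqrt n) ≤
      2 / Real.sqrt w - 2 / Real.sqrt ((w + K : ℕ) : ℝ) := by
  induction K with
  | zero => simp
  | succ K ih =>
    rw [← add_assoc, Finset.sum_Ioc_succ_top (by omega)]
    have := tel1 (n := w + K) (by omega)
    linarith

theorem sum1' {w : ℕ} (hw : 1 ≤ w) (K : ℕ) :
    ∑ n ∈ Ioc w K, 1 / ((n : ℝ) * Real.sqrt n) ≤ 2 / Real.sqrt w := by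
  have h1 : ∑ n ∈ Ioc w K, 1 / ((n : ℝ) * Real.sqrt n) ≤
      ∑ n ∈ Ioc w (w + K), 1 / ((n : ℝ) * Real.sqrt n) := by
    refine Finset.sum_le_sum_of_subset_of_nonneg ?_ fun n _ _ => by positivity
    exact Finset.Ioc_subset_Ioc le_rfl (by omega)
  have h2 := sum1 hw K
  have h3 : 0 ≤ 2 / Real.sqrt ((w + K : ℕ) : ℝ) := by positivity
  linarith

theorem sum2 (K : ℕ) : ∑ n ∈ Ioc 0 K, 1 / Real.sqrt (n : ℝ) ≤ 2 * Real.sqrt K := by
  induction K with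
  | zero => simp
  | succ K ih =>
    rw [Finset.sum_Ioc_succ_top (by omega)]
    have := tel2 K
    linarith

theorem exists_sqrt {a δ : ℝ} (ha : 0 ≤ a) (hδ : 0 < δ) (M : ℕ) :
    ∃ n : ℕ, 1 ≤ n ∧ M ≤ n ∧ ∀ m : ℕ, n ≤ m → a / Real.sqrt m ≤ δ := by
  obtain ⟨n, hn⟩ := exists_nat_ge ((a / δ) ^ 2)
  refine ⟨max n (max 1 M), by omega, by omega, fun m hm => ?_⟩
  have h1 : (1 : ℝ) ≤ m := by exact_mod_cast (show 1 ≤ m by omega)
  have h2 : (n : ℝ) ≤ m := by exact_mod_cast (show n ≤ m by omega)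
  have h3 : a / δ ≤ Real.sqrt m := Real.le_sqrt_of_sq_le (hn.trans h2)
  have h4 : 0 < Real.sqrt m := Real.sqrt_pos.2 (by linarith)
  rw [div_le_iff₀ h4]
  rw [div_le_iff₀ hδ] at h3
  linarith

theorem pt {p : Par} (hp : p.OK) {K t₁ t₂ : ℕ} (hK : 16 * p.E ^ 4 + 1 ≤ K) (h1 : t₁ < K)
    (h2 : t₂ < K) (h : t₁ ≠ t₂) :
    p.AA t₁ t₂ ≤ (1 + 8 / Real.sqrt K) +
      ∑ P ∈ (Ioc 0 K).filter (fun P => P.Prime ∧ ¬ P ∣ 2 * p.E),
        (if (P : ℤ) ∣ p.hh t₁ t₂ then 2 / Real.sqrt P else 0) := by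
  obtain ⟨n, hnd⟩ : ∃ n, n = (p.hh t₁ t₂).natAbs := ⟨_, rfl⟩
  have hn : n ≠ 0 := by rw [hnd]; exact Int.natAbs_ne_zero.2 (hh_ne hp h)
  have hK1 : 1 ≤ K := by omega
  have hK0 : (0 : ℝ) < K := by exact_mod_cast hK1
  have hs0 : 0 < Real.sqrt K := Real.sqrt_pos.2 hK0
  have hnK : n < K ^ 5 := by
    rw [hnd]
    refine lt_of_le_of_lt (hh_le hp h1 h2) ?_
    have h3 : 0 < K ^ 4 := by positivity
    calc 16 * p.E ^ 4 * K ^ 4 < (16 * p.E ^ 4 + 1) * K ^ 4 :=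
          Nat.mul_lt_mul_of_pos_right (Nat.lt_succ_self _) h3
      _ ≤ K * K ^ 4 := Nat.mul_le_mul_right _ hK
      _ = K ^ 5 := by ring
  have e1 := div_sum_le (Q := 2 * p.E) hn
  have e2 := prod_le (n.primeFactors.filter (fun P => ¬ P ∣ 2 * p.E)) (fun P hP => by
    rw [Finset.mem_filter] at hP
    refine ⟨Nat.prime_of_mem_primeFactors hP.1, fun h0 => hP.2 ?_⟩
    rw [h0]
    exact dvd_mul_right 2 _)
  have e3 : p.AA t₁ t₂ ≤ 1 + ∑ P ∈ n.primeFactors.filter (fun P => ¬ P ∣ 2 * p.E),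
      2 / Real.sqrt P := by
    unfold Par.AA
    rw [← hnd]
    exact e1.trans e2
  refine e3.trans ?_
  rw [add_assoc]
  refine add_le_add le_rfl ?_
  rw [← Finset.sum_filter_add_sum_filter_not _ (fun P => K < P)]
  refine add_le_add ?_ ?_
  · have c1 : (((n.primeFactors.filter (fun P => ¬ P ∣ 2 * p.E)).filter (fun P => K < P)).card) ≤ 4 := by
      refine le_trans (Finset.card_le_card ?_) (card_big hn hnK)
      intro P hP
      rw [Finset.mem_filter, Finset.mem_filter] at hP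
      rw [Finset.mem_filter]
      exact ⟨hP.1.1, hP.2⟩
    have c2 : ∀ P ∈ (n.primeFactors.filter (fun P => ¬ P ∣ 2 * p.E)).filter (fun P => K < P),
        2 / Real.sqrt P ≤ 2 / Real.sqrt K := by
      intro P hP
      rw [Finset.mem_filter] at hP
      have h5 : (K : ℝ) ≤ P := by exact_mod_cast hP.2.le
      exact div_le_div_of_nonneg_left (by norm_num) hs0 (Real.sqrt_le_sqrt h5)
    refine (Finset.sum_le_card_nsmul _ _ _ c2).trans ?_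
    rw [nsmul_eq_mul]
    have c3 : ((((n.primeFactors.filter (fun P => ¬ P ∣ 2 * p.E)).filter (fun P => K < P)).card : ℕ) : ℝ) ≤ 4 := by
      exact_mod_cast c1
    calc _ ≤ 4 * (2 / Real.sqrt K) := mul_le_mul_of_nonneg_right c3 (by positivity)
      _ = 8 / Real.sqrt K := by ring
  · rw [← Finset.sum_filter]
    refine Finset.sum_le_sum_of_subset_of_nonneg ?_ fun P _ _ => by positivity
    intro P hP
    rw [Finset.mem_filter, Finset.mem_filter] at hP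
    obtain ⟨⟨hP1, hP2⟩, hP3⟩ := hP
    have hpr := Nat.prime_of_mem_primeFactors hP1
    rw [Finset.mem_filter, Finset.mem_filter, Finset.mem_Ioc]
    refine ⟨⟨⟨hpr.pos, by omega⟩, hpr, hP2⟩, ?_⟩
    rw [Int.natCast_dvd, ← hnd]
    exact Nat.dvd_of_mem_primeFactors hP1

theorem cnt (p : Par) {P : ℕ} (hP : P.Prime) (hPE : ¬ P ∣ 2 * p.E) (K : ℕ) :
    ∑ t ∈ (range K ×ˢ range K).filter (fun t => t.1 ≠ t.2),
        (if (P : ℤ) ∣ p.hh t.1 t.2 then 2 / Real.sqrt P else 0) ≤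
      8 * (K : ℝ) ^ 2 * (1 / ((P : ℝ) * Real.sqrt P)) + 8 * K * (1 / Real.sqrt P) := by
  have hP0 : (0 : ℝ) < P := by exact_mod_cast hP.pos
  have hs0 : 0 < Real.sqrt P := Real.sqrt_pos.2 hP0
  rw [← Finset.sum_filter, Finset.sum_const, nsmul_eq_mul]
  have h1 : (((range K ×ˢ range K).filter (fun t => t.1 ≠ t.2)).filter
      (fun t => (P : ℤ) ∣ p.hh t.1 t.2)).card ≤ K * (4 * (K / P + 1)) := by
    refine le_trans (Finset.card_le_card ?_) (pair_prime p hP hPE K)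
    intro t ht
    rw [Finset.mem_filter, Finset.mem_filter] at ht
    rw [Finset.mem_filter]
    exact ⟨ht.1.1, ht.2⟩
  have h2 : ((((range K ×ˢ range K).filter (fun t => t.1 ≠ t.2)).filter
      (fun t => (P : ℤ) ∣ p.hh t.1 t.2)).card : ℝ) ≤ K * (4 * ((K : ℝ) / P + 1)) := by
    have h3 : ((K * (4 * (K / P + 1)) : ℕ) : ℝ) ≤ K * (4 * ((K : ℝ) / P + 1)) := by
      push_cast
      have h4 : ((K / P : ℕ) : ℝ) ≤ (K : ℝ) / P := Nat.cast_div_le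
      gcongr
    exact le_trans (by exact_mod_cast h1) h3
  calc _ ≤ K * (4 * ((K : ℝ) / P + 1)) * (2 / Real.sqrt P) :=
        mul_le_mul_of_nonneg_right h2 (by positivity)
    _ = _ := by
        field_simp
        ring

end AverageAux

open AverageAux

theorem average {ε : ℝ} (hε : 0 < ε) : ∃ w : ℕ, ∀ E : ℕ, ∃ K₀ : ℕ, ∀ p : Par, p.OK → p.E = E →
    (∀ P : ℕ, P.Prime → P ≤ w → P ∣ 2 * E) → ∀ K : ℕ, K₀ ≤ K →
      ∑ t ∈ (range K ×ˢ range K).filter (fun t => t.1 ≠ t.2), p.AA t.1 t.2 ≤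
        (1 + ε) * (K : ℝ) ^ 2 := by
  obtain ⟨w, hw1, -, hw⟩ := exists_sqrt (a := 16) (δ := ε / 2) (by norm_num) (by positivity) 0
  refine ⟨w, fun E => ?_⟩
  obtain ⟨K₀, hK1, hK2, hK3⟩ := exists_sqrt (a := 24) (δ := ε / 2) (by norm_num) (by positivity)
    (16 * E ^ 4 + 1)
  refine ⟨K₀, fun p hp hE hsm K hK => ?_⟩
  subst hE
  have hwε := hw w le_rfl
  have hKε := hK3 K hK
  have hKn : 1 ≤ K := by omega
  have hK0 : (0 : ℝ) < K := by exact_mod_cast hKn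
  have hs0 : 0 < Real.sqrt K := Real.sqrt_pos.2 hK0
  have hsK : Real.sqrt K * Real.sqrt K = K := Real.mul_self_sqrt hK0.le
  set F := (Ioc 0 K).filter (fun P => P.Prime ∧ ¬ P ∣ 2 * p.E) with hF
  have hF1 : ∑ P ∈ F, 1 / ((P : ℝ) * Real.sqrt P) ≤ 2 / Real.sqrt w := by
    refine le_trans (Finset.sum_le_sum_of_subset_of_nonneg ?_ fun n _ _ => by positivity) (sum1' hw1 K)
    intro P hP
    rw [hF, Finset.mem_filter, Finset.mem_Ioc] at hP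
    rw [Finset.mem_Ioc]
    refine ⟨?_, hP.1.2⟩
    by_contra hcon
    exact hP.2.2 (hsm P hP.2.1 (by omega))
  have hF2 : ∑ P ∈ F, 1 / Real.sqrt (P : ℝ) ≤ 2 * Real.sqrt K := by
    refine le_trans (Finset.sum_le_sum_of_subset_of_nonneg ?_ fun n _ _ => by positivity) (sum2 K)
    exact Finset.filter_subset _ _
  have hcard : ((((range K ×ˢ range K).filter (fun t => t.1 ≠ t.2)).card : ℕ) : ℝ) ≤ (K : ℝ) ^ 2 := by
    have h1 : ((range K ×ˢ range K).filter (fun t => t.1 ≠ t.2)).card ≤ K * K := by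
      refine le_trans (Finset.card_filter_le _ _) ?_
      rw [Finset.card_product, Finset.card_range]
    have h2 : ((((range K ×ˢ range K).filter (fun t => t.1 ≠ t.2)).card : ℕ) : ℝ) ≤ ((K * K : ℕ) : ℝ) := by
      exact_mod_cast h1
    refine h2.trans (le_of_eq ?_)
    push_cast
    ring
  calc ∑ t ∈ (range K ×ˢ range K).filter (fun t => t.1 ≠ t.2), p.AA t.1 t.2
      ≤ ∑ t ∈ (range K ×ˢ range K).filter (fun t => t.1 ≠ t.2), ((1 + 8 / Real.sqrt K) +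
          ∑ P ∈ F, (if (P : ℤ) ∣ p.hh t.1 t.2 then 2 / Real.sqrt P else 0)) := by
        refine Finset.sum_le_sum fun t ht => ?_
        rw [Finset.mem_filter, Finset.mem_product, Finset.mem_range, Finset.mem_range] at ht
        exact pt hp (by omega) ht.1.1 ht.1.2 ht.2
    _ = ((((range K ×ˢ range K).filter (fun t => t.1 ≠ t.2)).card : ℕ) : ℝ) * (1 + 8 / Real.sqrt K) +
          ∑ P ∈ F, ∑ t ∈ (range K ×ˢ range K).filter (fun t => t.1 ≠ t.2),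
            (if (P : ℤ) ∣ p.hh t.1 t.2 then 2 / Real.sqrt P else 0) := by
        rw [Finset.sum_add_distrib, Finset.sum_const, nsmul_eq_mul, Finset.sum_comm]
    _ ≤ (K : ℝ) ^ 2 * (1 + 8 / Real.sqrt K) +
          ∑ P ∈ F, (8 * (K : ℝ) ^ 2 * (1 / ((P : ℝ) * Real.sqrt P)) + 8 * K * (1 / Real.sqrt P)) := by
        refine add_le_add (mul_le_mul_of_nonneg_right hcard (by positivity))
          (Finset.sum_le_sum fun P hP => ?_)
        rw [hF, Finset.mem_filter] at hP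
        exact cnt p hP.2.1 hP.2.2 K
    _ = (K : ℝ) ^ 2 * (1 + 8 / Real.sqrt K) + (8 * (K : ℝ) ^ 2 * ∑ P ∈ F, 1 / ((P : ℝ) * Real.sqrt P) +
          8 * K * ∑ P ∈ F, 1 / Real.sqrt (P : ℝ)) := by
        rw [Finset.sum_add_distrib, Finset.mul_sum, Finset.mul_sum]
    _ ≤ (K : ℝ) ^ 2 * (1 + 8 / Real.sqrt K) + (8 * (K : ℝ) ^ 2 * (2 / Real.sqrt w) +
          8 * K * (2 * Real.sqrt K)) := by gcongr
    _ = (K : ℝ) ^ 2 * (1 + 24 / Real.sqrt K + 16 / Real.sqrt w) := by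
        have h1 : 8 * (K : ℝ) * (2 * Real.sqrt K) = (K : ℝ) ^ 2 * (16 / Real.sqrt K) := by
          rw [← mul_div_assoc, eq_div_iff hs0.ne']
          calc 8 * (K : ℝ) * (2 * Real.sqrt K) * Real.sqrt K = 16 * K * (Real.sqrt K * Real.sqrt K) := by ring
            _ = (K : ℝ) ^ 2 * 16 := by rw [hsK]; ring
        rw [h1]
        ring
    _ ≤ (K : ℝ) ^ 2 * (1 + ε) := by
        refine mul_le_mul_of_nonneg_left ?_ (by positivity)
        linarith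
    _ = (1 + ε) * (K : ℝ) ^ 2 := by ring

end Pool.Agent.Lib.TSq
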