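import Pool.Agent.Lib.TSq.Total
import Pool.Agent.Lib.TSq.Average

/-!
TSq.Asym (about 2.5 h; helper66 does this one). Choice of the parameters. Imports are black boxes (`S2_bound`, `average`).

Notation: `y` large, `K = KK δ y = ⌊(log y)^(1+δ)⌋`, `V = m q² y`, `L = q² y`, `S = m q y`, `S' = m y (q + 36E)`,
`W = 141 E S'`, `r = m y`, `Φ₀ = 34 E m² y²`, `ω = W/V = 141E(q+36E)/q²`, `θ = (1/m + 2ω)/(1 - ω)`, `a = (1 + ε/8) K²` (`average`).
`K → ∞`, `K⁴/y → 0`, `(log y)/K → 0`.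
Conditions of `S2_bound`: `hlS`, `hW` (`26·16E²K² ≤ E S'`) and `hr` (`13·16E²K²·my(q+36E) + 3(16E²K²)² ≤ E m² y²`) hold for large `y`
(`K⁴/y → 0`); `hS'`: `S²/V = m y`, equality; `hWV`: `ω < 1`; `hθ`: `V + L + W = V(1 + 1/m + ω)`, `(1+θ)(V - W) = V(1 + 1/m + ω)`.
Let `R = E(2VL + L²) + 36ES² = 2EVL (1 + 1/(2m) + 18m/q²)` and divide the bound of `S2_bound` times `R` by `(KSL)²`:
 main term `(1 + ε/8) (1 + 36E/q)² (mθ + 4m/(q+36E)) (1 + 1/(2m) + 18m/q²)`, because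
   `(1/(2E)) a (θS'² + 4S'r) · 2EVL / (KSL)² = (1+ε/8) (S'/S)² (θ + 4/(q+36E)) (V/L)`;
 the other terms are (up to the bounded factor `1 + 1/(2m) + 18m/q²`)
   `L K S·2EVL/(KSL)² = 2EV/(KS) = 2Eq/K`,
   `L K²·3072E⁴K⁴·2EVL/(KSL)² = C K⁴/y`,
   `K (1/(2E)) S'² (4 + 3 log L) 2EVL/(KSL)² = C (4 + 3 log(q²y))/K`,
   `(1/(2E)) K² 16E⁴K⁴ (2E(V+L+W)/Φ₀) S'² · 2EVL/(KSL)² = C K⁴/y`,
 with `C` depending on `E, m, q` only, so they tend to `0` as `y → ∞`.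
Choose `m` with `1/(2m) ≤ ε/16`, and then `q` so large (`q → ∞`: `ω → 0`, `mθ = (1 + 2mω)/(1-ω) → 1`) that `36m ≤ q²`, `ω < 1/8`,
`θ < 1` (`m ≥ 2`) and the main term is `≤ 1 + ε/2` (for `ε ≤ 1`; w.l.o.g. `ε ≤ 1`: `(1+ε/8)(1+ε/16) < 1 + ε/2`); finally `y₀` such that the other
terms sum to `≤ ε/2`.
-/

open Finset

namespace Pool.Agent.Lib.TSq

open Par

/-- `⌊(log y)^(1+δ)⌋` -/
noncomputable def KK (δ : ℝ) (y : ℕ) : ℕ := ⌊(Real.log y) ^ (1 + δ)⌋₊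

namespace AsymAux

/-- the main term -/
noncomputable def Mq (E m q ε θ : ℝ) : ℝ :=
  1 / 2 * (1 + ε / 8) * (2 * m + 1 + 36 * m ^ 2 / q ^ 2) *
    (θ * ((q + 36 * E) / q) ^ 2 + 4 * ((q + 36 * E) / q) / q)

/-- the remaining terms -/
noncomputable def Sm (E m q y K lg : ℝ) : ℝ :=
  (2 * m + 1 + 36 * m ^ 2 / q ^ 2) *
    (q * E / (m * K) + 3072 * E ^ 5 * K ^ 4 / (m ^ 2 * y) +
      ((q + 36 * E) / q) ^ 2 * lg / (2 * K) + 8 * E ^ 4 * K ^ 4 * (q + 36 * E) ^ 2 / (m * y))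

theorem key {E m q y K θ lg a ε : ℝ} (hE : 0 < E) (hm : 1 ≤ m) (hq : 0 < q) (hy : 0 < y)
    (hK : 0 < K) (hω : 141 * E * (q + 36 * E) ≤ q ^ 2 / 8)
    (ha : a = (1 + ε / 8) * K ^ 2)
    (hM : Mq E m q ε θ ≤ 1 + ε / 2) (hS : Sm E m q y K lg ≤ ε / 2)
    {V L S S' W r Φ : ℝ} (hL : L = q ^ 2 * y) (hV : V = m * (q ^ 2 * y)) (hSS : S = m * q * y)
    (hS' : S' = m * y * (q + 36 * E)) (hW : W = 141 * E * S') (hr : r = m * y)
    (hΦ : Φ = 34 * E * m ^ 2 * y ^ 2) :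
    (L * (K * S + K ^ 2 * (3072 * E ^ 4 * K ^ 4)) +
      K * (1 / (2 * E) * (S' ^ 2 * lg)) +
      1 / (2 * E) * (a * (θ * S' ^ 2 + 4 * (S' * r)) +
        K ^ 2 * ((16 * E ^ 4 * K ^ 4) * (2 * E * (V + L + W) / Φ) * S' ^ 2))) *
      (E * (2 * V * L + L ^ 2) + 36 * E * S ^ 2) ≤ (1 + ε) * (K * S * L) ^ 2 := by
  have hm0 : 0 < m := by linarith
  set c0 := 2 * m + 1 + 36 * m ^ 2 / q ^ 2 with hc0
  have hc0p : 0 < c0 := by positivity
  have hR : E * (2 * V * L + L ^ 2) + 36 * E * S ^ 2 = E * L ^ 2 * c0 := by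
    rw [hc0, hV, hSS, hL]
    field_simp
  have hfrac : 2 * E * (V + L + W) / Φ ≤ q ^ 2 / (m * y) := by
    rw [hΦ, div_le_div_iff₀ (by positivity) (by positivity), hV, hL, hW, hS']
    have h1 : m * (q ^ 2 * y) + q ^ 2 * y + 141 * E * (m * y * (q + 36 * E)) ≤
        m * (q ^ 2 * y) + q ^ 2 * y + q ^ 2 / 8 * (m * y) := by
      have : 141 * E * (m * y * (q + 36 * E)) = 141 * E * (q + 36 * E) * (m * y) := by ring
      rw [this]
      have := mul_le_mul_of_nonneg_right hω (by positivity : 0 ≤ m * y)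
      linarith
    have h2 : m * (q ^ 2 * y) + q ^ 2 * y + q ^ 2 / 8 * (m * y) ≤ 17 * (m * (q ^ 2 * y)) := by
      have h3 : q ^ 2 * y ≤ m * (q ^ 2 * y) := by
        have : 0 < q ^ 2 * y := by positivity
        nlinarith
      have h4 : 0 < m * (q ^ 2 * y) := by positivity
      have h5 : q ^ 2 / 8 * (m * y) = m * (q ^ 2 * y) / 8 := by ring
      rw [h5]
      linarith
    calc 2 * E * (m * (q ^ 2 * y) + q ^ 2 * y + 141 * E * (m * y * (q + 36 * E))) * (m * y)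
        ≤ 2 * E * (17 * (m * (q ^ 2 * y))) * (m * y) := by
          gcongr
          exact h1.trans h2
      _ = q ^ 2 * (34 * E * m ^ 2 * y ^ 2) := by ring
  have e1 : L * (K * S) * (E * L ^ 2 * c0) = (K * S * L) ^ 2 * (c0 * (q * E / (m * K))) := by
    rw [hSS, hL]
    field_simp
  have e2 : L * (K ^ 2 * (3072 * E ^ 4 * K ^ 4)) * (E * L ^ 2 * c0) =
      (K * S * L) ^ 2 * (c0 * (3072 * E ^ 5 * K ^ 4 / (m ^ 2 * y))) := by
    rw [hSS, hL]
    field_simp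
  have e3 : K * (1 / (2 * E) * (S' ^ 2 * lg)) * (E * L ^ 2 * c0) =
      (K * S * L) ^ 2 * (c0 * (((q + 36 * E) / q) ^ 2 * lg / (2 * K))) := by
    rw [hSS, hL, hS']
    field_simp
  have e4 : 1 / (2 * E) * (a * (θ * S' ^ 2 + 4 * (S' * r))) * (E * L ^ 2 * c0) =
      (K * S * L) ^ 2 * Mq E m q ε θ := by
    rw [hSS, hL, hS', hr, ha, Mq, ← hc0]
    field_simp
  have e5 : 1 / (2 * E) * (K ^ 2 * ((16 * E ^ 4 * K ^ 4) * (q ^ 2 / (m * y)) * S' ^ 2)) *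
      (E * L ^ 2 * c0) = (K * S * L) ^ 2 * (c0 * (8 * E ^ 4 * K ^ 4 * (q + 36 * E) ^ 2 / (m * y))) := by
    rw [hSS, hL, hS']
    field_simp
    ring
  have hS5 : 1 / (2 * E) * (K ^ 2 * ((16 * E ^ 4 * K ^ 4) * (2 * E * (V + L + W) / Φ) * S' ^ 2)) ≤
      1 / (2 * E) * (K ^ 2 * ((16 * E ^ 4 * K ^ 4) * (q ^ 2 / (m * y)) * S' ^ 2)) := by
    gcongr
  have hLp : 0 < L := by rw [hL]; positivity
  rw [hR]
  have hELc : 0 ≤ E * L ^ 2 * c0 := by positivity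
  have h6 := mul_le_mul_of_nonneg_right hS5 hELc
  rw [e5] at h6
  have h7 : 0 ≤ (K * S * L) ^ 2 := by positivity
  have h8 := mul_le_mul_of_nonneg_left hM h7
  have h9 := mul_le_mul_of_nonneg_left hS h7
  have h10 : (K * S * L) ^ 2 * Sm E m q y K lg =
      (K * S * L) ^ 2 * (c0 * (q * E / (m * K))) +
      (K * S * L) ^ 2 * (c0 * (3072 * E ^ 5 * K ^ 4 / (m ^ 2 * y))) +
      (K * S * L) ^ 2 * (c0 * (((q + 36 * E) / q) ^ 2 * lg / (2 * K))) +
      (K * S * L) ^ 2 * (c0 * (8 * E ^ 4 * K ^ 4 * (q + 36 * E) ^ 2 / (m * y))) := by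
    rw [Sm, ← hc0]
    ring
  calc _ = L * (K * S) * (E * L ^ 2 * c0) + L * (K ^ 2 * (3072 * E ^ 4 * K ^ 4)) * (E * L ^ 2 * c0) +
        K * (1 / (2 * E) * (S' ^ 2 * lg)) * (E * L ^ 2 * c0) +
        1 / (2 * E) * (a * (θ * S' ^ 2 + 4 * (S' * r))) * (E * L ^ 2 * c0) +
        1 / (2 * E) * (K ^ 2 * ((16 * E ^ 4 * K ^ 4) * (2 * E * (V + L + W) / Φ) * S' ^ 2)) *
          (E * L ^ 2 * c0) := by ring
    _ ≤ (K * S * L) ^ 2 * (c0 * (q * E / (m * K))) +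
        (K * S * L) ^ 2 * (c0 * (3072 * E ^ 5 * K ^ 4 / (m ^ 2 * y))) +
        (K * S * L) ^ 2 * (c0 * (((q + 36 * E) / q) ^ 2 * lg / (2 * K))) +
        (K * S * L) ^ 2 * Mq E m q ε θ +
        (K * S * L) ^ 2 * (c0 * (8 * E ^ 4 * K ^ 4 * (q + 36 * E) ^ 2 / (m * y))) := by
      rw [e1, e2, e3, e4]
      linarith
    _ ≤ (1 + ε) * (K * S * L) ^ 2 := by
      nlinarith

/-- `ω` -/
noncomputable def om (E q : ℝ) : ℝ := 141 * E * (q + 36 * E) / q ^ 2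

/-- `θ` -/
noncomputable def th (E m q : ℝ) : ℝ := (1 / m + 2 * om E q) / (1 - om E q)

theorem choose_q {E m : ℝ} {ε : ℝ} (hm : 2 ≤ m) (hε : 0 < ε) (hε1 : ε ≤ 1)
    (hmε : 1 / (2 * m) ≤ ε / 16) : ∃ q : ℕ, 0 < q ∧ 36 * m ≤ (q : ℝ) ^ 2 ∧
      141 * E * ((q : ℝ) + 36 * E) ≤ (q : ℝ) ^ 2 / 8 ∧ th E m q < 1 ∧
      Mq E m q ε (th E m q) ≤ 1 + ε / 2 := by
  have hm0 : 0 < m := by linarith
  let o : ℝ → ℝ := fun x => 141 * E * (x + 36 * E * x ^ 2)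
  let t : ℝ → ℝ := fun x => (1 / m + 2 * o x) / (1 - o x)
  let F : ℝ → ℝ := fun x => 1 / 2 * (1 + ε / 8) * (2 * m + 1 + 36 * m ^ 2 * x ^ 2) *
    (t x * (1 + 36 * E * x) ^ 2 + 4 * (1 + 36 * E * x) * x)
  have hoc : ContinuousAt o 0 := by fun_prop
  have ho0 : o 0 = 0 := by simp [o]
  have htc : ContinuousAt t 0 := by
    apply ContinuousAt.div
    · fun_prop
    · fun_prop
    · simp [ho0]
  have ht0 : t 0 = 1 / m := by simp [t, ho0]
  have hFc : ContinuousAt F 0 := by fun_prop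
  have hF0 : F 0 = (1 + ε / 8) * (1 + 1 / (2 * m)) := by
    simp only [F, ht0]
    field_simp
    ring
  have h1 : F 0 < 1 + ε / 2 := by
    rw [hF0]
    have : (1 + ε / 8) * (1 + 1 / (2 * m)) ≤ (1 + ε / 8) * (1 + ε / 16) := by gcongr
    nlinarith
  have h2 : t 0 < 1 := by
    rw [ht0, div_lt_one hm0]
    linarith
  have h3 : o 0 < 1 / 8 := by
    rw [ho0]; norm_num
  have hlim : Filter.Tendsto (fun q : ℕ => 1 / (q : ℝ)) Filter.atTop (nhds 0) :=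
    tendsto_one_div_atTop_nhds_zero_nat
  have e1 := (hFc.tendsto.comp hlim).eventually_lt_const h1
  have e2 := (htc.tendsto.comp hlim).eventually_lt_const h2
  have e3 := (hoc.tendsto.comp hlim).eventually_lt_const h3
  have e4 : ∀ᶠ q : ℕ in Filter.atTop, 36 * m + 1 ≤ (q : ℝ) :=
    (tendsto_natCast_atTop_atTop (R := ℝ)).eventually_ge_atTop (36 * m + 1)
  obtain ⟨q, h1, h2, h3, h4⟩ := (e1.and (e2.and (e3.and e4))).exists
  simp only [Function.comp] at h1 h2 h3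
  have hq1 : (1 : ℝ) ≤ q := by linarith
  have hq0 : (0 : ℝ) < q := by linarith
  have ho : o (1 / (q : ℝ)) = om E q := by
    simp only [o, om]
    field_simp
  have ht : t (1 / (q : ℝ)) = th E m q := by
    simp only [t, th, ho]
  have hF : F (1 / (q : ℝ)) = Mq E m q ε (th E m q) := by
    simp only [F, Mq, ht]
    have a1 : 1 + 36 * E * (1 / (q : ℝ)) = (q + 36 * E) / q := by field_simp
    have a2 : 36 * m ^ 2 * (1 / (q : ℝ)) ^ 2 = 36 * m ^ 2 / q ^ 2 := by field_simp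
    rw [a1, a2]
    ring
  refine ⟨q, by exact_mod_cast hq0, by nlinarith, ?_, ht ▸ h2, ?_⟩
  · rw [ho, om, div_lt_iff₀ (by positivity)] at h3
    linarith
  · rw [← hF]
    exact h1.le

open Filter Topology

theorem log_tendsto : Tendsto (fun y : ℕ => Real.log (y : ℝ)) atTop atTop :=
  Real.tendsto_log_atTop.comp tendsto_natCast_atTop_atTop

theorem rpow_tendsto {δ : ℝ} (hδ : 0 < δ) :
    Tendsto (fun y : ℕ => Real.log (y : ℝ) ^ (1 + δ)) atTop atTop :=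
  (tendsto_rpow_atTop (by linarith : 0 < 1 + δ)).comp log_tendsto

theorem KK_tendsto {δ : ℝ} (hδ : 0 < δ) : Tendsto (KK δ) atTop atTop :=
  tendsto_nat_floor_atTop.comp (rpow_tendsto hδ)

theorem KK_inv {δ : ℝ} (hδ : 0 < δ) :
    Tendsto (fun y : ℕ => 1 / (KK δ y : ℝ)) atTop (𝓝 0) :=
  tendsto_one_div_atTop_nhds_zero_nat.comp (KK_tendsto hδ)

theorem KK_le {δ : ℝ} (y : ℕ) (hy : 0 ≤ Real.log (y : ℝ)) :
    (KK δ y : ℝ) ≤ Real.log (y : ℝ) ^ (1 + δ) :=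
  Nat.floor_le (Real.rpow_nonneg hy _)

theorem KK_pow {δ : ℝ} :
    Tendsto (fun y : ℕ => (KK δ y : ℝ) ^ 4 / (y : ℝ)) atTop (𝓝 0) := by
  have h1 : Tendsto (fun x : ℝ => Real.log x ^ (4 * (1 + δ)) / x ^ (1 : ℝ)) atTop (𝓝 0) :=
    (isLittleO_log_rpow_rpow_atTop (4 * (1 + δ)) one_pos).tendsto_div_nhds_zero
  have h2 := h1.comp (tendsto_natCast_atTop_atTop (R := ℝ))
  refine squeeze_zero' (Eventually.of_forall fun y => by positivity) ?_ h2
  filter_upwards [log_tendsto.eventually_ge_atTop 1, eventually_gt_atTop 0] with y hy hy0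
  have hy0' : (0 : ℝ) < y := by exact_mod_cast hy0
  simp only [Function.comp, Real.rpow_one]
  gcongr
  calc (KK δ y : ℝ) ^ 4 ≤ (Real.log (y : ℝ) ^ (1 + δ)) ^ 4 := by
        gcongr
        exact KK_le y (by linarith)
    _ = Real.log (y : ℝ) ^ (4 * (1 + δ)) := by
        rw [← Real.rpow_natCast, ← Real.rpow_mul (by linarith)]
        congr 1
        push_cast
        ring

theorem KK_log {δ : ℝ} (hδ : 0 < δ) :
    Tendsto (fun y : ℕ => Real.log (y : ℝ) / (KK δ y : ℝ)) atTop (𝓝 0) := by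
  have h1 : Tendsto (fun y : ℕ => 2 * Real.log (y : ℝ) ^ (-δ)) atTop (𝓝 (2 * 0)) :=
    ((tendsto_rpow_neg_atTop hδ).comp log_tendsto).const_mul 2
  rw [mul_zero] at h1
  refine squeeze_zero' ?_ ?_ h1
  · filter_upwards [log_tendsto.eventually_ge_atTop 1] with y hy
    have : (0 : ℝ) ≤ KK δ y := by positivity
    exact div_nonneg (by linarith) this
  · filter_upwards [log_tendsto.eventually_ge_atTop 1, (rpow_tendsto hδ).eventually_ge_atTop 2]
      with y hy h2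
    have hl : 0 < Real.log (y : ℝ) := by linarith
    have h3 : Real.log (y : ℝ) ^ (1 + δ) < KK δ y + 1 := Nat.lt_floor_add_one _
    have h4 : Real.log (y : ℝ) ^ (1 + δ) / 2 ≤ KK δ y := by linarith
    have h5 : 0 < Real.log (y : ℝ) ^ (1 + δ) / 2 := by linarith
    calc Real.log (y : ℝ) / (KK δ y : ℝ) ≤ Real.log (y : ℝ) / (Real.log (y : ℝ) ^ (1 + δ) / 2) := by
          gcongr
      _ = 2 * Real.log (y : ℝ) ^ (-δ) := by
          rw [Real.rpow_add hl, Real.rpow_one, Real.rpow_neg hl.le]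
          have : Real.log (y : ℝ) ^ δ ≠ 0 := (Real.rpow_pos_of_pos hl δ).ne'
          field_simp

theorem KK_lg {δ : ℝ} (hδ : 0 < δ) {q : ℝ} (hq : 0 < q) :
    Tendsto (fun y : ℕ => (4 + 3 * Real.log (q ^ 2 * (y : ℝ))) / (KK δ y : ℝ)) atTop (𝓝 0) := by
  have h1 : Tendsto (fun y : ℕ => (4 + 3 * Real.log (q ^ 2)) * (1 / (KK δ y : ℝ)) +
      3 * (Real.log (y : ℝ) / (KK δ y : ℝ))) atTop
      (𝓝 ((4 + 3 * Real.log (q ^ 2)) * 0 + 3 * 0)) :=
    ((KK_inv hδ).const_mul _).add ((KK_log hδ).const_mul 3)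
  rw [mul_zero, mul_zero, add_zero] at h1
  refine h1.congr' ?_
  filter_upwards [eventually_gt_atTop 0] with y hy
  have hy' : (y : ℝ) ≠ 0 := by exact_mod_cast hy.ne'
  rw [Real.log_mul (by positivity) hy']
  ring

theorem small_terms {δ : ℝ} (hδ : 0 < δ) (E : ℝ) {m q ε : ℝ} (hm : 0 < m) (hq : 0 < q)
    (hε : 0 < ε) : ∀ᶠ y : ℕ in atTop,
      Sm E m q y (KK δ y) (4 + 3 * Real.log (q ^ 2 * (y : ℝ))) ≤ ε / 2 := by
  have h1 : Tendsto (fun y : ℕ => (2 * m + 1 + 36 * m ^ 2 / q ^ 2) *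
      (q * E / m * (1 / (KK δ y : ℝ)) + 3072 * E ^ 5 / m ^ 2 * ((KK δ y : ℝ) ^ 4 / (y : ℝ)) +
      ((q + 36 * E) / q) ^ 2 / 2 * ((4 + 3 * Real.log (q ^ 2 * (y : ℝ))) / (KK δ y : ℝ)) +
      8 * E ^ 4 * (q + 36 * E) ^ 2 / m * ((KK δ y : ℝ) ^ 4 / (y : ℝ)))) atTop
      (𝓝 ((2 * m + 1 + 36 * m ^ 2 / q ^ 2) * (q * E / m * 0 + 3072 * E ^ 5 / m ^ 2 * 0 +
        ((q + 36 * E) / q) ^ 2 / 2 * 0 + 8 * E ^ 4 * (q + 36 * E) ^ 2 / m * 0))) :=
    (((((KK_inv hδ).const_mul _).add (((KK_pow (δ := δ))).const_mul _)).add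
      ((KK_lg hδ hq).const_mul _)).add (((KK_pow (δ := δ))).const_mul _)).const_mul _
  simp only [mul_zero, add_zero] at h1
  filter_upwards [h1.eventually_lt_const (by linarith : (0 : ℝ) < ε / 2),
    (KK_tendsto hδ).eventually_gt_atTop 0, eventually_gt_atTop 0] with y h2 hK hy
  have hK' : (0 : ℝ) < KK δ y := by exact_mod_cast hK
  have hy' : (0 : ℝ) < y := by exact_mod_cast hy
  refine le_of_eq_of_le ?_ h2.le
  rw [Sm]
  congr 1
  congr 1
  · congr 1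
    · congr 1
      · field_simp
      · field_simp
    · field_simp
  · field_simp

theorem pow_small {δ : ℝ} (C : ℕ) :
    ∀ᶠ y : ℕ in atTop, C * KK δ y ^ 4 ≤ y := by
  have h1 := ((KK_pow (δ := δ))).const_mul (C : ℝ)
  rw [mul_zero] at h1
  filter_upwards [h1.eventually_lt_const (one_pos), eventually_gt_atTop 0] with y h2 hy
  have hy' : (0 : ℝ) < y := by exact_mod_cast hy
  have h3 : (C : ℝ) * (KK δ y : ℝ) ^ 4 ≤ y := by
    have h4 : (C : ℝ) * (KK δ y : ℝ) ^ 4 / y < 1 := by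
      rw [mul_div_assoc]; exact h2
    rw [div_lt_one hy'] at h4
    exact h4.le
  exact_mod_cast h3

end AsymAux

open AsymAux in
theorem second_moment {δ ε : ℝ} (hδ : 0 < δ) (hε : 0 < ε) : ∃ w : ℕ, ∀ E : ℕ, 0 < E →
    ∃ m q : ℕ, 0 < m ∧ 0 < q ∧ 36 * m ≤ q ^ 2 ∧ ∃ y₀ : ℕ, ∀ y : ℕ, y₀ ≤ y →
      0 < KK δ y ∧ 0 < y ∧ 14 * (16 * E ^ 2 * KK δ y ^ 2) ≤ m * q * y ∧
      ∀ p : Par, p.OK → p.E = E → (∀ P : ℕ, P.Prime → P ≤ w → P ∣ 2 * E) →
        (p.S2 (KK δ y) (m * q * y) (m * (q ^ 2 * y)) (q ^ 2 * y) : ℝ) *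
          ((E * (2 * (m * (q ^ 2 * y)) * (q ^ 2 * y) + (q ^ 2 * y) ^ 2) +
            36 * E * (m * q * y) ^ 2 : ℕ) : ℝ) ≤
        (1 + ε) * ((KK δ y * (m * q * y) * (q ^ 2 * y) : ℕ) : ℝ) ^ 2 := by
  wlog hε1 : ε ≤ 1 generalizing ε
  · obtain ⟨w, hw⟩ := this one_pos le_rfl
    refine ⟨w, fun E hE => ?_⟩
    obtain ⟨m, q, hm, hq, hmq, y₀, hy₀⟩ := hw E hE
    refine ⟨m, q, hm, hq, hmq, y₀, fun y hy => ?_⟩
    obtain ⟨h1, h2, h3, h4⟩ := hy₀ y hy
    refine ⟨h1, h2, h3, fun p hp hpE hw => (h4 p hp hpE hw).trans ?_⟩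
    gcongr
    linarith
  obtain ⟨w, hw⟩ := average (ε := ε / 8) (by linarith)
  refine ⟨w, fun E hE => ?_⟩
  obtain ⟨K₀, hK₀⟩ := hw E
  have hE' : (0 : ℝ) < E := by exact_mod_cast hE
  -- the choice of `m`
  obtain ⟨m, hm⟩ := exists_nat_ge (max 2 (8 / ε))
  have hm2 : (2 : ℝ) ≤ m := le_trans (le_max_left _ _) hm
  have hm8 : 8 / ε ≤ m := le_trans (le_max_right _ _) hm
  have hm0 : (0 : ℝ) < m := by linarith
  have hmε : 1 / (2 * (m : ℝ)) ≤ ε / 16 := by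
    rw [div_le_iff₀ hε] at hm8
    rw [div_le_iff₀ (by positivity)]
    nlinarith
  obtain ⟨q, hq0, hmq, hom, hth1, hMq⟩ := choose_q (E := (E : ℝ)) hm2 hε hε1 hmε
  have hq0' : (0 : ℝ) < q := by exact_mod_cast hq0
  have hmN : 0 < m := by exact_mod_cast hm0
  have hm2N : 2 ≤ m := by exact_mod_cast hm2
  refine ⟨m, q, hmN, hq0, by exact_mod_cast hmq, ?_⟩
  rw [← Filter.eventually_atTop]
  filter_upwards [(KK_tendsto hδ).eventually_ge_atTop K₀, (KK_tendsto hδ).eventually_gt_atTop 0,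
    Filter.eventually_gt_atTop 0, pow_small (δ := δ) (1536 * E ^ 4 * (q + 36 * E)),
    small_terms hδ (E : ℝ) hm0 hq0' hε] with y hKK₀ hK hy hC hSm
  have hKR : (0 : ℝ) < KK δ y := by exact_mod_cast hK
  have hyR : (0 : ℝ) < y := by exact_mod_cast hy
  generalize KK δ y = K at *
  have hK1 : 1 ≤ K := hK
  have hK24 : K ^ 2 ≤ K ^ 4 := Nat.pow_le_pow_right hK1 (by norm_num)
  have hE1 : 1 ≤ E := hE
  have hE14 : E ≤ E ^ 4 := by
    calc E = E ^ 1 := (pow_one E).symm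
      _ ≤ E ^ 4 := Nat.pow_le_pow_right hE1 (by norm_num)
  have hE24 : E ^ 2 ≤ E ^ 4 := Nat.pow_le_pow_right hE1 (by norm_num)
  have hqE : 1 ≤ q + 36 * E := by omega
  -- consequences of `hC`
  have c1 : 1536 * E ^ 4 * K ^ 4 ≤ y := by
    refine le_trans ?_ hC
    calc 1536 * E ^ 4 * K ^ 4 = 1536 * E ^ 4 * 1 * K ^ 4 := by ring
      _ ≤ 1536 * E ^ 4 * (q + 36 * E) * K ^ 4 := by gcongr
  have c2 : 1536 * E ^ 2 * K ^ 2 ≤ y := by
    refine le_trans ?_ c1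
    gcongr
  have c3 : 1536 * E ^ 2 * (q + 36 * E) * K ^ 2 ≤ y := by
    refine le_trans ?_ hC
    gcongr
  have hyle : y ≤ m * y := Nat.le_mul_of_pos_left y hmN
  have cS : 14 * (16 * E ^ 2 * K ^ 2) ≤ m * q * y := by
    calc 14 * (16 * E ^ 2 * K ^ 2) ≤ 1536 * E ^ 2 * K ^ 2 := by nlinarith [Nat.zero_le (E ^ 2 * K ^ 2)]
      _ ≤ y := c2
      _ ≤ m * y := hyle
      _ ≤ m * q * y := by
        gcongr
        exact Nat.le_mul_of_pos_right m hq0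
  refine ⟨hK, hy, cS, fun p hp hpE hpw => ?_⟩
  have hav := hK₀ p hp hpE hpw K hKK₀
  have hom0 : 0 ≤ om (E : ℝ) q := by unfold om; positivity
  have hom8 : om (E : ℝ) q ≤ 1 / 8 := by
    unfold om
    rw [div_le_iff₀ (by positivity)]
    linarith
  have hth0 : 0 ≤ th (E : ℝ) m q := by
    unfold th
    apply div_nonneg
    · positivity
    · linarith
  have hb := S2_bound (p := p) hp (K := K) (S := m * q * y) (S' := m * y * (q + 36 * E))
    (V := m * (q ^ 2 * y)) (L := q ^ 2 * y) (W := 141 * E * (m * y * (q + 36 * E))) (r := m * y)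
    (Φ₀ := 34 * E * m ^ 2 * y ^ 2) (θ := th (E : ℝ) m q) (a := (1 + ε / 8) * (K : ℝ) ^ 2)
    (by rw [hpE]; exact cS) (by rw [hpE]; apply le_of_eq; ring)
    (by
      rw [hpE]
      have h1 : 26 * (16 * E ^ 2 * K ^ 2) ≤ E * (m * y * (q + 36 * E)) := by
        calc 26 * (16 * E ^ 2 * K ^ 2) ≤ 1536 * E ^ 2 * K ^ 2 := by
              nlinarith [Nat.zero_le (E ^ 2 * K ^ 2)]
          _ ≤ y := c2
          _ = 1 * (1 * y * 1) := by ring
          _ ≤ E * (m * y * (q + 36 * E)) := by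
            gcongr
            exact hmN
      have h2 : 141 * E * (m * y * (q + 36 * E)) =
          140 * E * (m * y * (q + 36 * E)) + E * (m * y * (q + 36 * E)) := by ring
      omega)
    (by
      have h1 : ((141 * E * (m * y * (q + 36 * E)) : ℕ) : ℝ) < ((m * (q ^ 2 * y) : ℕ) : ℝ) := by
        push_cast
        have h2 : 141 * (E : ℝ) * (m * y * (q + 36 * E)) =
            (141 * (E : ℝ) * (q + 36 * E)) * (m * y) := by ring
        have h3 : (m : ℝ) * (q ^ 2 * y) = q ^ 2 * (m * y) := by ring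
        rw [h2, h3]
        have h4 : (0 : ℝ) < m * y := by positivity
        have h5 : 141 * (E : ℝ) * (q + 36 * E) < q ^ 2 := by
          have : (0 : ℝ) < (q : ℝ) ^ 2 := by positivity
          linarith
        exact mul_lt_mul_of_pos_right h5 h4
      exact_mod_cast h1)
    hth0 hth1
    (by
      have h1 : ((141 * E * (m * y * (q + 36 * E)) : ℕ) : ℝ) =
          om (E : ℝ) q * (m * (q ^ 2 * y)) := by
        unfold om
        push_cast
        field_simp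
      rw [h1]
      have h2 : (1 + th (E : ℝ) m q) * (1 - om (E : ℝ) q) = 1 + 1 / m + om (E : ℝ) q := by
        have : 1 - om (E : ℝ) q ≠ 0 := by linarith
        unfold th
        field_simp
        ring
      push_cast
      apply le_of_eq
      calc (m : ℝ) * (q ^ 2 * y) + q ^ 2 * y + om (E : ℝ) q * (m * (q ^ 2 * y)) =
            (1 + 1 / m + om (E : ℝ) q) * (m * (q ^ 2 * y)) := by
            field_simp
        _ = (1 + th (E : ℝ) m q) * (1 - om (E : ℝ) q) * (m * (q ^ 2 * y)) := by rw [h2]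
        _ = _ := by ring)
    (by positivity)
    (by
      rw [hpE]
      have h1 : 13 * (16 * E ^ 2 * K ^ 2) * (m * y * (q + 36 * E)) * 2 ≤ y * (m * y) := by
        calc 13 * (16 * E ^ 2 * K ^ 2) * (m * y * (q + 36 * E)) * 2 =
              416 * E ^ 2 * (q + 36 * E) * K ^ 2 * (m * y) := by ring
          _ ≤ 1536 * E ^ 2 * (q + 36 * E) * K ^ 2 * (m * y) := by gcongr; norm_num
          _ ≤ y * (m * y) := by gcongr
      have h2 : 3 * (16 * E ^ 2 * K ^ 2) ^ 2 * 2 ≤ y * (m * y) := by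
        calc 3 * (16 * E ^ 2 * K ^ 2) ^ 2 * 2 = 1536 * E ^ 4 * K ^ 4 := by ring
          _ ≤ y := c1
          _ = y * 1 := by ring
          _ ≤ y * (m * y) := by
            gcongr
            exact Nat.mul_pos hmN hy
      have h3 : y * (m * y) ≤ E * m ^ 2 * y ^ 2 := by
        calc y * (m * y) = 1 * (m * 1) * y ^ 2 := by ring
          _ ≤ E * (m * m) * y ^ 2 := by
            gcongr
            exact hmN
          _ = E * m ^ 2 * y ^ 2 := by ring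
      have h4 : 35 * E * (m * y) ^ 2 = 34 * E * m ^ 2 * y ^ 2 + E * m ^ 2 * y ^ 2 := by ring
      omega)
    hav
  have hk := key (E := (E : ℝ)) (m := m) (q := q) (y := y) (K := K) (θ := th (E : ℝ) m q)
    (lg := 4 + 3 * Real.log ((q : ℝ) ^ 2 * y)) (a := (1 + ε / 8) * (K : ℝ) ^ 2) (ε := ε)
    hE' (by linarith) hq0' hyR hKR hom rfl hMq hSm
    (V := m * (q ^ 2 * y)) (L := q ^ 2 * y) (S := m * q * y) (S' := m * y * (q + 36 * E))
    (W := 141 * E * (m * y * (q + 36 * E))) (r := m * y) (Φ := 34 * E * m ^ 2 * y ^ 2)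
    rfl rfl rfl rfl rfl rfl rfl
  rw [hpE] at hb
  push_cast at hb ⊢
  refine le_trans (mul_le_mul_of_nonneg_right hb (by positivity)) ?_
  exact hk

end Pool.Agent.Lib.TSq
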