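import Mathlib

/-!
TSq.Blocks (about 0.8 h, Mathlib only). Counting by blocks of side `q`.

PROOF. Let `I` be the image of `R` under `z ↦ (z.1 / q, z.2 / q)`. Then `R` is the disjoint union of the fibres over
`I` (`Finset.card_eq_sum_card_fiberwise`), so `#R ≤ ρ #I`. For `(i,j) ∈ I` all `q²` points of the block
`[iq,(i+1)q) × [jq,(j+1)q)` lie in `R'` and these blocks are disjoint (they are the fibres of the same map), so
`#R' ≥ q² #I`. Hence `q² #R ≤ q² ρ #I ≤ ρ #R'`.
-/

open Finset

namespace Pool.Agent.Lib.TSq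

theorem card_blocks {q ρ : ℕ} (hq : 0 < q) (R R' : Finset (ℕ × ℕ))
    (hρ : ∀ i j, (R.filter (fun z => z.1 / q = i ∧ z.2 / q = j)).card ≤ ρ)
    (hR : ∀ z ∈ R, ∀ z' : ℕ × ℕ, z'.1 / q = z.1 / q → z'.2 / q = z.2 / q → z' ∈ R') :
    q ^ 2 * R.card ≤ ρ * R'.card := by
  set π : ℕ × ℕ → ℕ × ℕ := fun z => (z.1 / q, z.2 / q) with hπ
  have h1 : R.card ≤ ρ * (R.image π).card := by
    refine Finset.card_le_mul_card_image R ρ fun w _ => ?_
    refine le_trans (le_of_eq ?_) (hρ w.1 w.2)
    congr 1
    ext z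
    simp only [Finset.mem_filter, hπ, Prod.ext_iff]
  have h2 : q ^ 2 * (R.image π).card ≤ R'.card := by
    have h3 : (R'.filter (fun z => π z ∈ R.image π)).card =
        ∑ w ∈ R.image π, ((R'.filter (fun z => π z ∈ R.image π)).filter (fun z => π z = w)).card :=
      Finset.card_eq_sum_card_fiberwise fun z hz => (Finset.mem_filter.1 hz).2
    have h4 : ∀ w ∈ R.image π, q ^ 2 ≤
        ((R'.filter (fun z => π z ∈ R.image π)).filter (fun z => π z = w)).card := by
      intro w hw
      obtain ⟨z, hz, hzw⟩ := Finset.mem_image.1 hw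
      have hcard : (Finset.range q ×ˢ Finset.range q).card = q ^ 2 := by
        rw [Finset.card_product, Finset.card_range, sq]
      rw [← hcard]
      refine Finset.card_le_card_of_injOn (fun x => (w.1 * q + x.1, w.2 * q + x.2)) ?_ ?_
      · intro x hx
        rw [Finset.mem_coe, Finset.mem_product, Finset.mem_range, Finset.mem_range] at hx
        have e1 : (w.1 * q + x.1) / q = w.1 := by
          rw [Nat.mul_comm, Nat.mul_add_div hq, Nat.div_eq_of_lt hx.1, Nat.add_zero]
        have e2 : (w.2 * q + x.2) / q = w.2 := by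
          rw [Nat.mul_comm, Nat.mul_add_div hq, Nat.div_eq_of_lt hx.2, Nat.add_zero]
        have e3 : π (w.1 * q + x.1, w.2 * q + x.2) = w := Prod.ext e1 e2
        rw [Finset.mem_coe, Finset.mem_filter, Finset.mem_filter]
        refine ⟨⟨?_, ?_⟩, e3⟩
        · refine hR z hz _ ?_ ?_
          · rw [e1, ← hzw]
          · rw [e2, ← hzw]
        · rw [e3]
          exact hw
      · intro x _ y _ hxy
        simp only [Prod.mk.injEq, Nat.add_left_cancel_iff] at hxy
        exact Prod.ext hxy.1 hxy.2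
    calc q ^ 2 * (R.image π).card = ∑ _w ∈ R.image π, q ^ 2 := by
          rw [Finset.sum_const, smul_eq_mul, Nat.mul_comm]
      _ ≤ (R'.filter (fun z => π z ∈ R.image π)).card := by
          rw [h3]
          exact Finset.sum_le_sum h4
      _ ≤ R'.card := Finset.card_filter_le _ _
  calc q ^ 2 * R.card ≤ q ^ 2 * (ρ * (R.image π).card) := Nat.mul_le_mul_left _ h1
    _ = ρ * (q ^ 2 * (R.image π).card) := by ring
    _ ≤ ρ * R'.card := Nat.mul_le_mul_left _ h2

end Pool.Agent.Lib.TSq
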