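import Pool.Agent.Lib.TSq.Local
import Pool.Agent.Lib.TSq.Blocks

/-!
TSq.Cells (about 1.3 h). The lattice points with `Φ ≡ d(u + Ed) (mod 2Ed)` in a hyperbolic strip.
Imports are black boxes (`card_block_le`, `card_blocks`).

PROOF. Let `q = 2Ed`. For `σ = ±1` let `R = Nset σ`, `R'_σ = {z ∈ [0,S')² : 2E(V-W)d ≤ σΦ(z) ≤ 2E(V+L+W)d}`.
Apply `card_blocks` with `ρ = 2Ed tau(d)`:
(i) `hρ` from `card_block_le` for the block `[iq,(i+1)q) × [jq,(j+1)q)` and `r = σ (u + Ed)` (for `σ = -1`: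
`q ∣ -Φ - d(u+Ed)` iff `q ∣ Φ - d(-(u+Ed))`).
(ii) `hR`: let `z = (s₁,s₂) ∈ R`, `z' = (s₁',s₂')` in the same block: `|sᵢ - sᵢ'| < q`, `sᵢ < S`, so `sᵢ' < S + q ≤ S'`. By
`Ph_eq` for `z` and `z'`: `4E(Φ(z) - Φ(z')) = [B(b₂) - B(b₂')] - [B(b₁) - B(b₁')]`, where (same `l`)
`B(b) - B(b') = (b - b')(35(b + b') + 26 l)`, `|b - b'| = 2E|s - s'| ≤ 2Eq`, `0 ≤ b + b' ≤ 4ES'` (`p.b < 2E`, `s, s' ≤ S'-1`).
So `|Φ(z) - Φ(z')| ≤ q(140ES' + 26 lm) ≤ qW = 2EdW`, which gives the claim.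
`card_blocks` gives `q² #R ≤ q tau(d) #R'_σ`, so `q #R ≤ tau(d) #R'_σ`. As `σΦ > 0` on `R'_σ` (`W < V`, `d > 0`,
`E > 0`), `R'_1` and `R'_{-1}` are disjoint subsets of the set of the right hand side.
-/

open Finset

namespace Pool.Agent.Lib.TSq

open Par

namespace CellsAux

theorem bb_lt {p : Par} (hp : p.OK) {s S' : ℕ} (hs : s < S') : (p.bb s : ℤ) ≤ 2 * p.E * S' := by
  have h1 : p.bb s ≤ 2 * p.E * S' := by
    have hb := hp.hb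
    unfold bb
    calc p.b + 2 * p.E * s ≤ 2 * p.E + 2 * p.E * s := by omega
      _ = 2 * p.E * (s + 1) := by ring
      _ ≤ 2 * p.E * S' := Nat.mul_le_mul_left _ hs
  exact_mod_cast h1

theorem diff_le {p : Par} (hp : p.OK) {s s' S' l lm q : ℕ} (hs : s < S') (hs' : s' < S')
    (hl : l ≤ lm) (hq : |(s : ℤ) - s'| ≤ q) :
    |(35 * (p.bb s : ℤ) ^ 2 + 26 * l * p.bb s + 5 * (l : ℤ) ^ 2) -
      (35 * (p.bb s' : ℤ) ^ 2 + 26 * l * p.bb s' + 5 * (l : ℤ) ^ 2)| ≤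
      2 * (p.E : ℤ) * q * (140 * (p.E : ℤ) * S' + 26 * lm) := by
  have e1 : (35 * (p.bb s : ℤ) ^ 2 + 26 * l * p.bb s + 5 * (l : ℤ) ^ 2) -
      (35 * (p.bb s' : ℤ) ^ 2 + 26 * l * p.bb s' + 5 * (l : ℤ) ^ 2) =
      ((p.bb s : ℤ) - p.bb s') * (35 * ((p.bb s : ℤ) + p.bb s') + 26 * l) := by ring
  have e2 : (p.bb s : ℤ) - p.bb s' = 2 * p.E * ((s : ℤ) - s') := by
    unfold bb
    push_cast
    ring
  have h1 := bb_lt hp hs
  have h2 := bb_lt hp hs'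
  have h3 : (l : ℤ) ≤ lm := by exact_mod_cast hl
  have hE : (0 : ℤ) ≤ 2 * p.E := by positivity
  rw [e1, abs_mul, e2, abs_mul, abs_of_nonneg hE,
    abs_of_nonneg (show (0 : ℤ) ≤ 35 * ((p.bb s : ℤ) + p.bb s') + 26 * l by positivity)]
  exact mul_le_mul (mul_le_mul_of_nonneg_left hq hE) (by linarith) (by positivity) (by positivity)

theorem Ph_near {p : Par} (hp : p.OK) {t₁ t₂ s₁ s₂ s₁' s₂' S' lm q : ℕ}
    (h1 : p.ll t₁ ≤ lm) (h2 : p.ll t₂ ≤ lm) (a1 : s₁ < S') (a2 : s₂ < S') (a3 : s₁' < S')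
    (a4 : s₂' < S') (b1 : |(s₁ : ℤ) - s₁'| ≤ q) (b2 : |(s₂ : ℤ) - s₂'| ≤ q) :
    |p.Ph t₁ t₂ s₁ s₂ - p.Ph t₁ t₂ s₁' s₂'| ≤ (q : ℤ) * (140 * (p.E : ℤ) * S' + 26 * lm) := by
  have e1 := Ph_eq p t₁ t₂ s₁ s₂
  have e2 := Ph_eq p t₁ t₂ s₁' s₂'
  have d1 := diff_le hp a1 a3 h1 b1
  have d2 := diff_le hp a2 a4 h2 b2
  have hE : (0 : ℤ) < 4 * p.E := by
    have := hp.hE
    positivity
  have h3 : 4 * (p.E : ℤ) * |p.Ph t₁ t₂ s₁ s₂ - p.Ph t₁ t₂ s₁' s₂'| ≤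
      4 * p.E * (q * (140 * p.E * S' + 26 * lm)) := by
    rw [← abs_of_pos hE, ← abs_mul, abs_of_pos hE]
    have e3 : 4 * (p.E : ℤ) * (p.Ph t₁ t₂ s₁ s₂ - p.Ph t₁ t₂ s₁' s₂') =
        ((35 * (p.bb s₂ : ℤ) ^ 2 + 26 * p.ll t₂ * p.bb s₂ + 5 * (p.ll t₂ : ℤ) ^ 2) -
        (35 * (p.bb s₂' : ℤ) ^ 2 + 26 * p.ll t₂ * p.bb s₂' + 5 * (p.ll t₂ : ℤ) ^ 2)) -
        ((35 * (p.bb s₁ : ℤ) ^ 2 + 26 * p.ll t₁ * p.bb s₁ + 5 * (p.ll t₁ : ℤ) ^ 2) -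
        (35 * (p.bb s₁' : ℤ) ^ 2 + 26 * p.ll t₁ * p.bb s₁' + 5 * (p.ll t₁ : ℤ) ^ 2)) := by
      rw [mul_sub, ← e1, ← e2]
      ring
    rw [e3]
    refine (abs_sub _ _).trans ?_
    linarith
  exact le_of_mul_le_mul_left h3 hE

theorem one_sign {p : Par} (hp : p.OK) {d : ℕ} (hd : 0 < d) {t₁ t₂ S S' V L W lm : ℕ}
    (h1 : p.ll t₁ ≤ lm) (h2 : p.ll t₂ ≤ lm) (hS : S + 2 * p.E * d ≤ S')
    (hW : 140 * p.E * S' + 26 * lm ≤ W) {σ : ℤ} (hσ : σ = 1 ∨ σ = -1) :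
    2 * p.E * d * (p.Nset t₁ t₂ S V L d σ).card ≤
      p.tau t₁ t₂ d * ((range S' ×ˢ range S').filter (fun z =>
        2 * (p.E : ℤ) * ((V : ℤ) - W) * d ≤ σ * p.Ph t₁ t₂ z.1 z.2 ∧
        σ * p.Ph t₁ t₂ z.1 z.2 ≤ 2 * (p.E : ℤ) * ((V : ℤ) + L + W) * d)).card := by
  have hE := hp.hE
  set q : ℕ := 2 * p.E * d with hq
  have hq0 : 0 < q := by positivity
  set R' := (range S' ×ˢ range S').filter (fun z : ℕ × ℕ =>
        2 * (p.E : ℤ) * ((V : ℤ) - W) * d ≤ σ * p.Ph t₁ t₂ z.1 z.2 ∧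
        σ * p.Ph t₁ t₂ z.1 z.2 ≤ 2 * (p.E : ℤ) * ((V : ℤ) + L + W) * d) with hR'
  have hρ : ∀ i j, ((p.Nset t₁ t₂ S V L d σ).filter
      (fun z => z.1 / q = i ∧ z.2 / q = j)).card ≤ q * p.tau t₁ t₂ d := by
    intro i j
    refine (Finset.card_le_card (fun z hz => ?_)).trans
      (card_block_le hp hd t₁ t₂ (i * q) (j * q) (σ * ((p.u : ℤ) + p.E * d)))
    rw [mem_filter] at hz
    obtain ⟨hz, hi, hj⟩ := hz
    unfold Nset at hz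
    rw [mem_filter] at hz
    obtain ⟨-, hz1, -, -⟩ := hz
    rw [mem_filter, mem_product, mem_Ico, mem_Ico]
    refine ⟨⟨⟨?_, ?_⟩, ?_, ?_⟩, ?_⟩
    · rw [← hi]; exact Nat.div_mul_le_self _ _
    · rw [← hi, ← hq]; exact Nat.lt_div_mul_add hq0
    · rw [← hj]; exact Nat.div_mul_le_self _ _
    · rw [← hj, ← hq]; exact Nat.lt_div_mul_add hq0
    · rcases hσ with rfl | rfl
      · rw [one_mul] at hz1 ⊢
        exact hz1
      · rw [neg_one_mul] at hz1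
        have h3 := (dvd_neg (α := ℤ)).mpr hz1
        have e1 : -(-p.Ph t₁ t₂ z.1 z.2 - (d : ℤ) * ((p.u : ℤ) + p.E * d)) =
            p.Ph t₁ t₂ z.1 z.2 - d * (-1 * ((p.u : ℤ) + p.E * d)) := by ring
        rwa [e1] at h3
  have hR : ∀ z ∈ p.Nset t₁ t₂ S V L d σ, ∀ z' : ℕ × ℕ, z'.1 / q = z.1 / q →
      z'.2 / q = z.2 / q → z' ∈ R' := by
    intro z hz z' hi hj
    unfold Nset at hz
    rw [mem_filter, mem_product, mem_range, mem_range] at hz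
    obtain ⟨⟨hz1, hz2⟩, -, hz3, hz4⟩ := hz
    have a1 := Nat.div_mul_le_self z.1 q
    have a2 := Nat.lt_div_mul_add (a := z.1) hq0
    have a3 := Nat.div_mul_le_self z'.1 q
    have a4 := Nat.lt_div_mul_add (a := z'.1) hq0
    have b1 := Nat.div_mul_le_self z.2 q
    have b2 := Nat.lt_div_mul_add (a := z.2) hq0
    have b3 := Nat.div_mul_le_self z'.2 q
    have b4 := Nat.lt_div_mul_add (a := z'.2) hq0
    rw [hi] at a3 a4
    rw [hj] at b3 b4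
    generalize z.1 / q * q = x at a1 a2 a3 a4
    generalize z.2 / q * q = y at b1 b2 b3 b4
    have c1 : |(z.1 : ℤ) - z'.1| ≤ q := by
      rw [abs_le]
      constructor <;> omega
    have c2 : |(z.2 : ℤ) - z'.2| ≤ q := by
      rw [abs_le]
      constructor <;> omega
    have h3 := Ph_near hp (S' := S') h1 h2 (by omega) (by omega) (by omega) (by omega) c1 c2
    have h4 : (q : ℤ) * (140 * p.E * S' + 26 * lm) ≤ q * W := by
      have h5 : q * (140 * p.E * S' + 26 * lm) ≤ q * W := Nat.mul_le_mul_left _ hW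
      exact_mod_cast h5
    have h5 : (q : ℤ) * W = 2 * p.E * d * W := by
      rw [hq]
      push_cast
      ring
    have h6 : |σ * p.Ph t₁ t₂ z.1 z.2 - σ * p.Ph t₁ t₂ z'.1 z'.2| ≤ 2 * p.E * d * W := by
      rw [← mul_sub, abs_mul]
      have h7 : |σ| = 1 := by
        rcases hσ with rfl | rfl <;> simp
      rw [h7, one_mul]
      linarith
    obtain ⟨h8, h9⟩ := abs_le.mp h6
    rw [hR', mem_filter, mem_product, mem_range, mem_range]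
    refine ⟨⟨by omega, by omega⟩, ?_, ?_⟩
    · nlinarith
    · nlinarith
  have h3 := card_blocks hq0 (p.Nset t₁ t₂ S V L d σ) R' hρ hR
  have h4 : q * (q * (p.Nset t₁ t₂ S V L d σ).card) ≤ q * (p.tau t₁ t₂ d * R'.card) := by
    calc q * (q * (p.Nset t₁ t₂ S V L d σ).card) = q ^ 2 * (p.Nset t₁ t₂ S V L d σ).card := by ring
      _ ≤ q * p.tau t₁ t₂ d * R'.card := h3
      _ = q * (p.tau t₁ t₂ d * R'.card) := by ring
  exact Nat.le_of_mul_le_mul_left h4 hq0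

end CellsAux

open CellsAux

theorem cells {p : Par} (hp : p.OK) {d : ℕ} (hd : 0 < d) {t₁ t₂ S S' V L W lm : ℕ}
    (h1 : p.ll t₁ ≤ lm) (h2 : p.ll t₂ ≤ lm) (hS : S + 2 * p.E * d ≤ S')
    (hW : 140 * p.E * S' + 26 * lm ≤ W) (hWV : W < V) :
    2 * p.E * d * ((p.Nset t₁ t₂ S V L d 1).card + (p.Nset t₁ t₂ S V L d (-1)).card) ≤
      p.tau t₁ t₂ d * ((range S' ×ˢ range S').filter (fun z =>
        2 * (p.E : ℤ) * ((V : ℤ) - W) * d ≤ |p.Ph t₁ t₂ z.1 z.2| ∧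
        |p.Ph t₁ t₂ z.1 z.2| ≤ 2 * (p.E : ℤ) * ((V : ℤ) + L + W) * d)).card := by
  have hE := hp.hE
  have h3 := one_sign hp hd (V := V) (L := L) h1 h2 hS hW (σ := 1) (Or.inl rfl)
  have h4 := one_sign hp hd (V := V) (L := L) h1 h2 hS hW (σ := -1) (Or.inr rfl)
  set R1 := (range S' ×ˢ range S').filter (fun z : ℕ × ℕ =>
        2 * (p.E : ℤ) * ((V : ℤ) - W) * d ≤ 1 * p.Ph t₁ t₂ z.1 z.2 ∧
        1 * p.Ph t₁ t₂ z.1 z.2 ≤ 2 * (p.E : ℤ) * ((V : ℤ) + L + W) * d) with hR1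
  set R2 := (range S' ×ˢ range S').filter (fun z : ℕ × ℕ =>
        2 * (p.E : ℤ) * ((V : ℤ) - W) * d ≤ -1 * p.Ph t₁ t₂ z.1 z.2 ∧
        -1 * p.Ph t₁ t₂ z.1 z.2 ≤ 2 * (p.E : ℤ) * ((V : ℤ) + L + W) * d) with hR2
  have hpos : 0 < 2 * (p.E : ℤ) * ((V : ℤ) - W) * d := by
    have e1 : (0 : ℤ) < (V : ℤ) - W := by omega
    have e2 : (0 : ℤ) < p.E := by exact_mod_cast hE
    have e3 : (0 : ℤ) < d := by exact_mod_cast hd
    positivity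
  have hdisj : Disjoint R1 R2 := by
    rw [Finset.disjoint_left]
    intro z hz1 hz2
    rw [hR1, mem_filter] at hz1
    rw [hR2, mem_filter] at hz2
    linarith [hz1.2.1, hz2.2.1]
  have hsub : R1 ∪ R2 ⊆ (range S' ×ˢ range S').filter (fun z =>
        2 * (p.E : ℤ) * ((V : ℤ) - W) * d ≤ |p.Ph t₁ t₂ z.1 z.2| ∧
        |p.Ph t₁ t₂ z.1 z.2| ≤ 2 * (p.E : ℤ) * ((V : ℤ) + L + W) * d) := by
    intro z hz
    rw [mem_union] at hz
    rw [mem_filter]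
    rcases hz with hz | hz
    · rw [hR1, mem_filter, one_mul] at hz
      rw [abs_of_pos (hpos.trans_le hz.2.1)]
      exact hz
    · rw [hR2, mem_filter, neg_one_mul] at hz
      rw [abs_of_neg (by linarith [hz.2.1])]
      exact hz
  have h5 := card_le_card hsub
  rw [card_union_of_disjoint hdisj] at h5
  calc 2 * p.E * d * ((p.Nset t₁ t₂ S V L d 1).card + (p.Nset t₁ t₂ S V L d (-1)).card)
      = 2 * p.E * d * (p.Nset t₁ t₂ S V L d 1).card +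
        2 * p.E * d * (p.Nset t₁ t₂ S V L d (-1)).card := by ring
    _ ≤ p.tau t₁ t₂ d * R1.card + p.tau t₁ t₂ d * R2.card := Nat.add_le_add h3 h4
    _ = p.tau t₁ t₂ d * (R1.card + R2.card) := by ring
    _ ≤ _ := Nat.mul_le_mul_left _ h5

end Pool.Agent.Lib.TSq
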