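import Pool.Agent.Lib.TSq.Near

/-!
TSq.Count (about 1.8 h). From the second moment to the number of exceptions in a residue class. Imports are black boxes.

PROOF. Let `R = E(2VL + L²) + 36ES²`.
(1) `Rep`: for a triple `(t,s,v)` put `l = ll t`, `b = bb s`, `U = uu v`. By `h6`, `U + b - l ≡ u + b₀ - 2ck² ≡ 0 (mod 6)` (`6 ∣ 2E` as
`210 ∣ E`; `ll t ≡ 2ck² mod 2E`). Put `a = (U + b - l)/6`, `x = l + a + 2b`, `y = b - 2a`, `z = a - b`: `x + 3y + 5z = l = 2c kk(t)²` and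
`6(x²+y²+z²) = U² + 35b² + 26lb + 5l² = six t s v` (`ring` with `U = 6a - b + l`). So `six t s v = 6n` with `Rep p.c M n` (`kk t < 2EK ≤ M`: `k < 2E`, `t ≤ K - 1`).
(2) `six ≡ cls (mod 4E)` where `cls = u² + 35b₀² + 26(2ck²)b₀ + 5(2ck²)²`: `U = u + 2Ev`, so `U² ≡ u² mod 4E`; `35b² ≡ 35b₀²`; `l ≡ 2ck²
mod 4E` (`l - 2ck² = 2c(4Ekt + 4E²t²)`), `26 l b ≡ 26 (2ck²) b₀ mod 4E` (`26·2E·(..)`), `5l² ≡ 5(2ck²)²`.
(3) `(2EV)² ≤ six < (2EV)² + 4ER`: `2EV ≤ U < 2E(V+L)`, `b < 2ES`, `l ≤ lm = 16E²K² ≤ S/14` (as in `Ph_le`):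
`35b² + 26lb + 5l² ≤ 140E²S² + 52E lm S + 5lm² ≤ 144E²S²`.
(4) Cauchy-Schwarz: `(KSL)² = #TT² ≤ #(image of six on TT) · S2` (`Finset.card_eq_sum_card_image` or `card_eq_sum_card_fiberwise`,
`sq_sum_le_card_mul_sum_sq`; `S2 = ∑_v #fibre²`). Hence, by `h`, `#image · (1 + ε) ≥ R` (`S2 > 0` because `K, S, L > 0`).
(5) The numbers `m` with `(2EV)² ≤ m < (2EV)² + 4ER`, `m ≡ cls mod 4E` are at most `R` (one in each interval of length `4E`); they
contain the image of `six` and the numbers `6n`, `n ∈ B` (`(2E(V+L))² = (2EV)² + 4E·E(2VL+L²)`), and these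
two sets are disjoint, by (1). So the number of exceptions is `≤ R - #image ≤ R - R/(1+ε) ≤ εR`.
-/

open Finset

namespace Pool.Agent.Lib.TSq

open Par

/-- `6n` modulo `4E` -/
def Par.cls (p : Par) : ℤ :=
  (p.u : ℤ) ^ 2 + 35 * p.b ^ 2 + 26 * (2 * p.c * p.k ^ 2) * p.b + 5 * (2 * p.c * p.k ^ 2) ^ 2

namespace CountAux

theorem kk_lt {p : Par} (hp : p.OK) {t K : ℕ} (h : t < K) : p.kk t < 2 * p.E * K := by
  have h1 := hp.hk
  have h2 : 2 * p.E * (t + 1) ≤ 2 * p.E * K := Nat.mul_le_mul_left _ h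
  unfold Par.kk
  rw [mul_add] at h2
  omega

theorem ll_le {p : Par} (hp : p.OK) {t K : ℕ} (h : t < K) : p.ll t ≤ 16 * p.E ^ 2 * K ^ 2 := by
  have h1 := (kk_lt hp h).le
  have hc : p.c ≤ 2 := by rcases hp.c12 with h | h <;> omega
  calc p.ll t = 2 * p.c * p.kk t ^ 2 := rfl
    _ ≤ 2 * 2 * (2 * p.E * K) ^ 2 := by gcongr
    _ = 16 * p.E ^ 2 * K ^ 2 := by ring

theorem rep {p : Par} (hp : p.OK) (h6 : (6 : ℤ) ∣ (p.u : ℤ) + p.b - 2 * p.c * p.k ^ 2)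
    {K t : ℕ} (s v : ℕ) (ht : t < K) {M : ℝ} (hM : 2 * (p.E : ℝ) * K ≤ M) :
    ∃ n : ℕ, p.six t s v = 6 * n ∧ Rep p.c M n := by
  obtain ⟨e, he⟩ : ∃ e : ℕ, p.E = 210 * e := hp.h210
  obtain ⟨w, hw⟩ := h6
  have he' : (p.E : ℤ) = 210 * e := by rw [he]; push_cast; ring
  have hl : (p.ll t : ℤ) = 2 * p.c * p.k ^ 2 + 4 * p.E * (2 * p.c * (p.k * t + p.E * t ^ 2)) := by
    simp only [Par.ll, Par.kk]
    push_cast
    ring
  have hb : (p.bb s : ℤ) = p.b + 2 * p.E * s := by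
    simp only [Par.bb]
    push_cast
    ring
  have hu : (p.uu v : ℤ) = p.u + 2 * p.E * v := by
    simp only [Par.uu]
    push_cast
    ring
  obtain ⟨a, ha⟩ : ∃ a : ℤ, (p.uu v : ℤ) + p.bb s - p.ll t = 6 * a := by
    refine ⟨w + 70 * e * (v + s) - 140 * e * (2 * p.c * (p.k * t + p.E * t ^ 2)), ?_⟩
    have h1 : (p.uu v : ℤ) + p.bb s - p.ll t = (p.u + p.b - 2 * p.c * p.k ^ 2) +
        p.E * (2 * (v + s) - 4 * (2 * p.c * (p.k * t + p.E * t ^ 2))) := by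
      rw [hl, hb, hu]
      ring
    rw [h1, hw]
    have h2 : (p.E : ℤ) * (2 * (v + s) - 4 * (2 * p.c * (p.k * t + p.E * t ^ 2))) =
        210 * e * (2 * (v + s) - 4 * (2 * p.c * (p.k * t + p.E * t ^ 2))) := by
      rw [← he']
    rw [h2]
    ring
  obtain ⟨b, hbd⟩ : ∃ b : ℤ, b = p.bb s := ⟨_, rfl⟩
  obtain ⟨l, hld⟩ : ∃ l : ℤ, l = p.ll t := ⟨_, rfl⟩
  have hU : (p.uu v : ℤ) = 6 * a - b + l := by rw [hbd, hld]; linarith
  have hsix : (p.six t s v : ℤ) = 6 * ((l + a + 2 * b) ^ 2 + (b - 2 * a) ^ 2 + (a - b) ^ 2) := by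
    simp only [Par.six]
    push_cast
    rw [hU, ← hbd, ← hld]
    ring
  have hn : 0 ≤ (l + a + 2 * b) ^ 2 + (b - 2 * a) ^ 2 + (a - b) ^ 2 := by positivity
  refine ⟨((l + a + 2 * b) ^ 2 + (b - 2 * a) ^ 2 + (a - b) ^ 2).toNat, ?_, l + a + 2 * b,
    b - 2 * a, a - b, p.kk t, ?_, ?_, ?_⟩
  · have h1 := Int.toNat_of_nonneg hn
    rw [← h1] at hsix
    exact_mod_cast hsix
  · refine le_trans ?_ hM
    have := (kk_lt hp ht).le
    exact_mod_cast this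
  · exact Int.toNat_of_nonneg hn
  · rw [hld]
    simp only [Par.ll]
    push_cast
    ring

theorem congr (p : Par) (t s v : ℕ) : ((4 * p.E : ℕ) : ℤ) ∣ p.cls - p.six t s v := by
  refine ⟨-((p.u * v + p.E * v ^ 2) + 35 * (p.b * s + p.E * s ^ 2) +
    13 * (2 * p.c * p.k ^ 2) * s + 26 * (2 * p.c * (p.k * t + p.E * t ^ 2)) * (p.b + 2 * p.E * s) +
    10 * (2 * p.c * p.k ^ 2) * (2 * p.c * (p.k * t + p.E * t ^ 2)) +
    20 * p.E * (2 * p.c * (p.k * t + p.E * t ^ 2)) ^ 2), ?_⟩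
  simp only [Par.cls, Par.six, Par.ll, Par.kk, Par.bb, Par.uu]
  push_cast
  ring

theorem bounds {p : Par} (hp : p.OK) {K S V L : ℕ}
    (hlS : 14 * (16 * p.E ^ 2 * K ^ 2) ≤ S) {t s v : ℕ} (ht : t < K) (hs : s < S)
    (hv1 : V ≤ v) (hv2 : v < V + L) :
    (2 * p.E * V) ^ 2 ≤ p.six t s v ∧ p.six t s v < (2 * p.E * V) ^ 2 +
      4 * p.E * (p.E * (2 * V * L + L ^ 2) + 36 * p.E * S ^ 2) := by
  have hE := hp.hE
  have hl : 14 * p.ll t ≤ S := le_trans (Nat.mul_le_mul_left _ (ll_le hp ht)) hlS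
  have hb : p.bb s ≤ 2 * p.E * S := by
    have h1 := hp.hb
    have h2 : 2 * p.E * (s + 1) ≤ 2 * p.E * S := Nat.mul_le_mul_left _ hs
    unfold Par.bb
    rw [mul_add] at h2
    omega
  have hu1 : 2 * p.E * V ≤ p.uu v := by
    have h2 : 2 * p.E * V ≤ 2 * p.E * v := Nat.mul_le_mul_left _ hv1
    unfold Par.uu
    omega
  have hu2 : p.uu v < 2 * p.E * (V + L) := by
    have h1 := hp.hu
    have h2 : 2 * p.E * (v + 1) ≤ 2 * p.E * (V + L) := Nat.mul_le_mul_left _ hv2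
    unfold Par.uu
    rw [mul_add] at h2
    omega
  constructor
  · calc (2 * p.E * V) ^ 2 ≤ p.uu v ^ 2 := Nat.pow_le_pow_left hu1 2
      _ ≤ p.six t s v := by unfold Par.six; omega
  · have h1 : p.uu v ^ 2 < (2 * p.E * (V + L)) ^ 2 := Nat.pow_lt_pow_left hu2 (by norm_num)
    have h2 : 35 * p.bb s ^ 2 ≤ 35 * (2 * p.E * S) ^ 2 := by gcongr
    have h3 : 7 * (26 * p.ll t * p.bb s) ≤ 26 * p.E ^ 2 * S ^ 2 := by
      calc 7 * (26 * p.ll t * p.bb s) = 13 * (14 * p.ll t) * p.bb s := by ring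
        _ ≤ 13 * S * (2 * p.E * S) := by gcongr
        _ = 26 * p.E * S ^ 2 := by ring
        _ ≤ 26 * p.E ^ 2 * S ^ 2 := by
          have : p.E ≤ p.E ^ 2 := by nlinarith
          gcongr
    have h4 : 196 * (5 * p.ll t ^ 2) ≤ 5 * p.E ^ 2 * S ^ 2 := by
      calc 196 * (5 * p.ll t ^ 2) = 5 * (14 * p.ll t) ^ 2 := by ring
        _ ≤ 5 * S ^ 2 := by gcongr
        _ ≤ 5 * p.E ^ 2 * S ^ 2 := by
          have : 1 ≤ p.E ^ 2 := Nat.one_le_pow _ _ hE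
          nlinarith [Nat.zero_le (S ^ 2)]
    have h5 : (2 * p.E * V) ^ 2 + 4 * p.E * (p.E * (2 * V * L + L ^ 2) + 36 * p.E * S ^ 2) =
        (2 * p.E * (V + L)) ^ 2 + 144 * (p.E ^ 2 * S ^ 2) := by ring
    have h6 : 35 * (2 * p.E * S) ^ 2 = 140 * (p.E ^ 2 * S ^ 2) := by ring
    have h7 : 26 * p.E ^ 2 * S ^ 2 = 26 * (p.E ^ 2 * S ^ 2) := by ring
    have h8 : 5 * p.E ^ 2 * S ^ 2 = 5 * (p.E ^ 2 * S ^ 2) := by ring
    rw [h5]
    unfold Par.six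
    omega

/-- integers in one residue class in an interval -/
theorem card_class {q N R : ℕ} (hq : 0 < q) (c : ℤ) (J : Finset ℕ)
    (hJ : ∀ m ∈ J, N ≤ m ∧ m < N + q * R ∧ (q : ℤ) ∣ c - m) : J.card ≤ R := by
  rw [← Finset.card_range R]
  refine Finset.card_le_card_of_injOn (fun m => (m - N) / q) ?_ ?_
  · intro m hm
    obtain ⟨h1, h2, -⟩ := hJ m hm
    rw [Finset.coe_range, Set.mem_Iio]
    rw [Nat.div_lt_iff_lt_mul hq]
    rw [mul_comm]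
    omega
  · intro m hm m' hm' he
    obtain ⟨h1, h2, h3⟩ := hJ m hm
    obtain ⟨h1', h2', h3'⟩ := hJ m' hm'
    simp only at he
    have d1 := Nat.div_add_mod (m - N) q
    have d2 := Nat.div_add_mod (m' - N) q
    have m1 := Nat.mod_lt (m - N) hq
    have m2 := Nat.mod_lt (m' - N) hq
    rw [he] at d1
    have h4 : (q : ℤ) ∣ (m : ℤ) - m' := by
      have := dvd_sub h3' h3
      have e : (c - m') - (c - m) = (m : ℤ) - m' := by ring
      rwa [e] at this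
    have h5 : |(m : ℤ) - m'| < q := by
      rw [abs_lt]
      omega
    have h6 := Int.eq_zero_of_abs_lt_dvd h4 h5
    omega

theorem cs {α : Type} [DecidableEq α] (T : Finset α) (f : α → ℕ) :
    T.card ^ 2 ≤ (T.image f).card *
      ((T ×ˢ T).filter (fun w => f w.1 = f w.2)).card := by
  have h1 := Finset.card_eq_sum_card_image f T
  have h2 : ((T ×ˢ T).filter (fun w => f w.1 = f w.2)).card =
      ∑ b ∈ T.image f, (T.filter (fun a => f a = b)).card ^ 2 := by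
    rw [Finset.card_eq_sum_card_fiberwise (f := fun w : α × α => f w.1) (t := T.image f)]
    · refine Finset.sum_congr rfl fun b _ => ?_
      rw [sq, ← Finset.card_product]
      congr 1
      ext w
      simp only [Finset.mem_filter, Finset.mem_product]
      constructor
      · rintro ⟨⟨⟨h3, h4⟩, h5⟩, h6⟩
        exact ⟨⟨h3, h6⟩, h4, by rw [← h5, h6]⟩
      · rintro ⟨⟨h3, h4⟩, h5, h6⟩
        exact ⟨⟨⟨h3, h5⟩, by rw [h4, h6]⟩, h4⟩
    · intro w hw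
      have := (Finset.mem_filter.mp hw).1
      exact Finset.mem_image_of_mem f (Finset.mem_product.mp this).1
  rw [h2]
  conv_lhs => rw [h1]
  exact sq_sum_le_card_mul_sum_sq

end CountAux

open CountAux

theorem count {p : Par} (hp : p.OK) (h6 : (6 : ℤ) ∣ (p.u : ℤ) + p.b - 2 * p.c * p.k ^ 2)
    {K S V L : ℕ} (hK : 0 < K) (hS : 0 < S) (hL : 0 < L)
    (hlS : 14 * (16 * p.E ^ 2 * K ^ 2) ≤ S) {ε M : ℝ} (hε : 0 < ε) (hM : 2 * (p.E : ℝ) * K ≤ M)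
    (h : (p.S2 K S V L : ℝ) * ((p.E * (2 * V * L + L ^ 2) + 36 * p.E * S ^ 2 : ℕ) : ℝ) ≤
      (1 + ε) * ((K * S * L : ℕ) : ℝ) ^ 2) (B : Finset ℕ)
    (hB : ∀ n ∈ B, (2 * p.E * V) ^ 2 ≤ 6 * n ∧ 6 * n < (2 * p.E * (V + L)) ^ 2 ∧
      ((4 * p.E : ℕ) : ℤ) ∣ p.cls - 6 * n ∧ ¬ Rep p.c M n) :
    (B.card : ℝ) ≤ ε * ((p.E * (2 * V * L + L ^ 2) + 36 * p.E * S ^ 2 : ℕ) : ℝ) := by
  classical
  obtain ⟨R, hR⟩ : ∃ R : ℕ, R = p.E * (2 * V * L + L ^ 2) + 36 * p.E * S ^ 2 := ⟨_, rfl⟩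
  rw [← hR] at h ⊢
  obtain ⟨f, hf⟩ : ∃ f : ℕ × ℕ × ℕ → ℕ, f = fun w => p.six w.1 w.2.1 w.2.2 := ⟨_, rfl⟩
  obtain ⟨T, hT⟩ : ∃ T, T = TT K S V L := ⟨_, rfl⟩
  obtain ⟨I, hI⟩ : ∃ I, I = T.image f := ⟨_, rfl⟩
  have hmT : ∀ w ∈ T, w.1 < K ∧ w.2.1 < S ∧ V ≤ w.2.2 ∧ w.2.2 < V + L := by
    intro w hw
    rw [hT, Par.TT, Finset.mem_product, Finset.mem_product, Finset.mem_range, Finset.mem_range,
      Finset.mem_Ico] at hw
    exact ⟨hw.1, hw.2.1, hw.2.2.1, hw.2.2.2⟩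
  have hTc : T.card = K * S * L := by
    rw [hT, Par.TT, Finset.card_product, Finset.card_product, Finset.card_range, Finset.card_range,
      Nat.card_Ico, Nat.add_sub_cancel_left, mul_assoc]
  have hS2 : p.S2 K S V L = ((T ×ˢ T).filter (fun w => f w.1 = f w.2)).card := by
    rw [hT, hf]
    rfl
  have hcs := cs T f
  rw [← hI, ← hS2, hTc] at hcs
  have hcs' : ((K * S * L : ℕ) : ℝ) ^ 2 ≤ (I.card : ℝ) * (p.S2 K S V L : ℝ) := by
    exact_mod_cast hcs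
  have hpos : (0 : ℝ) < ((K * S * L : ℕ) : ℝ) ^ 2 := by positivity
  have hS2p : (0 : ℝ) < (p.S2 K S V L : ℝ) := by
    rcases (Nat.cast_nonneg (α := ℝ) (p.S2 K S V L)).eq_or_lt with h0 | h0
    · rw [← h0, mul_zero] at hcs'
      linarith
    · exact h0
  have hRI : (R : ℝ) ≤ (1 + ε) * I.card := by
    have h1 : (p.S2 K S V L : ℝ) * R ≤ (p.S2 K S V L : ℝ) * ((1 + ε) * I.card) := by
      calc (p.S2 K S V L : ℝ) * R ≤ (1 + ε) * ((K * S * L : ℕ) : ℝ) ^ 2 := h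
        _ ≤ (1 + ε) * ((I.card : ℝ) * (p.S2 K S V L : ℝ)) := by
          gcongr
        _ = _ := by ring
    exact le_of_mul_le_mul_left h1 hS2p
  have hdis : Disjoint I (B.image (fun n => 6 * n)) := by
    rw [Finset.disjoint_left]
    intro m hm hm'
    rw [hI] at hm
    obtain ⟨w, hw, rfl⟩ := Finset.mem_image.mp hm
    obtain ⟨n, hn, hn'⟩ := Finset.mem_image.mp hm'
    obtain ⟨n', h1, h2⟩ := rep hp h6 w.2.1 w.2.2 (hmT w hw).1 hM
    have h3 : n = n' := by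
      have : 6 * n = 6 * n' := by rw [← h1, hn', hf]
      omega
    rw [← h3] at h2
    exact (hB n hn).2.2.2 h2
  have hcard : I.card + B.card ≤ R := by
    have h1 : (B.image (fun n => 6 * n)).card = B.card :=
      Finset.card_image_of_injective _ fun a b hab => by
        have hab' : 6 * a = 6 * b := hab
        omega
    rw [← h1, ← Finset.card_union_of_disjoint hdis]
    refine card_class (q := 4 * p.E) (N := (2 * p.E * V) ^ 2) (by have := hp.hE; omega) p.cls _ ?_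
    intro m hm
    rcases Finset.mem_union.mp hm with hm | hm
    · rw [hI] at hm
      obtain ⟨w, hw, rfl⟩ := Finset.mem_image.mp hm
      obtain ⟨w1, w2, w3, w4⟩ := hmT w hw
      obtain ⟨h2, h3⟩ := bounds hp hlS w1 w2 w3 w4
      rw [hf, hR]
      exact ⟨h2, h3, congr p _ _ _⟩
    · obtain ⟨n, hn, rfl⟩ := Finset.mem_image.mp hm
      obtain ⟨h2, h3, h4, -⟩ := hB n hn
      refine ⟨h2, lt_of_lt_of_le h3 ?_, ?_⟩
      · rw [hR]
        have h5 : (2 * p.E * V) ^ 2 + 4 * p.E * (p.E * (2 * V * L + L ^ 2) + 36 * p.E * S ^ 2) =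
          (2 * p.E * (V + L)) ^ 2 + 144 * (p.E ^ 2 * S ^ 2) := by ring
        rw [h5]
        exact Nat.le_add_right _ _
      · push_cast
        push_cast at h4
        exact h4
  have hcard' : (I.card : ℝ) + B.card ≤ R := by exact_mod_cast hcard
  have hIR : (I.card : ℝ) ≤ R := by
    have := Nat.cast_nonneg (α := ℝ) B.card
    linarith
  have := mul_le_mul_of_nonneg_left hIR hε.le
  linarith

end Pool.Agent.Lib.TSq
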