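import Mathlib

/-!
Library TSq (MP_1f2014_nt): `n = x² + y² + z²` with `x + 3y + 5z = 2ck²`. Definitions.

With `x = l + a + 2b`, `y = b - 2a`, `z = a - b`, `u = 6a - b + l` one has `x + 3y + 5z = l` and
`6(x² + y² + z²) = u² + 35b² + 26lb + 5l²`.  We count the triples `(t, s, v)` with
`k = k₀ + 2Et`, `b = b₀ + 2Es`, `u = u₀ + 2Ev`.
-/

open Finset

namespace Pool.Agent.Lib.TSq

/-- the parameters `c`, `E`, `b₀`, `k₀`, `u₀` -/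
structure Par where
  c : ℕ
  E : ℕ
  b : ℕ
  k : ℕ
  u : ℕ

/-- the standing assumptions -/
structure Par.OK (p : Par) : Prop where
  c12 : p.c = 1 ∨ p.c = 2
  hE : 0 < p.E
  h210 : 210 ∣ p.E
  hb : p.b < 2 * p.E
  hk : p.k < 2 * p.E
  hu : p.u < 2 * p.E
  cop : Nat.Coprime (35 * p.b + 13 * (2 * p.c * p.k ^ 2)) (2 * p.E)

namespace Par

/-- `k(t) = k₀ + 2Et` -/
def kk (p : Par) (t : ℕ) : ℕ := p.k + 2 * p.E * t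

/-- `l(t) = 2c k(t)²` -/
def ll (p : Par) (t : ℕ) : ℕ := 2 * p.c * p.kk t ^ 2

/-- `b(s) = b₀ + 2Es` -/
def bb (p : Par) (s : ℕ) : ℕ := p.b + 2 * p.E * s

/-- `u(v) = u₀ + 2Ev` -/
def uu (p : Par) (v : ℕ) : ℕ := p.u + 2 * p.E * v

/-- `6n` for the triple `(t, s, v)` -/
def six (p : Par) (t s v : ℕ) : ℕ :=
  p.uu v ^ 2 + 35 * p.bb s ^ 2 + 26 * p.ll t * p.bb s + 5 * p.ll t ^ 2

/-- the quadratic polynomial `Φ = (B(b₂,l₂) - B(b₁,l₁))/(4E)` -/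
def Ph (p : Par) (t₁ t₂ s₁ s₂ : ℕ) : ℤ :=
  ((s₂ : ℤ) - s₁) * (35 * (p.b + p.E * ((s₁ : ℤ) + s₂)) + 13 * p.ll t₂) +
    p.c * ((t₂ : ℤ) - t₁) * (2 * p.k + 2 * p.E * ((t₁ : ℤ) + t₂)) *
      (26 * p.bb s₁ + 5 * ((p.ll t₁ : ℤ) + p.ll t₂))

/-- `k(t₂)⁴ - k(t₁)⁴` -/
def hh (p : Par) (t₁ t₂ : ℕ) : ℤ := (p.kk t₂ : ℤ) ^ 4 - (p.kk t₁ : ℤ) ^ 4

/-- the number of divisors `g` of `d` coprime to `2E` which divide `k(t₂)⁴ - k(t₁)⁴` -/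
def tau (p : Par) (t₁ t₂ d : ℕ) : ℕ :=
  (d.divisors.filter (fun g => Nat.Coprime g (2 * p.E) ∧ (g : ℤ) ∣ p.hh t₁ t₂)).card

/-- `Σ 1/g` over the divisors `g` of `k(t₂)⁴ - k(t₁)⁴` coprime to `2E` -/
noncomputable def AA (p : Par) (t₁ t₂ : ℕ) : ℝ :=
  ∑ g ∈ ((p.hh t₁ t₂).natAbs.divisors.filter (fun g => Nat.Coprime g (2 * p.E))), (1 : ℝ) / g

/-- the pairs `(s₁, s₂)` with `σ Φ = d (u₀ + 2E v + E d)`, `V ≤ v + d/2 < V + L` -/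
def Nset (p : Par) (t₁ t₂ S V L d : ℕ) (σ : ℤ) : Finset (ℕ × ℕ) :=
  (range S ×ˢ range S).filter (fun z =>
    ((2 * p.E * d : ℕ) : ℤ) ∣ σ * p.Ph t₁ t₂ z.1 z.2 - d * ((p.u : ℤ) + p.E * d) ∧
    2 * (p.E : ℤ) * V * d ≤ σ * p.Ph t₁ t₂ z.1 z.2 ∧
    σ * p.Ph t₁ t₂ z.1 z.2 < 2 * (p.E : ℤ) * (V + L) * d)

/-- the set of triples `(t, s, v)` -/
def TT (K S V L : ℕ) : Finset (ℕ × ℕ × ℕ) := range K ×ˢ range S ×ˢ Ico V (V + L)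

/-- the number of pairs of triples with the same value -/
def S2 (p : Par) (K S V L : ℕ) : ℕ :=
  ((TT K S V L ×ˢ TT K S V L).filter (fun w =>
    p.six w.1.1 w.1.2.1 w.1.2.2 = p.six w.2.1 w.2.2.1 w.2.2.2)).card

end Par

/-- `n = x² + y² + z²` with `x + 3y + 5z = 2ck²`, `0 ≤ k ≤ M` -/
def Rep (c : ℕ) (M : ℝ) (n : ℕ) : Prop :=
  ∃ (x y z : ℤ) (k : ℕ), (k : ℝ) ≤ M ∧ (n : ℤ) = x ^ 2 + y ^ 2 + z ^ 2 ∧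
    x + 3 * y + 5 * z = 2 * c * (k : ℤ) ^ 2

theorem Rep.mono {c : ℕ} {M M' : ℝ} {n : ℕ} (h : Rep c M n) (hM : M ≤ M') : Rep c M' n := by
  obtain ⟨x, y, z, k, h1, h2, h3⟩ := h
  exact ⟨x, y, z, k, h1.trans hM, h2, h3⟩

open Par

theorem Ph_eq (p : Par) (t₁ t₂ s₁ s₂ : ℕ) :
    (35 * (p.bb s₂ : ℤ) ^ 2 + 26 * p.ll t₂ * p.bb s₂ + 5 * (p.ll t₂ : ℤ) ^ 2) -
      (35 * (p.bb s₁ : ℤ) ^ 2 + 26 * p.ll t₁ * p.bb s₁ + 5 * (p.ll t₁ : ℤ) ^ 2) =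
      4 * p.E * p.Ph t₁ t₂ s₁ s₂ := by
  simp only [Ph, ll, kk, bb]
  push_cast
  ring

theorem uu_eq (p : Par) (v₁ v₂ : ℕ) :
    (p.uu v₁ : ℤ) ^ 2 - (p.uu v₂ : ℤ) ^ 2 =
      4 * p.E * (((v₁ : ℤ) - v₂) * (p.u + p.E * ((v₁ : ℤ) + v₂))) := by
  simp only [uu]
  push_cast
  ring

/-- `35·4E·Φ = T₂² - T₁² + 24c²(k₂⁴ - k₁⁴)`, `T = 35b + 13l` -/
theorem Ph_T (p : Par) (t₁ t₂ s₁ s₂ : ℕ) :
    140 * (p.E : ℤ) * p.Ph t₁ t₂ s₁ s₂ =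
      ((35 * (p.bb s₂ : ℤ) + 13 * p.ll t₂) - (35 * (p.bb s₁ : ℤ) + 13 * p.ll t₁)) *
      ((35 * (p.bb s₂ : ℤ) + 13 * p.ll t₂) + (35 * (p.bb s₁ : ℤ) + 13 * p.ll t₁)) +
      24 * (p.c : ℤ) ^ 2 * p.hh t₁ t₂ := by
  simp only [Ph, ll, kk, bb, hh]
  push_cast
  ring

theorem six_eq_iff (p : Par) (hE : 0 < p.E) (t₁ s₁ v₁ t₂ s₂ v₂ : ℕ) :
    p.six t₁ s₁ v₁ = p.six t₂ s₂ v₂ ↔
      ((v₁ : ℤ) - v₂) * (p.u + p.E * ((v₁ : ℤ) + v₂)) = p.Ph t₁ t₂ s₁ s₂ := by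
  have hE' : (p.E : ℤ) ≠ 0 := by exact_mod_cast hE.ne'
  have h1 := Ph_eq p t₁ t₂ s₁ s₂
  have h2 := uu_eq p v₁ v₂
  rw [← Nat.cast_inj (R := ℤ)]
  simp only [six]
  push_cast
  constructor
  · intro h
    have h3 : 4 * (p.E : ℤ) * (((v₁ : ℤ) - v₂) * (p.u + p.E * ((v₁ : ℤ) + v₂))) =
        4 * p.E * p.Ph t₁ t₂ s₁ s₂ := by linarith
    have h4 : (4 * (p.E : ℤ)) ≠ 0 := mul_ne_zero (by norm_num) hE'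
    exact mul_left_cancel₀ h4 h3
  · intro h
    have h3 : 4 * (p.E : ℤ) * (((v₁ : ℤ) - v₂) * (p.u + p.E * ((v₁ : ℤ) + v₂))) =
        4 * p.E * p.Ph t₁ t₂ s₁ s₂ := by rw [h]
    linarith

end Pool.Agent.Lib.TSq
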