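import Pool.Agent.Lib.TSq.Window

/-!
TSq.Dens (about 1.2 h). Density zero. Imports are black boxes (`window`).

PROOF. Take `m, Q, y₀, C₀` from `window` for `δ`, `ε/13` (`C₀` is the `C` of the statement). Let `g(x)` be the number of `n` with `n % 4 = 2`,
`¬ Rep c (C₀ (log n)^(1+δ)) n`, `6n < x²` (`n < x²`). Claim: there is a `C` with `g(x) ≤ (ε/13) x² + C` for all `x`. Let `X = (m+1) Q (max y₀ (2(m+1)) + 1)`,
`C = g(X)`; for `x ≤ X` clear (`g` is monotone). For `x > X` use strong induction: let `y` be the least number with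
`x ≤ (m+1)Qy`, i.e. `(m+1)Q(y-1) < x`; then `y ≥ y₀`, `y ≥ 2(m+1)`, and `mQy < x` (as `m y ≤ (m+1)(y-1)` for `y ≥ m+1`). By `window`
`g(x) ≤ g((m+1)Qy) ≤ g(mQy) + (ε/13) m Q² y²` and by induction `g(mQy) ≤ (ε/13) m² Q² y² + C`. So it is enough that
`m² y² + m y² ≤ (m+1)² (y-1)²`: indeed `(m+1)²(y-1)² ≥ (m+1)²(y² - 2y) = (m² + 2m + 1) y² - 2(m+1)² y ≥ (m² + m) y²` because
`(m+1) y² ≥ 2 (m+1)² y`.
Finally for `N`: all `n ≤ N` have `6n ≤ 6N < x²` with `x = sqrt(6N) + 1`, `x² ≤ 12N + 2·...`: `x² ≤ 2·6N + 2 = 12N + 2`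
(`(s+1)² ≤ 2s² + 2`), so the number is `≤ (ε/13)(12N + 2) + C ≤ εN + C'`.
-/

open Finset

namespace Pool.Agent.Lib.TSq

theorem dens {δ ε : ℝ} (hδ : 0 < δ) (hε : 0 < ε) {c : ℕ} (hc : c = 1 ∨ c = 2) :
    ∃ C C' : ℝ, ∀ N : ℕ, ∀ B : Finset ℕ,
      (∀ n ∈ B, n % 4 = 2 ∧ ¬ Rep c (C * (Real.log n) ^ (1 + δ)) n ∧ n ≤ N) →
      (B.card : ℝ) ≤ ε * N + C' := by
  classical
  obtain ⟨m, Q, y₀, C₀, hm, hQ, hw⟩ := window hδ (show 0 < ε / 13 by positivity)
  let P : ℕ → Prop := fun n => n % 4 = 2 ∧ ¬ Rep c (C₀ * (Real.log n) ^ (1 + δ)) n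
  let F : ℕ → Finset ℕ := fun x => (range (x ^ 2)).filter fun n => P n ∧ 6 * n < x ^ 2
  have hF : ∀ x n, n ∈ F x ↔ P n ∧ 6 * n < x ^ 2 := by
    intro x n
    simp only [F, mem_filter, mem_range]
    constructor
    · exact fun h => h.2
    · intro h
      exact ⟨by omega, h⟩
  have hmono : ∀ x x', x ≤ x' → (F x).card ≤ (F x').card := by
    intro x x' h
    refine card_le_card fun n hn => ?_
    rw [hF] at hn ⊢
    exact ⟨hn.1, hn.2.trans_le (Nat.pow_le_pow_left h 2)⟩
  set A := (m + 1) * Q with hA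
  have hA0 : 0 < A := by positivity
  set X := A * (max y₀ (2 * (m + 1)) + 1) with hX
  have hη : 0 < ε / 13 := by positivity
  have key : ∀ x, ((F x).card : ℝ) ≤ ε / 13 * (x : ℝ) ^ 2 + (F X).card := by
    intro x
    induction x using Nat.strong_induction_on with
    | _ x ih =>
      rcases le_or_gt x X with hx | hx
      · have h1 : ((F x).card : ℝ) ≤ (F X).card := by exact_mod_cast hmono x X hx
        have h2 : 0 ≤ ε / 13 * (x : ℝ) ^ 2 := by positivity
        linarith
      · set w := (x - 1) / A with hwd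
        have h1 : w * A ≤ x - 1 := Nat.div_mul_le_self _ _
        have h2 : x - 1 < (w + 1) * A := by
          have h' := (Nat.div_lt_iff_lt_mul hA0).1 (Nat.lt_succ_self ((x - 1) / A))
          exact h'
        have h3 : max y₀ (2 * (m + 1)) + 1 ≤ w := by
          rw [hwd, Nat.le_div_iff_mul_le hA0]
          have : (max y₀ (2 * (m + 1)) + 1) * A = X := by rw [hX]; ring
          omega
        have h4 : y₀ ≤ w + 1 := by
          have := le_max_left y₀ (2 * (m + 1))
          omega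
        have h5 : 2 * (m + 1) ≤ w := by
          have := le_max_right y₀ (2 * (m + 1))
          omega
        have h6 : m * Q * (w + 1) < x := by
          have h7 : m * (w + 1) ≤ (m + 1) * w := by nlinarith
          have h8 : m * Q * (w + 1) ≤ w * A := by
            calc m * Q * (w + 1) = m * (w + 1) * Q := by ring
              _ ≤ (m + 1) * w * Q := Nat.mul_le_mul_right _ h7
              _ = w * A := by rw [hA]; ring
          omega
        have hih := ih _ h6
        have hB := hw (w + 1) h4 c hc ((F x).filter fun n => (m * Q * (w + 1)) ^ 2 ≤ 6 * n) (by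
          intro n hn
          rw [mem_filter, hF] at hn
          refine ⟨hn.1.1.1, hn.1.1.2, hn.2, hn.1.2.trans_le (Nat.pow_le_pow_left ?_ 2)⟩
          have : A * (w + 1) = (w + 1) * A := mul_comm _ _
          omega)
        have hsub : F x ⊆ F (m * Q * (w + 1)) ∪
            (F x).filter fun n => (m * Q * (w + 1)) ^ 2 ≤ 6 * n := by
          intro n hn
          by_cases h : (m * Q * (w + 1)) ^ 2 ≤ 6 * n
          · exact mem_union.2 (Or.inr (mem_filter.2 ⟨hn, h⟩))
          · exact mem_union.2 (Or.inl ((hF _ _).2 ⟨((hF _ _).1 hn).1, not_le.1 h⟩))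
        have hcard : ((F x).card : ℝ) ≤ (F (m * Q * (w + 1))).card +
            ((F x).filter fun n => (m * Q * (w + 1)) ^ 2 ≤ 6 * n).card := by
          exact_mod_cast (card_le_card hsub).trans (card_union_le _ _)
        have hxw : ((m + 1 : ℕ) : ℝ) * Q * w ≤ x := by
          have : (m + 1) * Q * w ≤ x := by
            have h9 : (m + 1) * Q * w = w * A := by rw [hA]; ring
            omega
          exact_mod_cast this
        have hfin : ((m : ℝ) * Q * (w + 1)) ^ 2 + m * (Q * (w + 1)) ^ 2 ≤ (x : ℝ) ^ 2 := by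
          have h10 : (((m + 1 : ℕ) : ℝ) * Q * w) ^ 2 ≤ (x : ℝ) ^ 2 :=
            pow_le_pow_left₀ (by positivity) hxw 2
          refine le_trans ?_ h10
          have hw5 : (2 : ℝ) * (m + 1) ≤ w := by exact_mod_cast h5
          have hm0 : (0 : ℝ) ≤ m := by positivity
          have e1 : ((m : ℝ) * Q * (w + 1)) ^ 2 + m * (Q * (w + 1)) ^ 2
              = (m + 1) * Q ^ 2 * (m * (w + 1) ^ 2) := by ring
          have e2 : (((m + 1 : ℕ) : ℝ) * Q * w) ^ 2 = (m + 1) * Q ^ 2 * ((m + 1) * w ^ 2) := by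
            push_cast
            ring
          rw [e1, e2]
          refine mul_le_mul_of_nonneg_left ?_ (by positivity)
          have hw0 : (0 : ℝ) ≤ w := by positivity
          nlinarith [mul_le_mul_of_nonneg_right hw5 hw0]
        have hih' : ((F (m * Q * (w + 1))).card : ℝ) ≤
            ε / 13 * ((m : ℝ) * Q * (w + 1)) ^ 2 + (F X).card := by
          refine hih.trans (le_of_eq ?_)
          push_cast
          ring
        have hB' : (((F x).filter fun n => (m * Q * (w + 1)) ^ 2 ≤ 6 * n).card : ℝ) ≤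
            ε / 13 * (m * (Q * (w + 1)) ^ 2) := by
          refine hB.trans (le_of_eq ?_)
          push_cast
          ring
        have := mul_le_mul_of_nonneg_left hfin hη.le
        linarith
  refine ⟨C₀, 2 * ε / 13 + (F X).card, fun N B hB => ?_⟩
  set s := Nat.sqrt (6 * N) with hs
  have h1 : s ^ 2 ≤ 6 * N := Nat.sqrt_le' _
  have h2 : 6 * N < (s + 1) ^ 2 := Nat.lt_succ_sqrt' _
  have hsub : B ⊆ F (s + 1) := by
    intro n hn
    obtain ⟨h3, h4, h5⟩ := hB n hn
    rw [hF]
    exact ⟨⟨h3, h4⟩, by omega⟩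
  have hc1 : (B.card : ℝ) ≤ (F (s + 1)).card := by exact_mod_cast card_le_card hsub
  have hk := key (s + 1)
  have h3 : ((s + 1 : ℕ) : ℝ) ^ 2 ≤ 12 * N + 2 := by
    have h4 : (s + 1) ^ 2 ≤ 12 * N + 2 := by
      zify at h1 ⊢
      nlinarith [sq_nonneg ((s : ℤ) - 1)]
    exact_mod_cast h4
  have h4 := mul_le_mul_of_nonneg_left h3 hη.le
  have hN : (0 : ℝ) ≤ N := by positivity
  have h5 : 0 ≤ ε * N := by positivity
  have h6 : ε / 13 * (12 * (N : ℝ) + 2) ≤ ε * N + 2 * ε / 13 := by
    have : ε / 13 * (12 * (N : ℝ) + 2) = 12 / 13 * (ε * N) + 2 * ε / 13 := by ring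
    rw [this]
    linarith
  linarith

end Pool.Agent.Lib.TSq
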