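import Mathlib

/-!
TSq.HSum (about 1.5 h, Mathlib only). Harmonic sums over short intervals and a double sum.

PROOF of `hsum`. `F ⊆ Icc ⌈A⌉₊ ⌊(1+θ)A⌋₊`, so `#F ≤ θA + 1`; every term is `≤ 1/A`: the sum is `≤ (θA+1)/A = θ + 1/A`. Second
bound: if `A ≥ 1` it follows from the first; if `A < 1` every `n ∈ F` has `n ≤ (1+θ)A < 2`, so `F ⊆ {1}` and the sum is
`≤ 1`.

PROOF of `sumD`. Write `#{g ∈ G : g ∣ d} = ∑_{g ∈ G} [g ∣ d]` and `#{z ∈ Z : ...} = ∑_{z ∈ Z} [...]`; exchange the sums: the left side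
is `∑_{z ∈ Z} ∑_{g ∈ G} ∑_{d ≤ D, g ∣ d} (1/d) [A d ≤ F z ≤ B d]`. For fixed `z, g` put `d = g n`: the inner sum is
`(1/g) ∑_{n} 1/n` over the `n ≥ 1` with `gn ≤ D`, `A g n ≤ F z ≤ B g n`, i.e. `A₀ ≤ n ≤ (B/A) A₀ ≤ (1+θ) A₀`,
`A₀ = F z/(B g)`. If `F z = 0` there is no such `n` (`A > 0`): the sum is `0`. If `0 < F z < Φ₀`: it is `≤ (1+θ)/g`
(`hsum`, second bound). If `F z ≥ Φ₀`: it is `≤ (θ + B g/F z)/g ≤ θ/g + B/Φ₀` (`hsum`, first bound). Sum over `g` and `z`.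
-/

open Finset

namespace Pool.Agent.Lib.TSq

theorem hsum {F : Finset ℕ} {A θ : ℝ} (hA : 0 < A) (h0 : 0 ≤ θ) (h1 : θ < 1)
    (hF : ∀ n ∈ F, 1 ≤ n ∧ A ≤ n ∧ (n : ℝ) ≤ (1 + θ) * A) :
    ∑ n ∈ F, (1 : ℝ) / n ≤ θ + 1 / A ∧ ∑ n ∈ F, (1 : ℝ) / n ≤ 1 + θ := by
  have key : ∑ n ∈ F, (1 : ℝ) / n ≤ θ + 1 / A := by
    have hsub : F ⊆ Icc ⌈A⌉₊ ⌊(1 + θ) * A⌋₊ := by
      intro n hn
      obtain ⟨_, h2, h3⟩ := hF n hn
      rw [mem_Icc]
      exact ⟨Nat.ceil_le.2 h2, Nat.le_floor h3⟩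
    have hcard : (F.card : ℝ) ≤ θ * A + 1 := by
      rcases F.eq_empty_or_nonempty with rfl | hne
      · simp
        positivity
      obtain ⟨n₀, hn₀⟩ := hne
      have hle : ⌈A⌉₊ ≤ ⌊(1 + θ) * A⌋₊ := by
        have := hsub hn₀
        rw [mem_Icc] at this
        omega
      have h2 : F.card ≤ ⌊(1 + θ) * A⌋₊ + 1 - ⌈A⌉₊ := by
        have := card_le_card hsub
        rwa [Nat.card_Icc] at this
      have h3 : (F.card : ℝ) ≤ (⌊(1 + θ) * A⌋₊ : ℝ) + 1 - (⌈A⌉₊ : ℝ) := by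
        have h4 : F.card + ⌈A⌉₊ ≤ ⌊(1 + θ) * A⌋₊ + 1 := by omega
        have h5 : ((F.card + ⌈A⌉₊ : ℕ) : ℝ) ≤ ((⌊(1 + θ) * A⌋₊ + 1 : ℕ) : ℝ) := by
          exact_mod_cast h4
        push_cast at h5
        linarith
      have h6 : (⌊(1 + θ) * A⌋₊ : ℝ) ≤ (1 + θ) * A := Nat.floor_le (by positivity)
      have h7 : A ≤ (⌈A⌉₊ : ℝ) := Nat.le_ceil A
      linarith
    calc ∑ n ∈ F, (1 : ℝ) / n ≤ ∑ n ∈ F, 1 / A := by
          apply sum_le_sum
          intro n hn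
          obtain ⟨_, h2, _⟩ := hF n hn
          exact one_div_le_one_div_of_le hA h2
      _ = F.card * (1 / A) := by rw [sum_const, nsmul_eq_mul]
      _ ≤ (θ * A + 1) * (1 / A) := by gcongr
      _ = θ + 1 / A := by field_simp
  refine ⟨key, ?_⟩
  rcases le_or_gt 1 A with hA1 | hA1
  · have : 1 / A ≤ 1 := by
      rw [div_le_one hA]; exact hA1
    linarith
  · have hsub : F ⊆ {1} := by
      intro n hn
      obtain ⟨h2, _, h3⟩ := hF n hn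
      have h4 : (n : ℝ) < 2 := by nlinarith
      have h5 : n < 2 := by exact_mod_cast h4
      rw [mem_singleton]
      omega
    calc ∑ n ∈ F, (1 : ℝ) / n ≤ ∑ n ∈ ({1} : Finset ℕ), (1 : ℝ) / n :=
          sum_le_sum_of_subset_of_nonneg hsub (fun _ _ _ => by positivity)
      _ = 1 := by simp
      _ ≤ 1 + θ := by linarith

namespace HSumAux

/-- the inner sum over the multiples of `g` -/
theorem inner {A B θ Φ₀ : ℝ} (hA : 0 < A) (hAB : A ≤ B) (hB : B ≤ (1 + θ) * A) (h0 : 0 ≤ θ)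
    (h1 : θ < 1) (hΦ : 0 < Φ₀) (D : ℕ) {g : ℕ} (hg : 0 < g) (f : ℕ) :
    ∑ d ∈ (Icc 1 D).filter (fun d => g ∣ d ∧ A * d ≤ f ∧ (f : ℝ) ≤ B * d), (1 : ℝ) / d ≤
      (if (f : ℝ) < Φ₀ then (1 + θ) / g else 0) + (θ / g + B / Φ₀) := by
  have hgR : (0 : ℝ) < g := by exact_mod_cast hg
  have hB0 : 0 < B := lt_of_lt_of_le hA hAB
  set T := (Icc 1 D).filter (fun d => g ∣ d ∧ A * d ≤ f ∧ (f : ℝ) ≤ B * d) with hT
  have hnn : 0 ≤ θ / g + B / Φ₀ := by positivity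
  rcases Nat.eq_zero_or_pos f with rfl | hf
  · have : T = ∅ := by
      rw [hT, filter_eq_empty_iff]
      intro d hd
      rw [mem_Icc] at hd
      rintro ⟨_, h2, _⟩
      have hd1 : (1 : ℝ) ≤ d := by exact_mod_cast hd.1
      have : 0 < A * d := by positivity
      simp at h2
      linarith
    rw [this]
    simp only [sum_empty]
    have : 0 ≤ (if ((0 : ℕ) : ℝ) < Φ₀ then (1 + θ) / (g : ℝ) else 0) := by
      split_ifs <;> positivity
    linarith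
  have hfR : (0 : ℝ) < f := by exact_mod_cast hf
  -- the quotients
  have himg : ∑ d ∈ T, (1 : ℝ) / d = 1 / g * ∑ n ∈ T.image (fun d => d / g), (1 : ℝ) / n := by
    rw [sum_image, mul_sum]
    · apply sum_congr rfl
      intro d hd
      rw [hT, mem_filter] at hd
      obtain ⟨n, rfl⟩ := hd.2.1
      rw [Nat.mul_div_cancel_left n hg]
      push_cast
      rw [one_div_mul_one_div]
    · intro a ha b hb hab
      simp only [hT, coe_filter, Set.mem_setOf_eq] at ha hb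
      obtain ⟨n, rfl⟩ := ha.2.1
      obtain ⟨m, rfl⟩ := hb.2.1
      simp only [Nat.mul_div_cancel_left _ hg] at hab
      rw [hab]
  have hA0 : 0 < (f : ℝ) / (B * g) := by positivity
  have hmem : ∀ n ∈ T.image (fun d => d / g), 1 ≤ n ∧ (f : ℝ) / (B * g) ≤ n ∧
      (n : ℝ) ≤ (1 + θ) * ((f : ℝ) / (B * g)) := by
    intro n hn
    rw [mem_image] at hn
    obtain ⟨d, hd, rfl⟩ := hn
    rw [hT, mem_filter, mem_Icc] at hd
    obtain ⟨hd1, ⟨n, rfl⟩, h3, h4⟩ := hd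
    rw [Nat.mul_div_cancel_left n hg]
    push_cast at h3 h4
    have hn1 : 1 ≤ n := by
      rcases Nat.eq_zero_or_pos n with rfl | h
      · simp at hd1
      · exact h
    refine ⟨hn1, ?_, ?_⟩
    · rw [div_le_iff₀ (by positivity)]
      linarith
    · have h5 : (n : ℝ) * (A * g) ≤ f := by linarith
      have h6 : (1 + θ) * ((f : ℝ) / (B * g)) = ((1 + θ) * f) / (B * g) := by ring
      rw [h6, le_div_iff₀ (by positivity)]
      calc (n : ℝ) * (B * g) ≤ n * (((1 + θ) * A) * g) := by gcongr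
        _ = (1 + θ) * (n * (A * g)) := by ring
        _ ≤ (1 + θ) * f := by gcongr
  obtain ⟨hs1, hs2⟩ := hsum hA0 h0 h1 hmem
  rw [himg]
  split_ifs with hlt
  · calc 1 / (g : ℝ) * ∑ n ∈ T.image (fun d => d / g), (1 : ℝ) / n ≤ 1 / g * (1 + θ) := by gcongr
      _ = (1 + θ) / g := by ring
      _ ≤ (1 + θ) / g + (θ / g + B / Φ₀) := by linarith
  · push Not at hlt
    calc 1 / (g : ℝ) * ∑ n ∈ T.image (fun d => d / g), (1 : ℝ) / n ≤
          1 / g * (θ + 1 / ((f : ℝ) / (B * g))) := by gcongr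
      _ = θ / g + B / f := by field_simp
      _ ≤ θ / g + B / Φ₀ := by gcongr
      _ = 0 + (θ / g + B / Φ₀) := by ring

end HSumAux

theorem sumD {ι : Type*} (Z : Finset ι) (F : ι → ℕ) (G : Finset ℕ) (hG : ∀ g ∈ G, 0 < g)
    {A B θ Φ₀ : ℝ} (hA : 0 < A) (hAB : A ≤ B) (hB : B ≤ (1 + θ) * A) (h0 : 0 ≤ θ) (h1 : θ < 1)
    (hΦ : 0 < Φ₀) (D : ℕ) :
    ∑ d ∈ Icc 1 D, ((G.filter (fun g => g ∣ d)).card : ℝ) / d *
        ((Z.filter (fun z => A * d ≤ F z ∧ (F z : ℝ) ≤ B * d)).card : ℝ) ≤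
      (∑ g ∈ G, (1 : ℝ) / g) *
          (θ * Z.card + (1 + θ) * ((Z.filter (fun z => (F z : ℝ) < Φ₀)).card : ℝ)) +
        G.card * (B / Φ₀) * Z.card := by
  classical
  have hswap : ∑ d ∈ Icc 1 D, ((G.filter (fun g => g ∣ d)).card : ℝ) / d *
        ((Z.filter (fun z => A * d ≤ F z ∧ (F z : ℝ) ≤ B * d)).card : ℝ) =
      ∑ z ∈ Z, ∑ g ∈ G, ∑ d ∈ (Icc 1 D).filter
        (fun d => g ∣ d ∧ A * d ≤ F z ∧ (F z : ℝ) ≤ B * d), (1 : ℝ) / d := by
    have h2 : ∀ d ∈ Icc 1 D, ((G.filter (fun g => g ∣ d)).card : ℝ) / d *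
        ((Z.filter (fun z => A * d ≤ F z ∧ (F z : ℝ) ≤ B * d)).card : ℝ) =
        ∑ z ∈ Z, ∑ g ∈ G, if (g ∣ d ∧ A * d ≤ F z ∧ (F z : ℝ) ≤ B * d) then (1 : ℝ) / d else 0 := by
      intro d _
      rw [card_filter, card_filter]
      push_cast
      rw [sum_div, sum_mul_sum, sum_comm]
      apply sum_congr rfl
      intro z _
      apply sum_congr rfl
      intro g _
      by_cases hg : g ∣ d
      · by_cases hz : A * d ≤ F z ∧ (F z : ℝ) ≤ B * d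
        · simp [hg, hz]
        · simp [hg, hz]
      · simp [hg]
    rw [sum_congr rfl h2, sum_comm]
    apply sum_congr rfl
    intro z _
    rw [sum_comm]
    apply sum_congr rfl
    intro g _
    rw [sum_filter]
  rw [hswap]
  have hz : ∀ z ∈ Z, ∑ g ∈ G, ∑ d ∈ (Icc 1 D).filter
        (fun d => g ∣ d ∧ A * d ≤ F z ∧ (F z : ℝ) ≤ B * d), (1 : ℝ) / d ≤
      (∑ g ∈ G, (1 : ℝ) / g) * (θ + (1 + θ) * (if (F z : ℝ) < Φ₀ then (1 : ℝ) else 0)) +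
        G.card * (B / Φ₀) := by
    intro z _
    calc ∑ g ∈ G, ∑ d ∈ (Icc 1 D).filter
          (fun d => g ∣ d ∧ A * d ≤ F z ∧ (F z : ℝ) ≤ B * d), (1 : ℝ) / d
      _ ≤ ∑ g ∈ G, (1 / (g : ℝ) * (θ + (1 + θ) * (if (F z : ℝ) < Φ₀ then (1 : ℝ) else 0)) +
            B / Φ₀) := by
          apply sum_le_sum
          intro g hg
          refine (HSumAux.inner hA hAB hB h0 h1 hΦ D (hG g hg) (F z)).trans (le_of_eq ?_)
          split_ifs <;> ring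
      _ = _ := by
          rw [sum_add_distrib, ← sum_mul, sum_const, nsmul_eq_mul]
  refine (sum_le_sum hz).trans (le_of_eq ?_)
  rw [sum_add_distrib, ← mul_sum, sum_add_distrib, ← mul_sum, sum_const, sum_const,
    card_filter]
  push_cast
  rw [nsmul_eq_mul, nsmul_eq_mul]
  ring

end Pool.Agent.Lib.TSq
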