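import Pool.Agent.Lib.TSq.Count

/-!
TSq.LocSol (about 2 h). Local solvability. Imports are black boxes (only the definitions are used).

For integers `a, b, k` put `l = 2ck²`, `U = 6a - b + l`, `T = 35b + 13l`, `G = (l + a + 2b)² + (b - 2a)² + (a - b)²`; then
`6G = U² + 35b² + 26lb + 5l²` and `210 G = 35U² + T² + 6l²` (`ring`).
PROOF. (1) For every odd prime `P` there are `a, b, k` with `P ∣ G - n`, `P ∤ T`:
 `P = 3`: `k = 0` (`l = 0`), `b = 1`, `a = n`: `G ≡ ab = n`, `T ≡ 2b (mod 3)`.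
 `P = 5`: `k = 1`, `l = 2c ≢ 0`: `T ≡ 3l ≢ 0`, `6G ≡ G ≡ U² + lb (mod 5)`: `b = (n - 1)/l`, and `a` with `U = 1` (finite check over
   `n mod 5`, `c = 1, 2`: `decide`).
 `P = 7`: `k = 1`: `T ≡ -l ≢ 0`; `6G ≡ U² + 5lb + 5l² (mod 7)`: solve for `b` with `U = 1` (`decide`).
 `P ≥ 11`: choose `k = 0` or `k = 1` with `t := 210n - 6l² ≢ 0 (mod P)` (if both were `≡ 0` then `P ∣ 24c²`). There are `T, U` in
   `ZMod P` with `T² + 35U² = t` (`FiniteField.exists_root_sum_quadratic`, or `ZMod`-pigeonhole); if `T = 0` replace `(T,U)` by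
   `(-35U/18, -17U/18)` (`17² + 35 = 18²`), which has `T ≠ 0` (`U ≠ 0` as `t ≠ 0`). Put `b = (T - 13l)/35`, `a = (U + b - l)/6`.
 Modulo `8`: `k = 0`, `b = 1`, `a = 1` if `n ≡ 2`, `a = 0` if `n ≡ 6 (mod 8)`: `G = 6a² - 2ab + 6b² ≡ n (mod 8)`, `T = 35` odd.
(2) Chinese remainders, by induction on the finite set of the odd primes `≤ w`: there are integers `a, b, k` with
`8 ∣ G - n`, `T` odd, and `P ∣ G - n`, `P ∤ T` for all odd primes `P ≤ w` (all conditions only depend on `a, b, k` modulo `8`, `P`).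
With `8 ∏_{2 < P ≤ w} P = 4 primorial w`: `4 primorial(w) ∣ G - n`, so `4E = 24 primorial(w) ∣ 6G - 6n = cls - 6n` for `u = U`.
(3) Replace `b, k, U` by their residues modulo `2E = 12 primorial(w)`: `6 ∣ 2E` keeps `6 ∣ U + b - l` (`l` changes by a multiple of `2E`),
and `U² + 35b² + 26lb + 5l²` only changes by multiples of `4E` (see (2) of Count.lean). `T` keeps its residue modulo `2E`, and every
prime divisor of `2E` is `≤ w` (`w ≥ 7`), so `T` is coprime to `2E`. `210 ∣ E` because `210 ∣ primorial w` for `w ≥ 7`.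
-/

open Finset

namespace Pool.Agent.Lib.TSq

open Par

namespace LocSolAux

/-- `G(a,b,k)` in a ring -/
def GG {R : Type*} [CommRing R] (c a b k : R) : R :=
  (2 * c * k ^ 2 + a + 2 * b) ^ 2 + (b - 2 * a) ^ 2 + (a - b) ^ 2

/-- `T(b,k)` in a ring -/
def T0 {R : Type*} [CommRing R] (c b k : R) : R := 35 * b + 13 * (2 * c * k ^ 2)

theorem map_GG {R S : Type*} [CommRing R] [CommRing S] (e : R ≃+* S) (c a b k : R) :
    e (GG c a b k) = GG (e c) (e a) (e b) (e k) := by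
  simp [GG, map_add, map_mul, map_pow, map_sub, map_ofNat]

theorem map_T0 {R S : Type*} [CommRing R] [CommRing S] (e : R ≃+* S) (c b k : R) :
    e (T0 c b k) = T0 (e c) (e b) (e k) := by
  simp [T0, map_add, map_mul, map_pow, map_ofNat]

/-- solvability modulo `m` -/
def Sol (c n m : ℕ) : Prop :=
  ∃ a b k : ZMod m, GG (c : ZMod m) a b k = n ∧ IsUnit (T0 (c : ZMod m) b k)

theorem Sol.mul {c n m₁ m₂ : ℕ} (h : Nat.Coprime m₁ m₂) (h1 : Sol c n m₁) (h2 : Sol c n m₂) :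
    Sol c n (m₁ * m₂) := by
  obtain ⟨a₁, b₁, k₁, e₁, u₁⟩ := h1
  obtain ⟨a₂, b₂, k₂, e₂, u₂⟩ := h2
  let e := ZMod.chineseRemainder h
  refine ⟨e.symm (a₁, a₂), e.symm (b₁, b₂), e.symm (k₁, k₂), e.injective ?_, ?_⟩
  · rw [map_GG]
    simp only [RingEquiv.apply_symm_apply, map_natCast]
    exact Prod.ext (by simpa [GG] using e₁) (by simpa [GG] using e₂)
  · rw [← isUnit_map_iff e, map_T0]
    simp only [RingEquiv.apply_symm_apply, map_natCast]
    rw [Prod.isUnit_iff]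
    constructor
    · simpa [T0] using u₁
    · simpa [T0] using u₂

theorem sol_eight {c n : ℕ} (hn : n % 4 = 2) : Sol c n 8 := by
  have hu : IsUnit (T0 (c : ZMod 8) 1 0) := by
    refine IsUnit.of_mul_eq_one (3 : ZMod 8) ?_
    simp only [T0]
    ring_nf
    decide
  have h8 : (n : ZMod 8) = 2 ∨ (n : ZMod 8) = 6 := by
    have h1 : n % 8 = 2 ∨ n % 8 = 6 := by omega
    rcases h1 with h1 | h1
    · left
      rw [← ZMod.natCast_mod, h1]; rfl
    · right
      rw [← ZMod.natCast_mod, h1]; rfl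
  rcases h8 with h8 | h8
  · refine ⟨1, 1, 0, ?_, hu⟩
    rw [h8]
    simp only [GG]
    ring_nf
    decide
  · refine ⟨0, 1, 0, ?_, hu⟩
    rw [h8]
    simp only [GG]
    ring_nf

theorem sol_three {c n : ℕ} : Sol c n 3 := by
  refine ⟨n, 1, 0, ?_, ?_⟩
  · simp only [GG]
    generalize (n : ZMod 3) = x
    generalize (c : ZMod 3) = y
    revert x y
    decide
  · refine IsUnit.of_mul_eq_one (2 : ZMod 3) ?_
    simp only [T0]
    generalize (c : ZMod 3) = y
    revert y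
    decide

theorem sol_five {c n : ℕ} (hc : c = 1 ∨ c = 2) : Sol c n 5 := by
  have key : ∀ y : ZMod 5, (y = 1 ∨ y = 2) → ∀ x : ZMod 5, ∃ a b : ZMod 5,
      GG y a b 1 = x ∧ T0 y b 1 ≠ 0 := by
    simp only [GG, T0]
    decide
  have hy : (c : ZMod 5) = 1 ∨ (c : ZMod 5) = 2 := by
    rcases hc with rfl | rfl
    · left; simp
    · right; rfl
  obtain ⟨a, b, h1, h2⟩ := key _ hy n
  have : Fact (Nat.Prime 5) := ⟨by norm_num⟩
  exact ⟨a, b, 1, h1, isUnit_iff_ne_zero.2 h2⟩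

theorem sol_seven {c n : ℕ} (hc : c = 1 ∨ c = 2) : Sol c n 7 := by
  have key : ∀ y : ZMod 7, (y = 1 ∨ y = 2) → ∀ x : ZMod 7, ∃ a b : ZMod 7,
      GG y a b 1 = x ∧ T0 y b 1 ≠ 0 := by
    simp only [GG, T0]
    decide
  have hy : (c : ZMod 7) = 1 ∨ (c : ZMod 7) = 2 := by
    rcases hc with rfl | rfl
    · left; simp
    · right; rfl
  obtain ⟨a, b, h1, h2⟩ := key _ hy n
  have : Fact (Nat.Prime 7) := ⟨by norm_num⟩
  exact ⟨a, b, 1, h1, isUnit_iff_ne_zero.2 h2⟩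

theorem exists_TU {F : Type*} [Field F] [Fintype F] (hF : Fintype.card F % 2 = 1)
    (h35 : (35 : F) ≠ 0) (h18 : (18 : F) ≠ 0) {t : F} (ht : t ≠ 0) :
    ∃ T U : F, T ^ 2 + 35 * U ^ 2 = t ∧ T ≠ 0 := by
  obtain ⟨T, U, hTU⟩ : ∃ T U : F, T ^ 2 + 35 * U ^ 2 = t := by
    obtain ⟨T, U, h⟩ := FiniteField.exists_root_sum_quadratic
      (f := (Polynomial.X ^ 2 : Polynomial F))
      (g := (Polynomial.C 35 * Polynomial.X ^ 2 + Polynomial.C (0 : F) * Polynomial.X +
        Polynomial.C (-t) : Polynomial F))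
      (Polynomial.degree_X_pow 2) (Polynomial.degree_quadratic h35) hF
    refine ⟨T, U, ?_⟩
    simp only [Polynomial.eval_pow, Polynomial.eval_X, Polynomial.eval_add, Polynomial.eval_mul,
      Polynomial.eval_C] at h
    linear_combination h
  by_cases hT : T = 0
  · have hU : U ≠ 0 := by
      rintro rfl
      apply ht
      rw [← hTU, hT]; ring
    refine ⟨35 * U / 18, 17 * U / 18, ?_, ?_⟩
    · rw [← hTU, hT]
      field_simp
      ring
    · exact div_ne_zero (mul_ne_zero h35 hU) h18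
  · exact ⟨T, U, hTU, hT⟩

theorem sol_prime {c n P : ℕ} (hc : c = 1 ∨ c = 2) (hP : P.Prime) (h11 : 11 ≤ P) :
    Sol c n P := by
  have : Fact P.Prime := ⟨hP⟩
  have hne : ∀ m : ℕ, 0 < m → (∀ q : ℕ, q.Prime → q ∣ m → q < 11) → (m : ZMod P) ≠ 0 := by
    intro m hm hq h0
    rw [ZMod.natCast_eq_zero_iff] at h0
    exact absurd (hq P hP h0) (by omega)
  have hsm : ∀ m : ℕ, 0 < m → m < 11 → (m : ZMod P) ≠ 0 := by
    intro m hm hlt h0
    rw [ZMod.natCast_eq_zero_iff] at h0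
    exact absurd (Nat.le_of_dvd hm h0) (by omega)
  have h2 : (2 : ZMod P) ≠ 0 := by exact_mod_cast hsm 2 (by norm_num) (by norm_num)
  have h3 : (3 : ZMod P) ≠ 0 := by exact_mod_cast hsm 3 (by norm_num) (by norm_num)
  have h5 : (5 : ZMod P) ≠ 0 := by exact_mod_cast hsm 5 (by norm_num) (by norm_num)
  have h7 : (7 : ZMod P) ≠ 0 := by exact_mod_cast hsm 7 (by norm_num) (by norm_num)
  have h35 : (35 : ZMod P) ≠ 0 := by
    have : (35 : ZMod P) = 5 * 7 := by norm_num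
    rw [this]; exact mul_ne_zero h5 h7
  have h18 : (18 : ZMod P) ≠ 0 := by
    have : (18 : ZMod P) = 2 * 3 ^ 2 := by norm_num
    rw [this]; exact mul_ne_zero h2 (pow_ne_zero _ h3)
  have h6 : (6 : ZMod P) ≠ 0 := by
    have : (6 : ZMod P) = 2 * 3 := by norm_num
    rw [this]; exact mul_ne_zero h2 h3
  have h210 : (210 : ZMod P) ≠ 0 := by
    have : (210 : ZMod P) = 6 * 35 := by norm_num
    rw [this]; exact mul_ne_zero h6 h35
  have hcne : (c : ZMod P) ≠ 0 := by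
    rcases hc with rfl | rfl
    · simp
    · exact_mod_cast hsm 2 (by norm_num) (by norm_num)
  obtain ⟨k, hk⟩ : ∃ k : ZMod P, 210 * (n : ZMod P) - 6 * (2 * c * k ^ 2) ^ 2 ≠ 0 := by
    by_contra hcon
    push Not at hcon
    have e0 := hcon 0
    have e1 := hcon 1
    have e2 : (6 : ZMod P) * (2 * c) ^ 2 = 0 := by linear_combination e0 - e1
    exact mul_ne_zero h6 (pow_ne_zero _ (mul_ne_zero h2 hcne)) e2
  obtain ⟨T, U, hTU, hT⟩ := exists_TU (F := ZMod P) (by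
    rw [ZMod.card]
    rcases hP.eq_two_or_odd with h | h
    · omega
    · exact h) h35 h18 hk
  set l : ZMod P := 2 * c * k ^ 2 with hl
  refine ⟨(U + (T - 13 * l) / 35 - l) / 6, (T - 13 * l) / 35, k, ?_, ?_⟩
  · set b : ZMod P := (T - 13 * l) / 35 with hb
    set a : ZMod P := (U + b - l) / 6 with ha
    have hb' : 35 * b = T - 13 * l := by rw [hb]; field_simp
    have ha' : 6 * a = U + b - l := by rw [ha]; field_simp
    have e : (210 : ZMod P) * (GG (c : ZMod P) a b k - n) = 0 := by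
      have hU : U = 6 * a - b + l := by linear_combination -ha'
      have hT' : T = 35 * b + 13 * l := by linear_combination -hb'
      simp only [GG, ← hl]
      rw [hU, hT'] at hTU
      linear_combination hTU
    have := (mul_eq_zero.1 e).resolve_left h210
    exact sub_eq_zero.1 this
  · rw [isUnit_iff_ne_zero]
    have : T0 (c : ZMod P) ((T - 13 * l) / 35) k = T := by
      simp only [T0, ← hl]
      field_simp
      ring
    rw [this]
    exact hT

theorem sol_odd {c n P : ℕ} (hc : c = 1 ∨ c = 2) (hP : P.Prime) (h2 : P ≠ 2) : Sol c n P := by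
  by_cases h11 : 11 ≤ P
  · exact sol_prime hc hP h11
  push Not at h11
  interval_cases P
  all_goals first
    | exact absurd rfl h2
    | exact sol_three
    | exact sol_five hc
    | exact sol_seven hc
    | exact absurd hP (by norm_num)

theorem sol_prod {c n : ℕ} (hc : c = 1 ∨ c = 2) (hn : n % 4 = 2) (s : Finset ℕ)
    (hs : ∀ P ∈ s, P.Prime ∧ P ≠ 2) : Sol c n (8 * ∏ P ∈ s, P) := by
  classical
  induction s using Finset.induction_on with
  | empty => rw [Finset.prod_empty, mul_one]; exact sol_eight hn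
  | insert P s hPs ih =>
    rw [Finset.prod_insert hPs, mul_left_comm]
    obtain ⟨hP, hP2⟩ := hs P (Finset.mem_insert_self _ _)
    refine Sol.mul ?_ (sol_odd hc hP hP2) (ih fun Q hQ => hs Q (Finset.mem_insert_of_mem hQ))
    refine Nat.Coprime.mul_right ?_ ?_
    · have : Nat.Coprime P 2 := (Nat.coprime_primes hP Nat.prime_two).2 hP2
      exact Nat.Coprime.pow_right 3 this
    · refine Nat.Coprime.prod_right fun Q hQ => ?_
      refine (Nat.coprime_primes hP (hs Q (Finset.mem_insert_of_mem hQ)).1).2 ?_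
      rintro rfl
      exact hPs hQ

theorem dvd_primorial {p w : ℕ} (hp : p.Prime) (h : p ≤ w) : p ∣ primorial w := by
  unfold primorial
  exact Finset.dvd_prod_of_mem (fun p => p)
    (Finset.mem_filter.2 ⟨Finset.mem_range.2 (Nat.lt_succ_of_le h), hp⟩)

theorem sol_primorial {c n w : ℕ} (hc : c = 1 ∨ c = 2) (hn : n % 4 = 2) (hw : 7 ≤ w) :
    Sol c n (4 * primorial w) := by
  classical
  have h := sol_prod hc hn ((((range (w + 1)).filter Nat.Prime)).erase 2) (by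
    intro P hP
    rw [Finset.mem_erase, Finset.mem_filter] at hP
    exact ⟨hP.2.2, hP.1⟩)
  have h2 : 2 * ∏ P ∈ (((range (w + 1)).filter Nat.Prime)).erase 2, P = primorial w := by
    unfold primorial
    exact Finset.mul_prod_erase _ (fun p => p)
      (Finset.mem_filter.2 ⟨Finset.mem_range.2 (by omega), Nat.prime_two⟩)
  rw [← h2]
  have e : 4 * (2 * ∏ P ∈ (((range (w + 1)).filter Nat.Prime)).erase 2, P) =
      8 * ∏ P ∈ (((range (w + 1)).filter Nat.Prime)).erase 2, P := by ring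
  rw [e]
  exact h

end LocSolAux

open LocSolAux in
theorem exists_par {c : ℕ} (hc : c = 1 ∨ c = 2) {w : ℕ} (hw : 7 ≤ w) {n : ℕ} (hn : n % 4 = 2) :
    ∃ p : Par, p.OK ∧ p.c = c ∧ p.E = 6 * primorial w ∧
      (6 : ℤ) ∣ (p.u : ℤ) + p.b - 2 * p.c * p.k ^ 2 ∧
      ((4 * p.E : ℕ) : ℤ) ∣ p.cls - 6 * n := by
  have hs := sol_primorial hc hn hw
  have hpos : 0 < primorial w := primorial_pos w
  have h3 : 3 ∣ primorial w := dvd_primorial (by norm_num) (by omega)
  have h5 : 5 ∣ primorial w := dvd_primorial (by norm_num) (by omega)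
  have h7 : 7 ∣ primorial w := dvd_primorial (by norm_num) (by omega)
  generalize primorial w = Pr at hs hpos h3 h5 h7 ⊢
  obtain ⟨a, b, k, hG, hT⟩ := hs
  have : NeZero (4 * Pr) := ⟨by omega⟩
  set A : ℤ := (a.val : ℤ) with hA
  set b₀ : ℕ := b.val with hb₀
  set k₀ : ℕ := k.val with hk₀
  set l : ℤ := 2 * c * (k₀ : ℤ) ^ 2 with hl
  set U : ℤ := 6 * A - b₀ + l with hU
  have hb4 : b₀ < 4 * Pr := ZMod.val_lt b
  have hk4 : k₀ < 4 * Pr := ZMod.val_lt k
  have hE0 : (0 : ℤ) < ((2 * (6 * Pr) : ℕ) : ℤ) := by exact_mod_cast (by omega : 0 < 2 * (6 * Pr))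
  set u : ℕ := (U % ((2 * (6 * Pr) : ℕ) : ℤ)).toNat with hu
  have hu1 : (u : ℤ) = U % ((2 * (6 * Pr) : ℕ) : ℤ) :=
    Int.toNat_of_nonneg (Int.emod_nonneg _ hE0.ne')
  have hu2 : (u : ℤ) < ((2 * (6 * Pr) : ℕ) : ℤ) := by
    rw [hu1]; exact Int.emod_lt_of_pos _ hE0
  obtain ⟨m, hm⟩ : ∃ m : ℤ, U = u + ((2 * (6 * Pr) : ℕ) : ℤ) * m := by
    refine ⟨U / ((2 * (6 * Pr) : ℕ) : ℤ), ?_⟩
    rw [hu1]
    exact (Int.emod_add_mul_ediv U _).symm
  -- coprimality
  have hcopT : Nat.Coprime (35 * b₀ + 13 * (2 * c * k₀ ^ 2)) (4 * Pr) := by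
    rw [← ZMod.isUnit_iff_coprime]
    have e : (((35 * b₀ + 13 * (2 * c * k₀ ^ 2) : ℕ)) : ZMod (4 * Pr)) = T0 (c : ZMod (4 * Pr)) b k := by
      simp only [T0]
      push_cast
      rw [hb₀, hk₀, ZMod.natCast_zmod_val, ZMod.natCast_zmod_val]
    rw [e]
    exact hT
  have hcop : Nat.Coprime (35 * b₀ + 13 * (2 * c * k₀ ^ 2)) (2 * (6 * Pr)) := by
    have e : 2 * (6 * Pr) = 3 * (4 * Pr) := by ring
    rw [e]
    refine Nat.Coprime.mul_right ?_ hcopT
    exact Nat.Coprime.coprime_dvd_right (Dvd.dvd.mul_left h3 4) hcopT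
  -- the equation
  have hGint : ((4 * Pr : ℕ) : ℤ) ∣ (l + A + 2 * b₀) ^ 2 + ((b₀ : ℤ) - 2 * A) ^ 2 + (A - b₀) ^ 2 - n := by
    rw [← ZMod.intCast_zmod_eq_zero_iff_dvd]
    have e : (((l + A + 2 * b₀) ^ 2 + ((b₀ : ℤ) - 2 * A) ^ 2 + (A - b₀) ^ 2 - n : ℤ) :
        ZMod (4 * Pr)) = GG (c : ZMod (4 * Pr)) a b k - n := by
      simp only [GG]
      rw [hl, hA, hb₀, hk₀]
      push_cast
      rw [ZMod.natCast_zmod_val, ZMod.natCast_zmod_val, ZMod.natCast_zmod_val]
    rw [e, hG, sub_self]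
  refine ⟨⟨c, 6 * Pr, b₀, k₀, u⟩, ?_, rfl, rfl, ?_, ?_⟩
  · refine ⟨hc, by simp only; omega, ?_, by simp only; omega, by simp only; omega, by
      simp only; exact_mod_cast hu2, hcop⟩
    have h35 : 35 ∣ Pr := by
      have : Nat.Coprime 5 7 := by norm_num
      exact (Nat.Coprime.mul_dvd_of_dvd_of_dvd this h5 h7)
    show 210 ∣ 6 * Pr
    have : (210 : ℕ) = 6 * 35 := by norm_num
    rw [this]
    exact Nat.mul_dvd_mul_left 6 h35
  · show (6 : ℤ) ∣ (u : ℤ) + b₀ - 2 * c * k₀ ^ 2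
    refine ⟨A - 2 * Pr * m, ?_⟩
    have e : (u : ℤ) = 6 * A - b₀ + l - ((2 * (6 * Pr) : ℕ) : ℤ) * m := by
      rw [← hU]; linarith
    rw [e, hl]
    push_cast
    ring
  · obtain ⟨z, hz⟩ := hGint
    show ((4 * (6 * Pr) : ℕ) : ℤ) ∣ Par.cls ⟨c, 6 * Pr, b₀, k₀, u⟩ - 6 * n
    have e : (u : ℤ) = 6 * A - b₀ + l - ((2 * (6 * Pr) : ℕ) : ℤ) * m := by
      rw [← hU]; linarith
    refine ⟨z - m * U + 6 * Pr * m ^ 2, ?_⟩
    simp only [Par.cls]
    rw [e, ← hl]
    rw [hU]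
    push_cast at hz ⊢
    linear_combination 6 * hz

end Pool.Agent.Lib.TSq
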