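import Mathlib

/-!
TSq.Prod (about 1 h, Mathlib only). The number of solutions of `xy ≡ h (mod q)`.

PROOF. Sum over `x ∈ [0,q)`: put `g = gcd(x, q)` (a divisor of `q`). If there is a `y` with `q ∣ xy - h` then `g ∣ h`
(`g ∣ x`, `g ∣ q`). If `y, y'` are two solutions in `[0,q)` then `q ∣ x (y - y')`, so `(q/g) ∣ (x/g)(y-y')` and, `x/g` and `q/g` being
coprime, `(q/g) ∣ y - y'`; so all solutions lie in one residue class modulo `q/g`, which has `g` elements in
`[0,q)` : at most `g` solutions `y`. The number of `x ∈ [0,q)` with `gcd(x,q) = g` is at most `q/g` (multiples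
of `g`). Hence the total is at most `∑_{g ∣ q, g ∣ h} (q/g) g = q #{g ∣ q : g ∣ h}`.
-/

open Finset

namespace Pool.Agent.Lib.TSq

namespace ProdAux

theorem eq_of_div {g x x' : ℕ} (h : g ∣ x) (h' : g ∣ x') (e : x / g = x' / g) : x = x' := by
  rw [← Nat.div_mul_cancel h, ← Nat.div_mul_cancel h', e]

theorem dvd_sub_of {q x y y' : ℕ} (hq : 0 < q) {h : ℤ} (h1 : (q : ℤ) ∣ (x : ℤ) * y - h)
    (h2 : (q : ℤ) ∣ (x : ℤ) * y' - h) : ((q / Nat.gcd x q : ℕ) : ℤ) ∣ (y' : ℤ) - y := by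
  set g := Nat.gcd x q with hg
  have hg0 : 0 < g := Nat.gcd_pos_of_pos_right x hq
  have hx : x = g * (x / g) := (Nat.mul_div_cancel' (Nat.gcd_dvd_left x q)).symm
  have hqq : q = g * (q / g) := (Nat.mul_div_cancel' (Nat.gcd_dvd_right x q)).symm
  have hc : Nat.Coprime (x / g) (q / g) := Nat.coprime_div_gcd_div_gcd hg0
  have h3 : (q : ℤ) ∣ (x : ℤ) * (y' - y) := by
    have := dvd_sub h2 h1
    have e : (x : ℤ) * y' - h - (x * y - h) = x * (y' - y) := by ring
    rwa [e] at this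
  have h4 : ((g : ℤ) * ((q / g : ℕ) : ℤ)) ∣ (g : ℤ) * (((x / g : ℕ) : ℤ) * (y' - y)) := by
    have e1 : (g : ℤ) * ((q / g : ℕ) : ℤ) = q := by rw [← Nat.cast_mul, ← hqq]
    have e2 : (g : ℤ) * (((x / g : ℕ) : ℤ) * (y' - y)) = x * (y' - y) := by
      rw [← mul_assoc, ← Nat.cast_mul, ← hx]
    rwa [e1, e2]
  have hg' : (g : ℤ) ≠ 0 := by exact_mod_cast hg0.ne'
  have h5 : ((q / g : ℕ) : ℤ) ∣ ((x / g : ℕ) : ℤ) * (y' - y) := (mul_dvd_mul_iff_left hg').1 h4
  exact (Nat.isCoprime_iff_coprime.2 hc.symm).dvd_of_dvd_mul_left h5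

end ProdAux

open ProdAux in
theorem card_prod_le {q : ℕ} (hq : 0 < q) (h : ℤ) :
    ((range q ×ˢ range q).filter (fun z => (q : ℤ) ∣ (z.1 : ℤ) * z.2 - h)).card ≤
      q * (q.divisors.filter (fun g : ℕ => (g : ℤ) ∣ h)).card := by
  set S := (range q ×ˢ range q).filter (fun z => (q : ℤ) ∣ (z.1 : ℤ) * z.2 - h) with hS
  set D := q.divisors.filter (fun g : ℕ => (g : ℤ) ∣ h) with hD
  have hmap : ∀ z ∈ S, Nat.gcd z.1 q ∈ D := by
    intro z hz
    rw [hS, mem_filter] at hz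
    rw [hD, mem_filter, Nat.mem_divisors]
    refine ⟨⟨Nat.gcd_dvd_right _ _, hq.ne'⟩, ?_⟩
    have h1 : ((Nat.gcd z.1 q : ℕ) : ℤ) ∣ (z.1 : ℤ) * z.2 :=
      Dvd.dvd.mul_right (Int.natCast_dvd_natCast.2 (Nat.gcd_dvd_left _ _)) _
    have h2 : ((Nat.gcd z.1 q : ℕ) : ℤ) ∣ (z.1 : ℤ) * z.2 - h :=
      (Int.natCast_dvd_natCast.2 (Nat.gcd_dvd_right _ _)).trans hz.2
    have h3 := dvd_sub h1 h2
    rwa [sub_sub_cancel] at h3
  rw [card_eq_sum_card_fiberwise hmap]
  have hfib : ∀ g ∈ D, (S.filter (fun z => Nat.gcd z.1 q = g)).card ≤ q := by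
    intro g hg
    rw [hD, mem_filter, Nat.mem_divisors] at hg
    have hgq : q / g * g = q := Nat.div_mul_cancel hg.1.1
    have hg0 : 0 < g := Nat.pos_of_dvd_of_pos hg.1.1 hq
    have hm0 : 0 < q / g := Nat.div_pos (Nat.le_of_dvd hq hg.1.1) hg0
    have hcard : (range (q / g) ×ˢ range g).card = q := by
      rw [card_product, card_range, card_range, hgq]
    refine le_trans ?_ (le_of_eq hcard)
    refine card_le_card_of_injOn (fun z => (z.1 / g, z.2 / (q / g))) ?_ ?_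
    · intro z hz
      have hz' : z ∈ S.filter (fun z => Nat.gcd z.1 q = g) := hz
      rw [mem_filter, hS, mem_filter, mem_product, mem_range, mem_range] at hz'
      have : (z.1 / g, z.2 / (q / g)) ∈ range (q / g) ×ˢ range g := by
        rw [mem_product, mem_range, mem_range]
        constructor
        · show z.1 / g < q / g
          rw [Nat.div_lt_iff_lt_mul hg0, hgq]
          exact hz'.1.1.1
        · show z.2 / (q / g) < g
          rw [Nat.div_lt_iff_lt_mul hm0, mul_comm, hgq]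
          exact hz'.1.1.2
      exact this
    · intro z hz w hw hzw
      have hz' : z ∈ S.filter (fun z => Nat.gcd z.1 q = g) := hz
      have hw' : w ∈ S.filter (fun z => Nat.gcd z.1 q = g) := hw
      rw [mem_filter, hS, mem_filter] at hz' hw'
      have e1 : z.1 / g = w.1 / g := (Prod.ext_iff.1 hzw).1
      have e2 : z.2 / (q / g) = w.2 / (q / g) := (Prod.ext_iff.1 hzw).2
      have d1 : g ∣ z.1 := by rw [← hz'.2]; exact Nat.gcd_dvd_left _ _
      have d2 : g ∣ w.1 := by rw [← hw'.2]; exact Nat.gcd_dvd_left _ _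
      have f1 : z.1 = w.1 := eq_of_div d1 d2 e1
      have h1 := hz'.1.2
      have h2 := hw'.1.2
      rw [← f1] at h2
      have h3 := dvd_sub_of hq h1 h2
      rw [hz'.2] at h3
      have h4 : z.2 ≡ w.2 [MOD (q / g)] := (Nat.modEq_iff_dvd).2 h3
      have f2 : z.2 = w.2 := by
        have h5 : z.2 % (q / g) = w.2 % (q / g) := h4
        rw [← Nat.div_add_mod z.2 (q / g), ← Nat.div_add_mod w.2 (q / g), e2, h5]
      exact Prod.ext f1 f2
  calc ∑ g ∈ D, (S.filter (fun z => Nat.gcd z.1 q = g)).card ≤ ∑ _g ∈ D, q :=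
        sum_le_sum hfib
    _ = q * D.card := by rw [sum_const, smul_eq_mul, mul_comm]

end Pool.Agent.Lib.TSq
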