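import Pool.Agent.Lib.TSq.Defs
import Pool.Agent.Lib.TSq.Prod

/-!
TSq.Local (about 1.8 h). The number of solutions of `Φ(s₁,s₂) ≡ d r (mod 2Ed)` in a square of side `2Ed`.
Imports are black boxes (Prod: `card_prod_le`; Defs: `Ph_eq`, `Ph_T`).

PROOF. (0) Write `d = d₁ d₂` with `d₂` coprime to `2E` and every prime divisor of `d₁` dividing `2E` (strong induction
on `d`: if `gcd(d, 2E) = 1` take `d₁ = 1`; otherwise a prime `P` divides both, apply the induction to `d/P` and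
multiply `d₁` by `P`). Put `q₁ = 2E d₁`, `q₂ = d₂`; they are coprime, `q₁ q₂ = 2Ed`.
(1) `Φ` is a polynomial with integer coefficients, so `Φ(x,y) mod q` only depends on `x, y mod q`. The map
`(x,y) ↦ ((x mod q₁, y mod q₁), (x mod q₂, y mod q₂))` is injective on the square `[i,i+q₁q₂) × [j,j+q₁q₂)` (Chinese
remainders: `x ≡ x' mod q₁` and `mod q₂` gives `q₁ q₂ ∣ x - x'`, `|x - x'| < q₁ q₂`). It maps the solutions into
`𝒜 ×ˢ ℬ`, `𝒜 = {(x,y) ∈ [0,q₁)² : q₁ ∣ Φ(x,y) - d r}`, `ℬ = {(x,y) ∈ [0,q₂)² : q₂ ∣ Φ(x,y)}` (as `q₂ ∣ d`). So it is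
enough to show `#𝒜 ≤ q₁` and `#ℬ ≤ q₂ tau(d)`.
(2) `#𝒜 ≤ q₁`: for each `x` there is at most one `y`. Indeed
`Φ(x,y) - Φ(x,y') = (y - y') (35 (b + E (y + y')) + 13 l₂)` (`ring`; or from `Ph_eq`), `l₂ = ll t₂`, and the second factor
is coprime to `q₁`: let `P` be a prime dividing it and `q₁`; then `P ∣ 2E`, and `P ∣ E` because `2 ∣ E` (`h210`);
`l₂ = 2c (k + 2E t₂)² ≡ 2ck² (mod P)`, so `P ∣ 35b + 13 (2ck²)`, contradicting `hp.cop`. So
`q₁ ∣ y - y'`, `y = y'`.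
(3) `#ℬ ≤ q₂ tau(d)`: put `T₁ = 35 b(x) + 13 l₁`, `T₂ = 35 b(y) + 13 l₂`. By `Ph_T`,
`(T₂ - T₁)(T₂ + T₁) ≡ h := -24c² hh (mod q₂)` on `ℬ`. The map `(x,y) ↦ (T₂ - T₁ mod q₂, T₂ + T₁ mod q₂)`
(`Int.toNat (_ % q₂)`) is injective on `[0,q₂)²` : the sum of the two components gives `2 T₂`, hence `140 E y` modulo
`q₂`, and `140 E` is invertible modulo `q₂` (`140 = 2²·5·7`, `210 ∣ E`, `q₂` coprime to `2E`); similarly for `x`.
`card_prod_le` for `q₂` and `h` gives `#ℬ ≤ q₂ #{g ∣ q₂ : g ∣ h}`, and a `g ∣ q₂` with `g ∣ 24c² hh` is coprime to `2E`,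
hence to `24c²` (`6 ∣ E`, `c = 1` or `2`), so `g ∣ hh`, `g ∣ d`.
-/

open Finset

namespace Pool.Agent.Lib.TSq

open Par

namespace LocalAux

theorem split (N : ℕ) : ∀ d : ℕ, 0 < d → ∃ d₁ d₂ : ℕ, d = d₁ * d₂ ∧ Nat.Coprime d₂ N ∧
    ∀ P : ℕ, P.Prime → P ∣ d₁ → P ∣ N := by
  intro d
  induction d using Nat.strong_induction_on with
  | _ d ih =>
    intro hd
    by_cases hc : Nat.Coprime d N
    · refine ⟨1, d, (one_mul d).symm, hc, fun P hP h => ?_⟩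
      exact absurd (Nat.dvd_one.1 h) hP.ne_one
    · obtain ⟨P, hP, h1, h2⟩ := Nat.Prime.not_coprime_iff_dvd.1 hc
      obtain ⟨e, he⟩ := h1
      have he0 : 0 < e := by
        rcases Nat.eq_zero_or_pos e with h | h
        · rw [h, mul_zero] at he
          omega
        · exact h
      have hlt : e < d := by
        rw [he]
        have := hP.two_le
        nlinarith
      obtain ⟨e₁, e₂, h3, h4, h5⟩ := ih e hlt he0
      refine ⟨P * e₁, e₂, by rw [he, h3, mul_assoc], h4, fun P' hP' h => ?_⟩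
      rcases (Nat.Prime.dvd_mul hP').1 h with h6 | h6
      · rw [(Nat.prime_dvd_prime_iff_eq hP' hP).1 h6]
        exact h2
      · exact h5 P' hP' h6

theorem Ph_mod (p : Par) (t₁ t₂ x y q : ℕ) :
    (q : ℤ) ∣ p.Ph t₁ t₂ x y - p.Ph t₁ t₂ (x % q) (y % q) := by
  rw [← ZMod.intCast_zmod_eq_zero_iff_dvd]
  simp only [Ph, bb]
  push_cast
  ring

theorem Ph_sub (p : Par) (t₁ t₂ x y y' : ℕ) :
    p.Ph t₁ t₂ x y - p.Ph t₁ t₂ x y' =
      ((35 * (p.b + p.E * (y + y')) + 13 * p.ll t₂ : ℕ) : ℤ) * ((y : ℤ) - y') := by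
  simp only [Ph]
  push_cast
  ring

theorem mod_eq_of {i Q x x' : ℕ} (hx : x ∈ Ico i (i + Q)) (hx' : x' ∈ Ico i (i + Q))
    (h : x ≡ x' [MOD Q]) : x = x' := by
  rw [mem_Ico] at hx hx'
  refine Nat.ModEq.eq_of_abs_lt h ?_
  rw [abs_lt]
  constructor <;> omega

/-- the first factor -/
theorem cardA {p : Par} (hp : p.OK) {d₁ : ℕ} (hd₁ : ∀ P : ℕ, P.Prime → P ∣ d₁ → P ∣ 2 * p.E)
    (t₁ t₂ : ℕ) (R : ℤ) :
    ((range (2 * p.E * d₁) ×ˢ range (2 * p.E * d₁)).filter (fun z =>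
      ((2 * p.E * d₁ : ℕ) : ℤ) ∣ p.Ph t₁ t₂ z.1 z.2 - R)).card ≤ 2 * p.E * d₁ := by
  conv_rhs => rw [← card_range (2 * p.E * d₁)]
  refine card_le_card_of_injOn (fun z => z.1) ?_ ?_
  · intro z hz
    exact (mem_product.1 (mem_filter.1 hz).1).1
  · intro z hz w hw hzw
    have hz' := mem_filter.1 hz
    have hw' := mem_filter.1 hw
    have e1 : z.1 = w.1 := hzw
    have h1 := hz'.2
    have h2 := hw'.2
    rw [← e1] at h2
    have h3 := dvd_sub h1 h2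
    rw [sub_sub_sub_cancel_right, Ph_sub] at h3
    have hcop : Nat.Coprime (2 * p.E * d₁) (35 * (p.b + p.E * (z.2 + w.2)) + 13 * p.ll t₂) := by
      by_contra hcon
      obtain ⟨P, hP, h4, h5⟩ := Nat.Prime.not_coprime_iff_dvd.1 hcon
      have h6 : P ∣ 2 * p.E := by
        rcases (Nat.Prime.dvd_mul hP).1 h4 with h | h
        · exact h
        · exact hd₁ P hP h
      have h7 : P ∣ p.E := by
        rcases (Nat.Prime.dvd_mul hP).1 h6 with h | h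
        · exact (h.trans (by norm_num : (2 : ℕ) ∣ 210)).trans hp.h210
        · exact h
      have h8 : 35 * (p.b + p.E * (z.2 + w.2)) + 13 * p.ll t₂ =
          p.E * (35 * (z.2 + w.2) + 13 * (8 * p.c * p.k * t₂ + 8 * p.c * p.E * t₂ ^ 2)) +
          (35 * p.b + 13 * (2 * p.c * p.k ^ 2)) := by
        simp only [ll, kk]
        ring
      rw [h8] at h5
      have h9 : P ∣ 35 * p.b + 13 * (2 * p.c * p.k ^ 2) :=
        (Nat.dvd_add_right (h7.mul_right _)).1 h5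
      exact Nat.Prime.not_coprime_iff_dvd.2 ⟨P, hP, h9, h6⟩ hp.cop
    have h10 : ((2 * p.E * d₁ : ℕ) : ℤ) ∣ (z.2 : ℤ) - w.2 :=
      (Nat.isCoprime_iff_coprime.2 hcop).dvd_of_dvd_mul_left h3
    have h11 : w.2 ≡ z.2 [MOD (2 * p.E * d₁)] := (Nat.modEq_iff_dvd).2 h10
    have h12 : w.2 = z.2 := Nat.ModEq.eq_of_lt_of_lt h11
      (mem_range.1 (mem_product.1 hw'.1).2) (mem_range.1 (mem_product.1 hz'.1).2)
    exact Prod.ext e1 h12.symm

theorem cop140 {E q : ℕ} (h210 : 210 ∣ E) (h : Nat.Coprime q (2 * E)) : Nat.Coprime q (140 * E) := by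
  have h1 : Nat.Coprime q E := h.coprime_dvd_right (Dvd.intro_left 2 rfl)
  have h2 : Nat.Coprime q 210 := h1.coprime_dvd_right h210
  have h3 : Nat.Coprime q (210 ^ 2) := h2.pow_right 2
  exact Nat.Coprime.mul_right (h3.coprime_dvd_right (by norm_num)) h1

theorem emod_eq {q : ℕ} (hq : 0 < q) {a b : ℤ} (h : (a % q).toNat = (b % q).toNat) :
    (q : ℤ) ∣ a - b := by
  have hq' : (q : ℤ) ≠ 0 := by exact_mod_cast hq.ne'
  have h1 := Int.emod_nonneg a hq'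
  have h2 := Int.emod_nonneg b hq'
  have h3 : a % q = b % q := by
    rw [← Int.toNat_of_nonneg h1, ← Int.toNat_of_nonneg h2, h]
  have h4 : b ≡ a [ZMOD q] := h3.symm
  exact h4.dvd

/-- the second factor -/
theorem cardB {p : Par} (hp : p.OK) {q : ℕ} (hq : 0 < q) (hc : Nat.Coprime q (2 * p.E))
    (t₁ t₂ : ℕ) :
    ((range q ×ˢ range q).filter (fun z => (q : ℤ) ∣ p.Ph t₁ t₂ z.1 z.2)).card ≤
      q * (q.divisors.filter (fun g : ℕ => (g : ℤ) ∣ -(24 * (p.c : ℤ) ^ 2 * p.hh t₁ t₂))).card := by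
  refine le_trans ?_ (card_prod_le hq _)
  have hq' : (q : ℤ) ≠ 0 := by exact_mod_cast hq.ne'
  set T₁ : ℕ → ℤ := fun x => 35 * (p.bb x : ℤ) + 13 * p.ll t₁ with hT₁
  set T₂ : ℕ → ℤ := fun y => 35 * (p.bb y : ℤ) + 13 * p.ll t₂ with hT₂
  refine card_le_card_of_injOn
    (fun z => (((T₂ z.2 - T₁ z.1) % q).toNat, ((T₂ z.2 + T₁ z.1) % q).toNat)) ?_ ?_
  · intro z hz
    have hz' := mem_filter.1 hz
    have h1 := Int.emod_nonneg (T₂ z.2 - T₁ z.1) hq'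
    have h2 := Int.emod_nonneg (T₂ z.2 + T₁ z.1) hq'
    have h3 := Int.emod_lt_of_pos (T₂ z.2 - T₁ z.1) (by exact_mod_cast hq : (0 : ℤ) < q)
    have h4 := Int.emod_lt_of_pos (T₂ z.2 + T₁ z.1) (by exact_mod_cast hq : (0 : ℤ) < q)
    have hmem : (((T₂ z.2 - T₁ z.1) % q).toNat, ((T₂ z.2 + T₁ z.1) % q).toNat) ∈
        (range q ×ˢ range q).filter
          (fun z => (q : ℤ) ∣ (z.1 : ℤ) * z.2 - -(24 * (p.c : ℤ) ^ 2 * p.hh t₁ t₂)) := by
      rw [mem_filter, mem_product, mem_range, mem_range]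
      refine ⟨⟨by show ((T₂ z.2 - T₁ z.1) % q).toNat < q; omega,
        by show ((T₂ z.2 + T₁ z.1) % q).toNat < q; omega⟩, ?_⟩
      show (q : ℤ) ∣ ((((T₂ z.2 - T₁ z.1) % q).toNat : ℕ) : ℤ) *
        ((((T₂ z.2 + T₁ z.1) % q).toNat : ℕ) : ℤ) - -(24 * (p.c : ℤ) ^ 2 * p.hh t₁ t₂)
      rw [Int.toNat_of_nonneg h1, Int.toNat_of_nonneg h2]
      have h5 : (q : ℤ) ∣ (T₂ z.2 - T₁ z.1) * (T₂ z.2 + T₁ z.1) -
          -(24 * (p.c : ℤ) ^ 2 * p.hh t₁ t₂) := by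
        rw [sub_neg_eq_add, ← Ph_T]
        exact hz'.2.mul_left _
      have h6 : (T₂ z.2 - T₁ z.1) % q * ((T₂ z.2 + T₁ z.1) % q) ≡
          (T₂ z.2 - T₁ z.1) * (T₂ z.2 + T₁ z.1) [ZMOD q] :=
        (Int.mod_modEq _ _).mul (Int.mod_modEq _ _)
      have h7 := h6.symm.dvd
      have h8 := dvd_add h7 h5
      have e : (T₂ z.2 - T₁ z.1) % q * ((T₂ z.2 + T₁ z.1) % q) -
          (T₂ z.2 - T₁ z.1) * (T₂ z.2 + T₁ z.1) + ((T₂ z.2 - T₁ z.1) * (T₂ z.2 + T₁ z.1) -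
          -(24 * (p.c : ℤ) ^ 2 * p.hh t₁ t₂)) = (T₂ z.2 - T₁ z.1) % q * ((T₂ z.2 + T₁ z.1) % q) -
          -(24 * (p.c : ℤ) ^ 2 * p.hh t₁ t₂) := by ring
      rwa [e] at h8
    exact hmem
  · intro z hz w hw hzw
    have hz' := mem_filter.1 hz
    have hw' := mem_filter.1 hw
    have e1 := emod_eq (a := T₂ z.2 - T₁ z.1) (b := T₂ w.2 - T₁ w.1) hq (Prod.ext_iff.1 hzw).1
    have e2 := emod_eq (a := T₂ z.2 + T₁ z.1) (b := T₂ w.2 + T₁ w.1) hq (Prod.ext_iff.1 hzw).2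
    have hcop : IsCoprime (q : ℤ) ((140 * p.E : ℕ) : ℤ) :=
      Nat.isCoprime_iff_coprime.2 (cop140 hp.h210 hc)
    have f2 : (q : ℤ) ∣ (w.2 : ℤ) - z.2 := by
      refine hcop.dvd_of_dvd_mul_left ?_
      have h1 := dvd_add e1 e2
      have e : ((140 * p.E : ℕ) : ℤ) * ((w.2 : ℤ) - z.2) =
          -((T₂ z.2 - T₁ z.1 - (T₂ w.2 - T₁ w.1)) + (T₂ z.2 + T₁ z.1 - (T₂ w.2 + T₁ w.1))) := by
        simp only [hT₁, hT₂, bb]
        push_cast
        ring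
      rw [e, dvd_neg]
      exact h1
    have f1 : (q : ℤ) ∣ (w.1 : ℤ) - z.1 := by
      refine hcop.dvd_of_dvd_mul_left ?_
      have h1 := dvd_sub e2 e1
      have e : ((140 * p.E : ℕ) : ℤ) * ((w.1 : ℤ) - z.1) =
          -((T₂ z.2 + T₁ z.1 - (T₂ w.2 + T₁ w.1)) - (T₂ z.2 - T₁ z.1 - (T₂ w.2 - T₁ w.1))) := by
        simp only [hT₁, hT₂, bb]
        push_cast
        ring
      rw [e, dvd_neg]
      exact h1
    have g1 : z.1 = w.1 := Nat.ModEq.eq_of_lt_of_lt ((Nat.modEq_iff_dvd).2 f1)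
      (mem_range.1 (mem_product.1 hz'.1).1) (mem_range.1 (mem_product.1 hw'.1).1)
    have g2 : z.2 = w.2 := Nat.ModEq.eq_of_lt_of_lt ((Nat.modEq_iff_dvd).2 f2)
      (mem_range.1 (mem_product.1 hz'.1).2) (mem_range.1 (mem_product.1 hw'.1).2)
    exact Prod.ext g1 g2

theorem tau_le {p : Par} (hp : p.OK) {q d : ℕ} (hd : 0 < d) (hqd : q ∣ d)
    (hc : Nat.Coprime q (2 * p.E)) (t₁ t₂ : ℕ) :
    (q.divisors.filter (fun g : ℕ => (g : ℤ) ∣ -(24 * (p.c : ℤ) ^ 2 * p.hh t₁ t₂))).card ≤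
      p.tau t₁ t₂ d := by
  refine card_le_card ?_
  intro g hg
  rw [mem_filter, Nat.mem_divisors] at hg
  have h1 : Nat.Coprime g (2 * p.E) := hc.coprime_dvd_left hg.1.1
  rw [mem_filter, Nat.mem_divisors]
  refine ⟨⟨hg.1.1.trans hqd, hd.ne'⟩, h1, ?_⟩
  have h2 : Nat.Coprime g p.E := h1.coprime_dvd_right (Dvd.intro_left 2 rfl)
  have h3 : Nat.Coprime g 210 := h2.coprime_dvd_right hp.h210
  have h4 : Nat.Coprime g (210 ^ 5) := h3.pow_right 5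
  have h5 : Nat.Coprime g (24 * p.c ^ 2) := by
    refine h4.coprime_dvd_right ?_
    rcases hp.c12 with h | h <;> rw [h] <;> norm_num
  have h6 : (g : ℤ) ∣ ((24 * p.c ^ 2 : ℕ) : ℤ) * p.hh t₁ t₂ := by
    have h7 := hg.2
    rw [dvd_neg] at h7
    push_cast
    exact h7
  exact (Nat.isCoprime_iff_coprime.2 h5).dvd_of_dvd_mul_left h6

end LocalAux

open LocalAux in
theorem card_block_le {p : Par} (hp : p.OK) {d : ℕ} (hd : 0 < d) (t₁ t₂ i j : ℕ) (r : ℤ) :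
    ((Ico i (i + 2 * p.E * d) ×ˢ Ico j (j + 2 * p.E * d)).filter (fun z =>
      ((2 * p.E * d : ℕ) : ℤ) ∣ p.Ph t₁ t₂ z.1 z.2 - d * r)).card ≤
      2 * p.E * d * p.tau t₁ t₂ d := by
  obtain ⟨d₁, d₂, hdd, hc, hd₁⟩ := split (2 * p.E) d hd
  have hd1 : 0 < d₁ := by
    rcases Nat.eq_zero_or_pos d₁ with h | h
    · rw [h, zero_mul] at hdd
      omega
    · exact h
  have hd2 : 0 < d₂ := by
    rcases Nat.eq_zero_or_pos d₂ with h | h
    · rw [h, mul_zero] at hdd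
      omega
    · exact h
  have hE := hp.hE
  set q₁ := 2 * p.E * d₁ with hq₁
  have hq1 : 0 < q₁ := by positivity
  have hQ : 2 * p.E * d = q₁ * d₂ := by rw [hdd, hq₁]; ring
  have hcop : Nat.Coprime q₁ d₂ := by
    rw [hq₁]
    refine Nat.Coprime.mul_left hc.symm ?_
    by_contra hcon
    obtain ⟨P, hP, h4, h5⟩ := Nat.Prime.not_coprime_iff_dvd.1 hcon
    exact Nat.Prime.not_coprime_iff_dvd.2 ⟨P, hP, h5, hd₁ P hP h4⟩ hc
  set A := (range q₁ ×ˢ range q₁).filter (fun z => (q₁ : ℤ) ∣ p.Ph t₁ t₂ z.1 z.2 - d * r) with hA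
  set B := (range d₂ ×ˢ range d₂).filter (fun z => (d₂ : ℤ) ∣ p.Ph t₁ t₂ z.1 z.2) with hB
  have hcA : A.card ≤ q₁ := cardA hp hd₁ t₁ t₂ _
  have hcB : B.card ≤ d₂ * p.tau t₁ t₂ d :=
    (cardB hp hd2 hc t₁ t₂).trans (Nat.mul_le_mul le_rfl
      (tau_le hp hd (by rw [hdd]; exact Dvd.intro_left d₁ rfl) hc t₁ t₂))
  have hmain : ((Ico i (i + 2 * p.E * d) ×ˢ Ico j (j + 2 * p.E * d)).filter (fun z =>
      ((2 * p.E * d : ℕ) : ℤ) ∣ p.Ph t₁ t₂ z.1 z.2 - d * r)).card ≤ (A ×ˢ B).card := by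
    refine card_le_card_of_injOn
      (fun z => ((z.1 % q₁, z.2 % q₁), (z.1 % d₂, z.2 % d₂))) ?_ ?_
    · intro z hz
      have hz' := mem_filter.1 hz
      have h1 := hz'.2
      have hq1d : (q₁ : ℤ) ∣ ((2 * p.E * d : ℕ) : ℤ) := by
        rw [hQ]; push_cast; exact Dvd.intro _ rfl
      have hd2d : (d₂ : ℤ) ∣ ((2 * p.E * d : ℕ) : ℤ) := by
        rw [hQ]; push_cast; exact Dvd.intro_left _ rfl
      have hd2d' : (d₂ : ℤ) ∣ (d : ℤ) * r := by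
        rw [hdd]; push_cast
        exact (Dvd.intro_left (d₁ : ℤ) rfl).mul_right r
      have m1 : (z.1 % q₁, z.2 % q₁) ∈ A := by
        rw [hA, mem_filter, mem_product, mem_range, mem_range]
        refine ⟨⟨Nat.mod_lt _ hq1, Nat.mod_lt _ hq1⟩, ?_⟩
        have h2 := dvd_sub (hq1d.trans h1) (Ph_mod p t₁ t₂ z.1 z.2 q₁)
        have e : p.Ph t₁ t₂ z.1 z.2 - d * r -
            (p.Ph t₁ t₂ z.1 z.2 - p.Ph t₁ t₂ (z.1 % q₁) (z.2 % q₁)) =
            p.Ph t₁ t₂ (z.1 % q₁) (z.2 % q₁) - d * r := by ring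
        rwa [e] at h2
      have m2 : (z.1 % d₂, z.2 % d₂) ∈ B := by
        rw [hB, mem_filter, mem_product, mem_range, mem_range]
        refine ⟨⟨Nat.mod_lt _ hd2, Nat.mod_lt _ hd2⟩, ?_⟩
        have h2 := dvd_sub (dvd_add (hd2d.trans h1) hd2d') (Ph_mod p t₁ t₂ z.1 z.2 d₂)
        have e : p.Ph t₁ t₂ z.1 z.2 - d * r + d * r -
            (p.Ph t₁ t₂ z.1 z.2 - p.Ph t₁ t₂ (z.1 % d₂) (z.2 % d₂)) =
            p.Ph t₁ t₂ (z.1 % d₂) (z.2 % d₂) := by ring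
        rwa [e] at h2
      exact mem_product.2 ⟨m1, m2⟩
    · intro z hz w hw hzw
      have hz' := mem_product.1 (mem_filter.1 hz).1
      have hw' := mem_product.1 (mem_filter.1 hw).1
      obtain ⟨ha, hb⟩ := Prod.ext_iff.1 hzw
      obtain ⟨a1, a2⟩ := Prod.ext_iff.1 ha
      obtain ⟨b1, b2⟩ := Prod.ext_iff.1 hb
      have c1 : z.1 ≡ w.1 [MOD (2 * p.E * d)] := by
        rw [hQ]
        exact (Nat.modEq_and_modEq_iff_modEq_mul hcop).1 ⟨a1, b1⟩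
      have c2 : z.2 ≡ w.2 [MOD (2 * p.E * d)] := by
        rw [hQ]
        exact (Nat.modEq_and_modEq_iff_modEq_mul hcop).1 ⟨a2, b2⟩
      exact Prod.ext (mod_eq_of hz'.1 hw'.1 c1) (mod_eq_of hz'.2 hw'.2 c2)
  calc _ ≤ (A ×ˢ B).card := hmain
    _ = A.card * B.card := card_product _ _
    _ ≤ q₁ * (d₂ * p.tau t₁ t₂ d) := Nat.mul_le_mul hcA hcB
    _ = 2 * p.E * d * p.tau t₁ t₂ d := by rw [hQ]; ring

end Pool.Agent.Lib.TSq
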