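import Pool.Agent.Lib.TSq.Defs

/-!
TSq.Near (about 1 h). Few lattice points have `|Φ| < Φ₀`. Imports are black boxes.

PROOF. `Φ = (s₂ - s₁) M + H (26 b(s₁) + 5 (l₁ + l₂))`, `M = 35 (b + E (s₁ + s₂)) + 13 l₂ ≥ 35E(s₁ + s₂) ≥ 35E|s₂ - s₁|`,
`H = c (t₂ - t₁)(2k + 2E(t₁+t₂))`, `4E H = l₂ - l₁` (`ring` after unfolding), so `|4E H| ≤ lm`. With `b(s₁) ≤ 2ES'`
(`p.b < 2E`, `s₁ ≤ S' - 1`): `4E |H (26 b(s₁) + 5 (l₁+l₂))| ≤ lm (52ES' + 10 lm)`, so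
`|H (..)| ≤ 13 lm S' + 3 lm²` (`E ≥ 1`). Hence `|Φ| ≥ 35E (s₂-s₁)² - (13 lm S' + 3 lm²)`; if `|s₂ - s₁| ≥ r` this is `≥ Φ₀`. So all
points of the set have `|s₂ - s₁| < r`, i.e. `s₁ < s₂ + r` and `s₂ < s₁ + r`; for each `s₁` at most `2r` values of
`s₂` (`s₂ + r ∈ Ioo ..`, e.g. `s₂ ∈ Ico (s₁ - r) (s₁ + r)` in `ℕ`).
-/

open Finset

namespace Pool.Agent.Lib.TSq

open Par

namespace NearAux

theorem HQ {p : Par} (hp : p.OK) {t₁ t₂ S' lm s₁ : ℕ} (h1 : p.ll t₁ ≤ lm)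
    (h2 : p.ll t₂ ≤ lm) (hs : s₁ < S') :
    |p.c * ((t₂ : ℤ) - t₁) * (2 * p.k + 2 * p.E * ((t₁ : ℤ) + t₂)) *
      (26 * p.bb s₁ + 5 * ((p.ll t₁ : ℤ) + p.ll t₂))| ≤ 13 * (lm : ℤ) * S' + 3 * (lm : ℤ) ^ 2 := by
  have hE : (1 : ℤ) ≤ p.E := by exact_mod_cast hp.hE
  set H : ℤ := p.c * ((t₂ : ℤ) - t₁) * (2 * p.k + 2 * p.E * ((t₁ : ℤ) + t₂)) with hH
  have hD : 4 * (p.E : ℤ) * H = (p.ll t₂ : ℤ) - p.ll t₁ := by
    rw [hH]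
    simp only [ll, kk]
    push_cast
    ring
  have hl1 : (p.ll t₁ : ℤ) ≤ lm := by exact_mod_cast h1
  have hl2 : (p.ll t₂ : ℤ) ≤ lm := by exact_mod_cast h2
  have hl10 : (0 : ℤ) ≤ p.ll t₁ := Int.natCast_nonneg _
  have hl20 : (0 : ℤ) ≤ p.ll t₂ := Int.natCast_nonneg _
  have hlm : (0 : ℤ) ≤ lm := Int.natCast_nonneg _
  have hDle : |(p.ll t₂ : ℤ) - p.ll t₁| ≤ lm := by
    rw [abs_le]
    constructor <;> linarith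
  have hbb0 : (0 : ℤ) ≤ p.bb s₁ := Int.natCast_nonneg _
  have hbb : (p.bb s₁ : ℤ) ≤ 2 * p.E * S' := by
    have h3 : (p.b : ℤ) < 2 * p.E := by exact_mod_cast hp.hb
    have h4 : (s₁ : ℤ) + 1 ≤ S' := by exact_mod_cast hs
    simp only [bb]
    push_cast
    nlinarith
  set Q : ℤ := 26 * p.bb s₁ + 5 * ((p.ll t₁ : ℤ) + p.ll t₂) with hQ
  have hQ0 : 0 ≤ Q := by rw [hQ]; positivity
  have hQle : Q ≤ 52 * p.E * S' + 10 * lm := by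
    rw [hQ]; nlinarith
  have h4E : (0 : ℤ) < 4 * p.E := by linarith
  have key : 4 * (p.E : ℤ) * |H * Q| ≤ 4 * p.E * (13 * (lm : ℤ) * S' + 3 * (lm : ℤ) ^ 2) := by
    have h5 : 4 * (p.E : ℤ) * |H * Q| = |(p.ll t₂ : ℤ) - p.ll t₁| * Q := by
      rw [← hD, abs_mul H Q, abs_mul (4 * (p.E : ℤ)) H, abs_of_nonneg hQ0, abs_of_pos h4E]
      ring
    rw [h5]
    have h6 : |(p.ll t₂ : ℤ) - p.ll t₁| * Q ≤ lm * (52 * p.E * S' + 10 * lm) :=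
      mul_le_mul hDle hQle hQ0 hlm
    refine h6.trans ?_
    nlinarith [mul_nonneg (sub_nonneg.mpr hE) (sq_nonneg (lm : ℤ)), sq_nonneg (lm : ℤ)]
  exact le_of_mul_le_mul_left key h4E

end NearAux

open NearAux

theorem near {p : Par} (hp : p.OK) {t₁ t₂ S' lm r Φ₀ : ℕ} (h1 : p.ll t₁ ≤ lm)
    (h2 : p.ll t₂ ≤ lm) (hr : Φ₀ + (13 * lm * S' + 3 * lm ^ 2) ≤ 35 * p.E * r ^ 2) :
    ((range S' ×ˢ range S').filter (fun z => |p.Ph t₁ t₂ z.1 z.2| < (Φ₀ : ℤ))).card ≤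
      S' * (2 * r) := by
  classical
  have hE : (1 : ℤ) ≤ p.E := by exact_mod_cast hp.hE
  have key : ∀ s₁ s₂ : ℕ, s₁ < S' → |p.Ph t₁ t₂ s₁ s₂| < (Φ₀ : ℤ) → s₁ < s₂ + r ∧ s₂ < s₁ + r := by
    intro s₁ s₂ hs hlt
    have hHQ := HQ hp h1 h2 hs
    by_contra hcon
    have hd : (r : ℤ) ≤ |(s₂ : ℤ) - s₁| := by
      rw [not_and_or, not_lt, not_lt] at hcon
      rcases hcon with h | h
      · rw [abs_sub_comm]
        exact (by have : (s₂ : ℤ) + r ≤ s₁ := by exact_mod_cast h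
                  linarith : (r : ℤ) ≤ (s₁ : ℤ) - s₂).trans (le_abs_self _)
      · exact (by have : (s₁ : ℤ) + r ≤ s₂ := by exact_mod_cast h
                  linarith : (r : ℤ) ≤ (s₂ : ℤ) - s₁).trans (le_abs_self _)
    have hM : 35 * (p.E : ℤ) * |(s₂ : ℤ) - s₁| ≤
        35 * (p.b + p.E * ((s₁ : ℤ) + s₂)) + 13 * p.ll t₂ := by
      have h3 : |(s₂ : ℤ) - s₁| ≤ (s₁ : ℤ) + s₂ := by
        rw [abs_le]
        constructor <;> linarith [Int.natCast_nonneg (n := s₁), Int.natCast_nonneg (n := s₂)]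
      have h4 : (p.E : ℤ) * |(s₂ : ℤ) - s₁| ≤ p.E * ((s₁ : ℤ) + s₂) :=
        mul_le_mul_of_nonneg_left h3 (by linarith)
      have h5 : (0 : ℤ) ≤ p.b := Int.natCast_nonneg _
      have h6 : (0 : ℤ) ≤ p.ll t₂ := Int.natCast_nonneg _
      linarith
    have hM0 : 0 ≤ 35 * (p.b + p.E * ((s₁ : ℤ) + s₂)) + 13 * (p.ll t₂ : ℤ) := by positivity
    have h7 : 35 * (p.E : ℤ) * r ^ 2 ≤
        |((s₂ : ℤ) - s₁) * (35 * (p.b + p.E * ((s₁ : ℤ) + s₂)) + 13 * p.ll t₂)| := by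
      rw [abs_mul, abs_of_nonneg hM0]
      have hr0 : (0 : ℤ) ≤ r := Int.natCast_nonneg _
      calc 35 * (p.E : ℤ) * r ^ 2 ≤ |(s₂ : ℤ) - s₁| * (35 * (p.E : ℤ) * |(s₂ : ℤ) - s₁|) := by
            have h8 : (r : ℤ) ^ 2 ≤ |(s₂ : ℤ) - s₁| ^ 2 := pow_le_pow_left₀ hr0 hd 2
            nlinarith
        _ ≤ _ := mul_le_mul_of_nonneg_left hM (abs_nonneg _)
    have hr' : (Φ₀ : ℤ) + (13 * lm * S' + 3 * lm ^ 2) ≤ 35 * p.E * r ^ 2 := by exact_mod_cast hr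
    have h9 : |((s₂ : ℤ) - s₁) * (35 * (p.b + p.E * ((s₁ : ℤ) + s₂)) + 13 * p.ll t₂)| ≤
        |p.Ph t₁ t₂ s₁ s₂| + |p.c * ((t₂ : ℤ) - t₁) * (2 * p.k + 2 * p.E * ((t₁ : ℤ) + t₂)) *
          (26 * p.bb s₁ + 5 * ((p.ll t₁ : ℤ) + p.ll t₂))| := by
      have h10 : ((s₂ : ℤ) - s₁) * (35 * (p.b + p.E * ((s₁ : ℤ) + s₂)) + 13 * p.ll t₂) =
          p.Ph t₁ t₂ s₁ s₂ - p.c * ((t₂ : ℤ) - t₁) * (2 * p.k + 2 * p.E * ((t₁ : ℤ) + t₂)) *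
          (26 * p.bb s₁ + 5 * ((p.ll t₁ : ℤ) + p.ll t₂)) := by
        simp only [Ph]
        ring
      rw [h10]
      exact abs_sub _ _
    linarith
  have hsub : ((range S' ×ˢ range S').filter (fun z => |p.Ph t₁ t₂ z.1 z.2| < (Φ₀ : ℤ))) ⊆
      (range S').biUnion (fun s₁ => (Ico (s₁ - r) (s₁ + r)).image (fun s₂ => (s₁, s₂))) := by
    intro z hz
    rw [mem_filter, mem_product, mem_range, mem_range] at hz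
    obtain ⟨h3, h4⟩ := key z.1 z.2 hz.1.1 hz.2
    rw [mem_biUnion]
    refine ⟨z.1, mem_range.mpr hz.1.1, ?_⟩
    rw [mem_image]
    exact ⟨z.2, mem_Ico.mpr ⟨by omega, h4⟩, rfl⟩
  refine (card_le_card hsub).trans (card_biUnion_le.trans ?_)
  calc ∑ s₁ ∈ range S', ((Ico (s₁ - r) (s₁ + r)).image (fun s₂ => (s₁, s₂))).card
      ≤ ∑ _s₁ ∈ range S', 2 * r := by
        refine sum_le_sum fun s₁ _ => card_image_le.trans ?_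
        rw [Nat.card_Ico]
        omega
    _ = S' * (2 * r) := by rw [sum_const, card_range, smul_eq_mul]

/-- `|Φ| ≤ 36ES²` on `[0,S)²` -/
theorem Ph_le {p : Par} (hp : p.OK) {t₁ t₂ S lm s₁ s₂ : ℕ} (h1 : p.ll t₁ ≤ lm)
    (h2 : p.ll t₂ ≤ lm) (hS : 14 * lm ≤ S) (hs₁ : s₁ < S) (hs₂ : s₂ < S) :
    |p.Ph t₁ t₂ s₁ s₂| ≤ 36 * (p.E : ℤ) * (S : ℤ) ^ 2 := by
  have hE1 : (0 : ℤ) < p.E := by exact_mod_cast hp.hE
  have hE : (210 : ℤ) ≤ p.E := by exact_mod_cast Nat.le_of_dvd hp.hE hp.h210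
  have hHQ := HQ hp h1 h2 hs₁
  have hb : (p.b : ℤ) + 1 ≤ 2 * p.E := by exact_mod_cast hp.hb
  have hb0 : (0 : ℤ) ≤ p.b := Int.natCast_nonneg _
  have hl2 : (p.ll t₂ : ℤ) ≤ lm := by exact_mod_cast h2
  have hl20 : (0 : ℤ) ≤ p.ll t₂ := Int.natCast_nonneg _
  have hlm : (0 : ℤ) ≤ lm := Int.natCast_nonneg _
  have hS' : 14 * (lm : ℤ) ≤ S := by exact_mod_cast hS
  have h3 : (s₁ : ℤ) + 1 ≤ S := by exact_mod_cast hs₁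
  have h4 : (s₂ : ℤ) + 1 ≤ S := by exact_mod_cast hs₂
  have h30 : (0 : ℤ) ≤ s₁ := Int.natCast_nonneg _
  have h40 : (0 : ℤ) ≤ s₂ := Int.natCast_nonneg _
  have hd : |(s₂ : ℤ) - s₁| ≤ S - 1 := by
    rw [abs_le]
    constructor <;> linarith
  have hd2 : |(s₂ : ℤ) - s₁| * ((s₁ : ℤ) + s₂) ≤ (S - 1) ^ 2 := by
    rw [← abs_of_nonneg (add_nonneg h30 h40), ← abs_mul]
    have : ((s₂ : ℤ) - s₁) * (s₁ + s₂) = (s₂ : ℤ) ^ 2 - s₁ ^ 2 := by ring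
    rw [this, abs_le]
    constructor <;> nlinarith
  have hM : |((s₂ : ℤ) - s₁) * (35 * (p.b + p.E * ((s₁ : ℤ) + s₂)) + 13 * p.ll t₂)| ≤
      35 * p.E * (S - 1) ^ 2 + (S - 1) * (70 * p.E + 13 * lm) := by
    have hM0 : 0 ≤ 35 * (p.b + p.E * ((s₁ : ℤ) + s₂)) + 13 * (p.ll t₂ : ℤ) := by positivity
    rw [abs_mul, abs_of_nonneg hM0]
    have h5 : |(s₂ : ℤ) - s₁| * (35 * (p.b + p.E * ((s₁ : ℤ) + s₂)) + 13 * p.ll t₂) =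
        35 * p.E * (|(s₂ : ℤ) - s₁| * ((s₁ : ℤ) + s₂)) +
          |(s₂ : ℤ) - s₁| * (35 * p.b + 13 * p.ll t₂) := by ring
    rw [h5]
    have h6 : 35 * (p.E : ℤ) * (|(s₂ : ℤ) - s₁| * ((s₁ : ℤ) + s₂)) ≤ 35 * p.E * (S - 1) ^ 2 :=
      mul_le_mul_of_nonneg_left hd2 (by positivity)
    have h7 : |(s₂ : ℤ) - s₁| * (35 * p.b + 13 * p.ll t₂) ≤ (S - 1) * (70 * p.E + 13 * lm) :=
      mul_le_mul hd (by linarith) (by positivity) (by linarith)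
    linarith
  have h8 : |p.Ph t₁ t₂ s₁ s₂| ≤
      |((s₂ : ℤ) - s₁) * (35 * (p.b + p.E * ((s₁ : ℤ) + s₂)) + 13 * p.ll t₂)| +
      |p.c * ((t₂ : ℤ) - t₁) * (2 * p.k + 2 * p.E * ((t₁ : ℤ) + t₂)) *
          (26 * p.bb s₁ + 5 * ((p.ll t₁ : ℤ) + p.ll t₂))| := by
    simp only [Ph]
    exact abs_add_le _ _
  have h9 : 26 * (lm : ℤ) * S + 3 * (lm : ℤ) ^ 2 ≤ 2 * (S : ℤ) ^ 2 := by nlinarith
  have h10 : 2 * (S : ℤ) ^ 2 ≤ p.E * (S : ℤ) ^ 2 :=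
    mul_le_mul_of_nonneg_right (by linarith) (sq_nonneg _)
  nlinarith

end Pool.Agent.Lib.TSq
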