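import Pool.Agent.Lib.TSq.Defs

/-!
TSq.Zero (about 1 h). The zeros of `Φ`. Imports are black boxes (`Ph_T`).

PROOF. `zero_same`: `Φ(t,t,s₁,s₂) = (s₂ - s₁)(35 (b + E (s₁+s₂)) + 13 l)`; if `s₁ ≠ s₂` then `s₁ + s₂ ≥ 1` and the second factor is
`≥ 35E > 0`, so `Φ ≠ 0`. So only the `S` points with `s₁ = s₂`.
`hh_ne`: `k(t) = k + 2Et` is strictly increasing in `t`, and `x ↦ x⁴` is injective on natural numbers.
`zero_diff`: let `N = 24c² hh ≠ 0` (`hh_ne`). If `Φ = 0` then (`Ph_T`) `(T₂ - T₁)(T₂ + T₁) = -N`, `Tᵢ = 35 b(sᵢ) + 13 lᵢ`. The map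
`(s₁,s₂) ↦ T₂ - T₁` has values in `{δ : δ ≠ 0, |δ| ≤ |N|}` (`δ ∣ N`), a set with `2|N|` elements, and is injective on the zeros:
`δ` determines `T₂ + T₁ = -N/δ`, hence `T₁, T₂`, `b(s₁), b(s₂)`, `s₁, s₂` (`E > 0`).
-/

open Finset

namespace Pool.Agent.Lib.TSq

open Par

namespace ZeroAux

theorem bb_inj {p : Par} (hp : p.OK) {s s' : ℕ} (h : p.bb s = p.bb s') : s = s' := by
  simp only [bb] at h
  have hE := hp.hE
  have h1 : 2 * p.E * s = 2 * p.E * s' := by omega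
  exact Nat.eq_of_mul_eq_mul_left (by positivity) h1

end ZeroAux

open ZeroAux

theorem zero_same {p : Par} (hp : p.OK) (t S : ℕ) :
    ((range S ×ˢ range S).filter (fun z => p.Ph t t z.1 z.2 = 0)).card ≤ S := by
  have hE := hp.hE
  have key : ∀ z ∈ (range S ×ˢ range S).filter (fun z => p.Ph t t z.1 z.2 = 0), z.1 = z.2 := by
    intro z hz
    have h1 := (mem_filter.1 hz).2
    have h2 : p.Ph t t z.1 z.2 = ((z.2 : ℤ) - z.1) *
        ((35 * (p.b + p.E * (z.1 + z.2)) + 13 * p.ll t : ℕ) : ℤ) := by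
      simp only [Ph]
      push_cast
      ring
    rw [h2] at h1
    rcases mul_eq_zero.1 h1 with h3 | h3
    · omega
    · have h4 : 35 * (p.b + p.E * (z.1 + z.2)) + 13 * p.ll t = 0 := by exact_mod_cast h3
      have h5 : p.E * (z.1 + z.2) = 0 := by omega
      rcases Nat.mul_eq_zero.1 h5 with h6 | h6
      · omega
      · omega
  conv_rhs => rw [← card_range S]
  refine card_le_card_of_injOn (fun z => z.1) ?_ ?_
  · intro z hz
    exact (mem_product.1 (mem_filter.1 hz).1).1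
  · intro z hz w hw hzw
    have h1 := key z hz
    have h2 := key w hw
    have h3 : z.1 = w.1 := hzw
    exact Prod.ext h3 (by rw [← h1, ← h2, h3])

theorem hh_ne {p : Par} (hp : p.OK) {t₁ t₂ : ℕ} (h : t₁ ≠ t₂) : p.hh t₁ t₂ ≠ 0 := by
  intro h0
  have hE := hp.hE
  have h1 : (p.kk t₂ : ℤ) ^ 4 = (p.kk t₁ : ℤ) ^ 4 := sub_eq_zero.1 h0
  have h2 : p.kk t₂ ^ 4 = p.kk t₁ ^ 4 := by exact_mod_cast h1
  have h3 : p.kk t₂ = p.kk t₁ := Nat.pow_left_injective (by norm_num : (4 : ℕ) ≠ 0) h2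
  simp only [kk] at h3
  have h4 : 2 * p.E * t₂ = 2 * p.E * t₁ := by omega
  exact h (Nat.eq_of_mul_eq_mul_left (by positivity) h4).symm

theorem zero_diff {p : Par} (hp : p.OK) {t₁ t₂ : ℕ} (h : t₁ ≠ t₂) (S : ℕ) :
    ((range S ×ˢ range S).filter (fun z => p.Ph t₁ t₂ z.1 z.2 = 0)).card ≤
      2 * (24 * p.c ^ 2 * (p.hh t₁ t₂).natAbs) := by
  set M : ℕ := 24 * p.c ^ 2 * (p.hh t₁ t₂).natAbs with hM
  set n : ℤ := 24 * (p.c : ℤ) ^ 2 * p.hh t₁ t₂ with hn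
  have hnM : n.natAbs = M := by
    rw [hn, hM, Int.natAbs_mul, Int.natAbs_mul, Int.natAbs_pow]
    rfl
  have hn0 : n ≠ 0 := by
    rw [hn]
    have hc : (p.c : ℤ) ≠ 0 := by
      rcases hp.c12 with h1 | h1 <;> rw [h1] <;> norm_num
    exact mul_ne_zero (mul_ne_zero (by norm_num) (pow_ne_zero _ hc)) (hh_ne hp h)
  set T₁ : ℕ → ℤ := fun x => 35 * (p.bb x : ℤ) + 13 * p.ll t₁ with hT₁
  set T₂ : ℕ → ℤ := fun y => 35 * (p.bb y : ℤ) + 13 * p.ll t₂ with hT₂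
  have key : ∀ z ∈ (range S ×ˢ range S).filter (fun z => p.Ph t₁ t₂ z.1 z.2 = 0),
      (T₂ z.2 - T₁ z.1) * (T₂ z.2 + T₁ z.1) = -n := by
    intro z hz
    have h1 := (mem_filter.1 hz).2
    have h2 := Ph_T p t₁ t₂ z.1 z.2
    rw [h1, mul_zero] at h2
    have h3 : (0 : ℤ) = (T₂ z.2 - T₁ z.1) * (T₂ z.2 + T₁ z.1) + n := h2
    linarith
  have hcard : ((Icc (-(M : ℤ)) M).erase 0).card = 2 * M := by
    rw [card_erase_of_mem (by rw [mem_Icc]; omega), Int.card_Icc]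
    omega
  refine le_trans ?_ (le_of_eq hcard)
  refine card_le_card_of_injOn (fun z => T₂ z.2 - T₁ z.1) ?_ ?_
  · intro z hz
    have h1 := key z hz
    have h2 : T₂ z.2 - T₁ z.1 ≠ 0 := by
      intro h0
      rw [h0, zero_mul] at h1
      exact hn0 (by linarith)
    have h3 : (T₂ z.2 - T₁ z.1).natAbs ∣ n.natAbs := by
      rw [Int.natAbs_dvd_natAbs, ← dvd_neg, ← h1]
      exact dvd_mul_right _ _
    have h4 : (T₂ z.2 - T₁ z.1).natAbs ≤ M := by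
      rw [← hnM]
      exact Nat.le_of_dvd (Int.natAbs_pos.2 hn0) h3
    have h5 : T₂ z.2 - T₁ z.1 ∈ (Icc (-(M : ℤ)) M).erase 0 := by
      rw [mem_erase, mem_Icc]
      exact ⟨h2, by omega, by omega⟩
    exact h5
  · intro z hz w hw hzw
    have e1 : T₂ z.2 - T₁ z.1 = T₂ w.2 - T₁ w.1 := hzw
    have h1 := key z hz
    have h2 := key w hw
    have h3 : T₂ z.2 - T₁ z.1 ≠ 0 := by
      intro h0
      rw [h0, zero_mul] at h1
      exact hn0 (by linarith)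
    rw [← h2, ← e1] at h1
    have e2 : T₂ z.2 + T₁ z.1 = T₂ w.2 + T₁ w.1 := mul_left_cancel₀ h3 h1
    have f2 : T₂ z.2 = T₂ w.2 := by linarith
    have f1 : T₁ z.1 = T₁ w.1 := by linarith
    have g2 : (p.bb z.2 : ℤ) = p.bb w.2 := by
      simp only [hT₂] at f2
      linarith
    have g1 : (p.bb z.1 : ℤ) = p.bb w.1 := by
      simp only [hT₁] at f1
      linarith
    exact Prod.ext (bb_inj hp (by exact_mod_cast g1)) (bb_inj hp (by exact_mod_cast g2))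

/-- sizes -/
theorem kk_lt {p : Par} (hp : p.OK) {t K : ℕ} (h : t < K) : p.kk t < 2 * p.E * K := by
  have h1 := hp.hk
  have h2 : 2 * p.E * (t + 1) ≤ 2 * p.E * K := Nat.mul_le_mul le_rfl h
  simp only [kk]
  have h3 : 2 * p.E * (t + 1) = 2 * p.E * t + 2 * p.E := by ring
  omega

theorem ll_le {p : Par} (hp : p.OK) {t K : ℕ} (h : t < K) : p.ll t ≤ 16 * p.E ^ 2 * K ^ 2 := by
  have h1 : p.kk t ≤ 2 * p.E * K := (kk_lt hp h).le
  have h2 : p.kk t ^ 2 ≤ (2 * p.E * K) ^ 2 := Nat.pow_le_pow_left h1 2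
  have h3 : p.c ≤ 2 := by
    rcases hp.c12 with h | h <;> omega
  calc p.ll t = 2 * p.c * p.kk t ^ 2 := rfl
    _ ≤ 2 * 2 * (2 * p.E * K) ^ 2 :=
        Nat.mul_le_mul (Nat.mul_le_mul le_rfl h3) h2
    _ = 16 * p.E ^ 2 * K ^ 2 := by ring

theorem hh_le {p : Par} (hp : p.OK) {t₁ t₂ K : ℕ} (h1 : t₁ < K) (h2 : t₂ < K) :
    (p.hh t₁ t₂).natAbs ≤ 16 * p.E ^ 4 * K ^ 4 := by
  have e : (2 * p.E * K) ^ 4 = 16 * p.E ^ 4 * K ^ 4 := by ring
  have k1 : p.kk t₁ ^ 4 ≤ (2 * p.E * K) ^ 4 := Nat.pow_le_pow_left (kk_lt hp h1).le 4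
  have k2 : p.kk t₂ ^ 4 ≤ (2 * p.E * K) ^ 4 := Nat.pow_le_pow_left (kk_lt hp h2).le 4
  rw [← e]
  have h3 : p.hh t₁ t₂ = ((p.kk t₂ ^ 4 : ℕ) : ℤ) - ((p.kk t₁ ^ 4 : ℕ) : ℤ) := by
    simp only [hh]
    push_cast
    ring
  rw [h3]
  omega

end Pool.Agent.Lib.TSq
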