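import Pool.Agent.Lib.TSq.Cells
import Pool.Agent.Lib.TSq.HSum
import Pool.Agent.Lib.TSq.Near
import Pool.Agent.Lib.TSq.Zero

/-!
TSq.Pair (about 1.8 h). The sum over `d` for a fixed pair `(t₁,t₂)`. Imports are black boxes (`cells`, `sumD`,
`near`, `Ph_le`, `hh_ne`).

PROOF. (a) If `V d > 18 S²` then `Nset = ∅` for both signs: a point has `2EVd ≤ |Φ| ≤ 36ES²` (`Ph_le`). If `V d ≤ 18S²` then
`2Ed V ≤ 36ES²`, so by `hS'` `(S + 2Ed) V ≤ S' V` and `S + 2Ed ≤ S'` (`V > W ≥ 0`). So `cells` holds for every `d ≥ 1` (trivially if both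
sets are empty): `Nset(1) + Nset(-1) ≤ (tau(d)/(2Ed)) #{z ∈ [0,S')² : Ad ≤ |Φ| ≤ Bd}`, `A = 2E(V-W)`, `B = 2E(V+L+W)`.
(b) `pair_bound`: `tau(d) = #{g ∈ G : g ∣ d}` with `G` the set of divisors of `|hh|` coprime to `2E` (`hh ≠ 0`), so
`AA = ∑_{g ∈ G} 1/g` and `#G ≤ |hh|`. `sumD` with `Z = [0,S')²`, `F = |Φ|` (natAbs), `Φ₀`: the sum is at most
`(1/(2E)) (AA (θ S'² + (1+θ) #{|Φ| < Φ₀}) + |hh| (B/Φ₀) S'²)`, `#{|Φ| < Φ₀} ≤ S' (2r)` by `near`, `1 + θ ≤ 2`.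
(c) `same_bound` (`t₁ = t₂ = t`; if `L = 0` both sides are `≥ 0` and the left side is `0`): for `d ≤ L`, `tau(d) ≤ #{g ∈ G : g ∣ d}` with
`G = Icc 1 L`. `sumD` with this `G`, `Z = [0,S')²`, `F = |Φ|` and `Φ₀ = L B`: the sum is at most
`(1/(2E)) S'² ((∑_{g ≤ L} 1/g)(θ + 1 + θ) + L · B/(L B)) ≤ (1/(2E)) S'² (3 (1 + log L) + 1)` (`harmonic_le_one_add_log`).
-/

open Finset

namespace Pool.Agent.Lib.TSq

open Par

namespace PairAux

theorem one_d {p : Par} (hp : p.OK) {d : ℕ} (hd : 0 < d) {t₁ t₂ S S' V L W lm : ℕ}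
    (h1 : p.ll t₁ ≤ lm) (h2 : p.ll t₂ ≤ lm) (hlS : 14 * lm ≤ S)
    (hS' : S * V + 36 * p.E * S ^ 2 ≤ S' * V) (hW : 140 * p.E * S' + 26 * lm ≤ W) (hWV : W < V) :
    2 * p.E * d * ((p.Nset t₁ t₂ S V L d 1).card + (p.Nset t₁ t₂ S V L d (-1)).card) ≤
      p.tau t₁ t₂ d * ((range S' ×ˢ range S').filter (fun z =>
        2 * (p.E : ℤ) * ((V : ℤ) - W) * d ≤ |p.Ph t₁ t₂ z.1 z.2| ∧
        |p.Ph t₁ t₂ z.1 z.2| ≤ 2 * (p.E : ℤ) * ((V : ℤ) + L + W) * d)).card := by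
  by_cases hle : S + 2 * p.E * d ≤ S'
  · exact cells hp hd h1 h2 hle hW hWV
  · have key : ∀ σ : ℤ, (σ = 1 ∨ σ = -1) → p.Nset t₁ t₂ S V L d σ = ∅ := by
      intro σ hσ
      rw [Finset.eq_empty_iff_forall_notMem]
      intro z hz
      apply hle
      unfold Nset at hz
      rw [mem_filter, mem_product, mem_range, mem_range] at hz
      obtain ⟨⟨hz1, hz2⟩, -, hz3, -⟩ := hz
      have h3 := Ph_le hp h1 h2 hlS hz1 hz2
      have h4 : σ * p.Ph t₁ t₂ z.1 z.2 ≤ |p.Ph t₁ t₂ z.1 z.2| := by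
        rcases hσ with rfl | rfl
        · rw [one_mul]; exact le_abs_self _
        · rw [neg_one_mul]; exact neg_le_abs _
      have h5 : 2 * (p.E : ℤ) * V * d ≤ 36 * (p.E : ℤ) * (S : ℤ) ^ 2 := by linarith
      have h5' : 2 * p.E * V * d ≤ 36 * p.E * S ^ 2 := by exact_mod_cast h5
      have h6 : (S + 2 * p.E * d) * V ≤ S' * V := by
        have e1 : (S + 2 * p.E * d) * V = S * V + 2 * p.E * V * d := by ring
        rw [e1]
        exact (Nat.add_le_add_left h5' _).trans hS'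
      exact Nat.le_of_mul_le_mul_right h6 (by omega)
    rw [key 1 (Or.inl rfl), key (-1) (Or.inr rfl)]
    simp

theorem one_d_real {p : Par} (hp : p.OK) {d : ℕ} (hd : 0 < d) {t₁ t₂ S S' V L W lm : ℕ}
    (h1 : p.ll t₁ ≤ lm) (h2 : p.ll t₂ ≤ lm) (hlS : 14 * lm ≤ S)
    (hS' : S * V + 36 * p.E * S ^ 2 ≤ S' * V) (hW : 140 * p.E * S' + 26 * lm ≤ W) (hWV : W < V) :
    (((p.Nset t₁ t₂ S V L d 1).card : ℝ) + (p.Nset t₁ t₂ S V L d (-1)).card) ≤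
      1 / (2 * p.E) * ((p.tau t₁ t₂ d : ℝ) / d * (((range S' ×ˢ range S').filter (fun z =>
        (2 * (p.E : ℝ) * ((V : ℝ) - W)) * d ≤ ((p.Ph t₁ t₂ z.1 z.2).natAbs : ℝ) ∧
        ((p.Ph t₁ t₂ z.1 z.2).natAbs : ℝ) ≤ (2 * (p.E : ℝ) * ((V : ℝ) + L + W)) * d)).card : ℝ)) := by
  have h := one_d hp hd (L := L) h1 h2 hlS hS' hW hWV
  have hset : ((range S' ×ˢ range S').filter (fun z =>
        (2 * (p.E : ℝ) * ((V : ℝ) - W)) * d ≤ ((p.Ph t₁ t₂ z.1 z.2).natAbs : ℝ) ∧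
        ((p.Ph t₁ t₂ z.1 z.2).natAbs : ℝ) ≤ (2 * (p.E : ℝ) * ((V : ℝ) + L + W)) * d)) =
      ((range S' ×ˢ range S').filter (fun z =>
        2 * (p.E : ℤ) * ((V : ℤ) - W) * d ≤ |p.Ph t₁ t₂ z.1 z.2| ∧
        |p.Ph t₁ t₂ z.1 z.2| ≤ 2 * (p.E : ℤ) * ((V : ℤ) + L + W) * d)) := by
    refine Finset.filter_congr fun z _ => ?_
    rw [Nat.cast_natAbs]
    constructor
    · rintro ⟨ha, hb⟩
      exact ⟨by exact_mod_cast ha, by exact_mod_cast hb⟩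
    · rintro ⟨ha, hb⟩
      exact ⟨by exact_mod_cast ha, by exact_mod_cast hb⟩
  rw [hset]
  have hER : (0 : ℝ) < p.E := by exact_mod_cast hp.hE
  have hdR : (0 : ℝ) < d := by exact_mod_cast hd
  set n1 := (p.Nset t₁ t₂ S V L d 1).card
  set n2 := (p.Nset t₁ t₂ S V L d (-1)).card
  set nt := p.tau t₁ t₂ d
  set nz := ((range S' ×ˢ range S').filter (fun z =>
        2 * (p.E : ℤ) * ((V : ℤ) - W) * d ≤ |p.Ph t₁ t₂ z.1 z.2| ∧
        |p.Ph t₁ t₂ z.1 z.2| ≤ 2 * (p.E : ℤ) * ((V : ℤ) + L + W) * d)).card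
  have h' : 2 * (p.E : ℝ) * d * ((n1 : ℝ) + n2) ≤ (nt : ℝ) * nz := by exact_mod_cast h
  have e1 : 1 / (2 * (p.E : ℝ)) * ((nt : ℝ) / d * nz) = (nt : ℝ) * nz / (2 * p.E * d) := by
    field_simp
  rw [e1, le_div_iff₀ (by positivity)]
  linarith

theorem tau_eq {p : Par} {t₁ t₂ d : ℕ} (hd : 0 < d) (hh : p.hh t₁ t₂ ≠ 0) :
    p.tau t₁ t₂ d = (((p.hh t₁ t₂).natAbs.divisors.filter
      (fun g => Nat.Coprime g (2 * p.E))).filter (fun g => g ∣ d)).card := by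
  unfold tau
  congr 1
  ext g
  have h1 : (p.hh t₁ t₂).natAbs ≠ 0 := Int.natAbs_ne_zero.mpr hh
  simp only [mem_filter, Nat.mem_divisors]
  rw [← Int.natCast_dvd]
  constructor
  · rintro ⟨⟨a, b⟩, c, e⟩
    exact ⟨⟨⟨e, h1⟩, c⟩, a⟩
  · rintro ⟨⟨⟨e, _⟩, c⟩, a⟩
    exact ⟨⟨a, hd.ne'⟩, c, e⟩

theorem tau_le {p : Par} {t₁ t₂ d L : ℕ} (hd : d ∈ Icc 1 L) :
    p.tau t₁ t₂ d ≤ ((Icc 1 L).filter (fun g => g ∣ d)).card := by
  unfold tau
  rw [mem_Icc] at hd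
  refine Finset.card_le_card fun g hg => ?_
  rw [mem_filter, Nat.mem_divisors] at hg
  have h1 : g ≤ d := Nat.le_of_dvd (by omega) hg.1.1
  have h2 : 0 < g := Nat.pos_of_dvd_of_pos hg.1.1 (by omega)
  rw [mem_filter, mem_Icc]
  exact ⟨⟨h2, by omega⟩, hg.1.1⟩

/-- the sum over `d`, with any set `G` of possible divisors -/
theorem all_d {p : Par} (hp : p.OK) {t₁ t₂ S S' V L W lm : ℕ}
    (h1 : p.ll t₁ ≤ lm) (h2 : p.ll t₂ ≤ lm) (hlS : 14 * lm ≤ S)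
    (hS' : S * V + 36 * p.E * S ^ 2 ≤ S' * V) (hW : 140 * p.E * S' + 26 * lm ≤ W) (hWV : W < V)
    {θ Φ₀ : ℝ} (h0 : 0 ≤ θ) (hθ1 : θ < 1) (hθ : (V : ℝ) + L + W ≤ (1 + θ) * ((V : ℝ) - W))
    (hΦ : 0 < Φ₀) (G : Finset ℕ) (hG : ∀ g ∈ G, 0 < g)
    (hGt : ∀ d ∈ Icc 1 L, p.tau t₁ t₂ d ≤ (G.filter (fun g => g ∣ d)).card) :
    ∑ d ∈ Icc 1 L, (((p.Nset t₁ t₂ S V L d 1).card : ℝ) + (p.Nset t₁ t₂ S V L d (-1)).card) ≤
      1 / (2 * p.E) * ((∑ g ∈ G, (1 : ℝ) / g) * (θ * (S' : ℝ) ^ 2 + (1 + θ) *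
        (((range S' ×ˢ range S').filter
          (fun z => ((p.Ph t₁ t₂ z.1 z.2).natAbs : ℝ) < Φ₀)).card : ℝ)) +
        G.card * ((2 * (p.E : ℝ) * ((V : ℝ) + L + W)) / Φ₀) * (S' : ℝ) ^ 2) := by
  have hER : (0 : ℝ) < p.E := by exact_mod_cast hp.hE
  have hVW : (W : ℝ) < V := by exact_mod_cast hWV
  have hL0 : (0 : ℝ) ≤ L := Nat.cast_nonneg L
  have hW0 : (0 : ℝ) ≤ W := Nat.cast_nonneg W
  have hA : (0 : ℝ) < 2 * (p.E : ℝ) * ((V : ℝ) - W) := mul_pos (by positivity) (by linarith)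
  have hAB : 2 * (p.E : ℝ) * ((V : ℝ) - W) ≤ 2 * (p.E : ℝ) * ((V : ℝ) + L + W) :=
    mul_le_mul_of_nonneg_left (by linarith) (by positivity)
  have hB : 2 * (p.E : ℝ) * ((V : ℝ) + L + W) ≤ (1 + θ) * (2 * (p.E : ℝ) * ((V : ℝ) - W)) := by
    have := mul_le_mul_of_nonneg_left hθ (show (0 : ℝ) ≤ 2 * p.E by positivity)
    linarith
  have hsum := sumD (range S' ×ˢ range S') (fun z => (p.Ph t₁ t₂ z.1 z.2).natAbs) G hG hA hAB hB
    h0 hθ1 hΦ L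
  have hcard : (((range S' ×ˢ range S').card : ℕ) : ℝ) = (S' : ℝ) ^ 2 := by
    rw [card_product, card_range]
    push_cast
    ring
  rw [hcard] at hsum
  refine le_trans ?_ (mul_le_mul_of_nonneg_left hsum (by positivity))
  rw [mul_sum]
  refine sum_le_sum fun d hd => ?_
  have hd1 : 0 < d := by
    rw [mem_Icc] at hd
    omega
  refine (one_d_real hp hd1 h1 h2 hlS hS' hW hWV).trans ?_
  refine mul_le_mul_of_nonneg_left (mul_le_mul_of_nonneg_right ?_ (Nat.cast_nonneg _)) (by positivity)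
  exact div_le_div_of_nonneg_right (by exact_mod_cast hGt d hd) (Nat.cast_nonneg d)

theorem harm_le (L : ℕ) : ∑ g ∈ Icc 1 L, (1 : ℝ) / g ≤ 1 + Real.log L := by
  have h := harmonic_le_one_add_log L
  rw [harmonic_eq_sum_Icc] at h
  push_cast at h
  simpa only [one_div] using h

end PairAux

open PairAux

theorem pair_bound {p : Par} (hp : p.OK) {t₁ t₂ S S' V L W lm r Φ₀ : ℕ} {θ : ℝ}
    (hne : t₁ ≠ t₂) (h1 : p.ll t₁ ≤ lm) (h2 : p.ll t₂ ≤ lm) (hlS : 14 * lm ≤ S)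
    (hS' : S * V + 36 * p.E * S ^ 2 ≤ S' * V) (hW : 140 * p.E * S' + 26 * lm ≤ W) (hWV : W < V)
    (h0 : 0 ≤ θ) (hθ1 : θ < 1) (hθ : (V : ℝ) + L + W ≤ (1 + θ) * ((V : ℝ) - W))
    (hΦ : 0 < Φ₀) (hr : Φ₀ + (13 * lm * S' + 3 * lm ^ 2) ≤ 35 * p.E * r ^ 2) :
    ∑ d ∈ Icc 1 L, (((p.Nset t₁ t₂ S V L d 1).card : ℝ) + (p.Nset t₁ t₂ S V L d (-1)).card) ≤
      1 / (2 * p.E) * (p.AA t₁ t₂ * (θ * (S' : ℝ) ^ 2 + 4 * (S' * r)) +
        ((p.hh t₁ t₂).natAbs : ℝ) * (2 * p.E * ((V : ℝ) + L + W) / Φ₀) * (S' : ℝ) ^ 2) := by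
  have hh := hh_ne hp hne
  have hER : (0 : ℝ) < p.E := by exact_mod_cast hp.hE
  set G : Finset ℕ := (p.hh t₁ t₂).natAbs.divisors.filter (fun g => Nat.Coprime g (2 * p.E)) with hG
  have hG0 : ∀ g ∈ G, 0 < g := by
    intro g hg
    rw [hG, mem_filter] at hg
    exact Nat.pos_of_mem_divisors hg.1
  have hΦ' : (0 : ℝ) < Φ₀ := by exact_mod_cast hΦ
  refine (all_d hp h1 h2 hlS hS' hW hWV h0 hθ1 hθ hΦ' G hG0 (fun d hd => ?_)).trans ?_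
  · rw [mem_Icc] at hd
    exact (tau_eq (by omega) hh).le
  · refine mul_le_mul_of_nonneg_left ?_ (by positivity)
    have hAA : (∑ g ∈ G, (1 : ℝ) / g) = p.AA t₁ t₂ := rfl
    rw [hAA]
    have hAA0 : 0 ≤ p.AA t₁ t₂ := by
      rw [← hAA]
      exact sum_nonneg fun g _ => by positivity
    have hnear := near hp h1 h2 hr
    have hset : ((range S' ×ˢ range S').filter
          (fun z => ((p.Ph t₁ t₂ z.1 z.2).natAbs : ℝ) < Φ₀)) =
        ((range S' ×ˢ range S').filter (fun z => |p.Ph t₁ t₂ z.1 z.2| < (Φ₀ : ℤ))) := by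
      refine Finset.filter_congr fun z _ => ?_
      rw [Nat.cast_natAbs]
      constructor
      · intro h
        exact_mod_cast h
      · intro h
        exact_mod_cast h
    rw [hset]
    have hnear' : ((((range S' ×ˢ range S').filter
        (fun z => |p.Ph t₁ t₂ z.1 z.2| < (Φ₀ : ℤ))).card : ℕ) : ℝ) ≤ S' * (2 * r) := by
      exact_mod_cast hnear
    have hGc : (G.card : ℝ) ≤ ((p.hh t₁ t₂).natAbs : ℝ) := by
      have h3 : G.card ≤ (p.hh t₁ t₂).natAbs :=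
        (card_filter_le _ _).trans (Nat.card_divisors_le_self _)
      exact_mod_cast h3
    have hSr : (0 : ℝ) ≤ (S' : ℝ) * r := by positivity
    have e1 : θ * (S' : ℝ) ^ 2 + (1 + θ) * ((((range S' ×ˢ range S').filter
        (fun z => |p.Ph t₁ t₂ z.1 z.2| < (Φ₀ : ℤ))).card : ℕ) : ℝ) ≤
        θ * (S' : ℝ) ^ 2 + 4 * (S' * r) := by
      have h3 := mul_le_mul_of_nonneg_left hnear' (show (0 : ℝ) ≤ 1 + θ by linarith)
      have h4 : (1 + θ) * ((S' : ℝ) * (2 * r)) ≤ 2 * ((S' : ℝ) * (2 * r)) :=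
        mul_le_mul_of_nonneg_right (by linarith) (by positivity)
      linarith
    have e2 : (G.card : ℝ) * (2 * (p.E : ℝ) * ((V : ℝ) + L + W) / Φ₀) * (S' : ℝ) ^ 2 ≤
        ((p.hh t₁ t₂).natAbs : ℝ) * (2 * p.E * ((V : ℝ) + L + W) / Φ₀) * (S' : ℝ) ^ 2 :=
      mul_le_mul_of_nonneg_right (mul_le_mul_of_nonneg_right hGc (by positivity)) (by positivity)
    exact add_le_add (mul_le_mul_of_nonneg_left e1 hAA0) e2

theorem same_bound {p : Par} (hp : p.OK) {t S S' V L W lm : ℕ} {θ : ℝ}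
    (h1 : p.ll t ≤ lm) (hlS : 14 * lm ≤ S)
    (hS' : S * V + 36 * p.E * S ^ 2 ≤ S' * V) (hW : 140 * p.E * S' + 26 * lm ≤ W)
    (hWV : W < V)
    (h0 : 0 ≤ θ) (hθ1 : θ < 1) (hθ : (V : ℝ) + L + W ≤ (1 + θ) * ((V : ℝ) - W)) :
    ∑ d ∈ Icc 1 L, (((p.Nset t t S V L d 1).card : ℝ) + (p.Nset t t S V L d (-1)).card) ≤
      1 / (2 * p.E) * ((S' : ℝ) ^ 2 * (4 + 3 * Real.log L)) := by
  have hER : (0 : ℝ) < p.E := by exact_mod_cast hp.hE
  have hVW : (W : ℝ) < V := by exact_mod_cast hWV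
  rcases Nat.eq_zero_or_pos L with hL | hL
  · subst hL
    simp only [Nat.cast_zero, Real.log_zero, mul_zero, add_zero]
    rw [show Icc 1 0 = (∅ : Finset ℕ) from rfl, sum_empty]
    positivity
  · have hLR : (1 : ℝ) ≤ L := by exact_mod_cast hL
    have hL0 : (0 : ℝ) < L := by linarith
    have hW0 : (0 : ℝ) ≤ W := Nat.cast_nonneg W
    set B : ℝ := 2 * (p.E : ℝ) * ((V : ℝ) + L + W) with hB
    have hB0 : 0 < B := mul_pos (by positivity) (by linarith)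
    refine (all_d hp h1 h1 hlS hS' hW hWV h0 hθ1 hθ (mul_pos hL0 hB0) (Icc 1 L)
      (fun g hg => by rw [mem_Icc] at hg; omega) (fun d hd => tau_le hd)).trans ?_
    refine mul_le_mul_of_nonneg_left ?_ (by positivity)
    have hlog : 0 ≤ Real.log L := Real.log_nonneg hLR
    have hharm := harm_le L
    have hcard : ((((range S' ×ˢ range S').filter
        (fun z => ((p.Ph t t z.1 z.2).natAbs : ℝ) < L * B)).card : ℕ) : ℝ) ≤ (S' : ℝ) ^ 2 := by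
      have h3 : ((range S' ×ˢ range S').filter
        (fun z => ((p.Ph t t z.1 z.2).natAbs : ℝ) < L * B)).card ≤ S' * S' := by
        refine (card_filter_le _ _).trans (le_of_eq ?_)
        rw [card_product, card_range]
      have h4 : ((((range S' ×ˢ range S').filter
        (fun z => ((p.Ph t t z.1 z.2).natAbs : ℝ) < L * B)).card : ℕ) : ℝ) ≤ (S' : ℝ) * S' := by
        exact_mod_cast h3
      linarith [sq (S' : ℝ)]
    have e1 : θ * (S' : ℝ) ^ 2 + (1 + θ) * ((((range S' ×ˢ range S').filter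
        (fun z => ((p.Ph t t z.1 z.2).natAbs : ℝ) < L * B)).card : ℕ) : ℝ) ≤ 3 * (S' : ℝ) ^ 2 := by
      have h3 := mul_le_mul_of_nonneg_left hcard (show (0 : ℝ) ≤ 1 + θ by linarith)
      have h4 : (0 : ℝ) ≤ (S' : ℝ) ^ 2 := by positivity
      nlinarith
    have e2 : (((Icc 1 L).card : ℕ) : ℝ) * (B / (L * B)) * (S' : ℝ) ^ 2 = (S' : ℝ) ^ 2 := by
      rw [Nat.card_Icc, Nat.add_sub_cancel]
      field_simp
    rw [e2]
    have e3 : (∑ g ∈ Icc 1 L, (1 : ℝ) / g) * (θ * (S' : ℝ) ^ 2 + (1 + θ) * ((((range S' ×ˢ range S').filter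
        (fun z => ((p.Ph t t z.1 z.2).natAbs : ℝ) < L * B)).card : ℕ) : ℝ)) ≤
        (1 + Real.log L) * (3 * (S' : ℝ) ^ 2) := by
      refine mul_le_mul hharm e1 ?_ (by linarith)
      have : (0 : ℝ) ≤ 1 + θ := by linarith
      positivity
    linarith

end Pool.Agent.Lib.TSq
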