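import Pool.Agent.Lib.TSq.Dens

/-!
TSq.Scale (about 2 h). All `n` with `ord₂(n)` odd. Imports are black boxes (`dens`).

PROOF. `scale_rep`: `n = 4^j n'` with `n' % 4 = 2` (`ord₂(n) = 2j + 1`; `n' = n/4^j`). From `n' = x²+y²+z²`, `x+3y+5z = 2ck²`, `k ≤ M`, one gets
`n = (2^j x)² + (2^j y)² + (2^j z)²` and `2^j x + 3·2^j y + 5·2^j z = 2^j·2ck²`. For a square: if `j = 2i` take `c = 2`:
`4^i·4k² = (2^(i+1) k)²`; if `j = 2i+1` take `c = 1`: `2^(2i+1)·2k² = (2^(i+1) k)²`. For twice a square: `j = 2i`, `c = 1`: `4^i·2k² = 2(2^i k)²`;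
`j = 2i+1`, `c = 2`: `2^(2i+1)·4k² = 2(2^(i+1)k)²`. All factors of `k` are `≤ 2^(j+1)`.
So if `¬ Good (2^(j+1) M) n` then `¬ Rep 1 M n'` or `¬ Rep 2 M n'`.
`almost_all`: apply `dens` for `δ/2`, `ε/8`, `c = 1, 2`; `C, C'` the maxima of the two constants (`Rep.mono`, `(log n)^.. ≥ 0`), `C ≥ 0`. Choose `J` with
`4^{-J} ≤ ε/8`. Let `n = 4^j n' ≤ N` be an element of `B`. If `j ≥ J`: these `n` are divisible by `4^J`, at most
`N/4^J ≤ (ε/8) N` of them. If `j < J`: for `n ≥ n₁` (at most `n₁` other numbers) one has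
`2^(j+1) C (log n')^(1+δ/2) ≤ 2^(J+1) C (log n)^(1+δ/2) ≤ (log n)^(1+δ)`, so `¬ Rep 1 (C (log n')^(1+δ/2)) n'` or `¬ Rep 2 (..) n'`;
by `dens` for each `j < J` at most `2((ε/8) N/4^j + C')` such `n` (injectivity of `n' ↦ 4^j n'`; `n' ≤ N/4^j`). Total
`≤ (ε/8) N + n₁ + (ε/4) N ∑ 4^{-j} + 2J C' ≤ (ε/8 + ε/3) N + const ≤ εN` for large `N`.
-/

open Finset

namespace Pool.Agent.Lib.TSq

/-- `n = x² + y² + z²` with `x + 3y + 5z = k²`, `0 ≤ k ≤ M`, and `n = x² + y² + z²` with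
`x + 3y + 5z = 2k²`, `0 ≤ k ≤ M` -/
def Good (M : ℝ) (n : ℕ) : Prop :=
  (∃ (x y z : ℤ) (k : ℕ), (k : ℝ) ≤ M ∧ (n : ℤ) = x ^ 2 + y ^ 2 + z ^ 2 ∧
    x + 3 * y + 5 * z = (k : ℤ) ^ 2) ∧
  (∃ (x y z : ℤ) (k : ℕ), (k : ℝ) ≤ M ∧ (n : ℤ) = x ^ 2 + y ^ 2 + z ^ 2 ∧
    x + 3 * y + 5 * z = 2 * (k : ℤ) ^ 2)

namespace ScaleAux

theorem good_of {j n' : ℕ} {M : ℝ} (h : Rep 1 M n') (h2 : Rep 2 M n') :
    Good (2 ^ (j + 1) * M) (4 ^ j * n') := by
  obtain ⟨x, y, z, k, hk, hn, hl⟩ := h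
  obtain ⟨x', y', z', k', hk', hn', hl'⟩ := h2
  have key : ∀ i, i ≤ j + 1 → ∀ k : ℕ, (k : ℝ) ≤ M →
      ((2 ^ i * k : ℕ) : ℝ) ≤ 2 ^ (j + 1) * M := by
    intro i hi k hk
    push_cast
    exact mul_le_mul (pow_le_pow_right₀ (by norm_num) hi) hk (Nat.cast_nonneg _) (by positivity)
  have h4 : (4 : ℤ) ^ j = (2 ^ j) ^ 2 := by
    rw [← pow_mul, mul_comm, pow_mul]; norm_num
  have en : ((4 ^ j * n' : ℕ) : ℤ) = (2 ^ j * x) ^ 2 + (2 ^ j * y) ^ 2 + (2 ^ j * z) ^ 2 := by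
    push_cast
    rw [hn, h4]; ring
  have en' : ((4 ^ j * n' : ℕ) : ℤ) = (2 ^ j * x') ^ 2 + (2 ^ j * y') ^ 2 + (2 ^ j * z') ^ 2 := by
    push_cast
    rw [hn', h4]; ring
  push_cast at hl hl'
  rcases Nat.even_or_odd' j with ⟨i, hi | hi⟩
  · refine ⟨⟨2 ^ j * x', 2 ^ j * y', 2 ^ j * z', 2 ^ (i + 1) * k', key _ (by omega) _ hk', en', ?_⟩,
      ⟨2 ^ j * x, 2 ^ j * y, 2 ^ j * z, 2 ^ i * k, key _ (by omega) _ hk, en, ?_⟩⟩
    · push_cast
      rw [hi]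
      linear_combination (2 : ℤ) ^ (2 * i) * hl'
    · push_cast
      rw [hi]
      linear_combination (2 : ℤ) ^ (2 * i) * hl
  · refine ⟨⟨2 ^ j * x, 2 ^ j * y, 2 ^ j * z, 2 ^ (i + 1) * k, key _ (by omega) _ hk, en, ?_⟩,
      ⟨2 ^ j * x', 2 ^ j * y', 2 ^ j * z', 2 ^ (i + 1) * k', key _ (by omega) _ hk', en', ?_⟩⟩
    · push_cast
      rw [hi]
      linear_combination (2 : ℤ) ^ (2 * i + 1) * hl
    · push_cast
      rw [hi]
      linear_combination (2 : ℤ) ^ (2 * i + 1) * hl'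

theorem rpow_log_nonneg {n : ℕ} (s : ℝ) : 0 ≤ (Real.log n) ^ s :=
  Real.rpow_nonneg (Real.log_natCast_nonneg n) s

theorem geom_le (J : ℕ) : ∑ j ∈ range J, (1 / 4 : ℝ) ^ j ≤ 2 := by
  have h : ∀ J : ℕ, ∑ j ∈ range J, (1 / 4 : ℝ) ^ j ≤ 2 - 2 * (1 / 4 : ℝ) ^ J := by
    intro J
    induction J with
    | zero => norm_num
    | succ J ih =>
      rw [Finset.sum_range_succ, pow_succ]
      have : (0 : ℝ) < (1 / 4 : ℝ) ^ J := by positivity
      linarith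
  have h1 := h J
  have : (0 : ℝ) < (1 / 4 : ℝ) ^ J := by positivity
  linarith

theorem card_mult (q N : ℕ) (hq : 0 < q) (B : Finset ℕ) (hB : ∀ n ∈ B, 0 < n ∧ n ≤ N ∧ q ∣ n) :
    B.card ≤ N / q := by
  have h1 : B ⊆ (Finset.Icc 1 (N / q)).image (fun m => q * m) := by
    intro n hn
    obtain ⟨h0, hN, m, rfl⟩ := hB n hn
    refine Finset.mem_image.2 ⟨m, Finset.mem_Icc.2 ⟨?_, ?_⟩, rfl⟩
    · exact Nat.pos_of_mul_pos_left h0
    · rw [Nat.le_div_iff_mul_le hq, mul_comm]; exact hN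
  refine (Finset.card_le_card h1).trans (Finset.card_image_le.trans ?_)
  simp

end ScaleAux

open ScaleAux in
theorem scale_rep {n : ℕ} (hn : 0 < n) (ho : Odd (padicValNat 2 n)) :
    ∃ j n' : ℕ, n = 4 ^ j * n' ∧ n' % 4 = 2 ∧ ∀ M : ℝ, 0 ≤ M → Rep 1 M n' → Rep 2 M n' →
      Good (2 ^ (j + 1) * M) n := by
  obtain ⟨j, hj⟩ := ho
  obtain ⟨m, hm, hd⟩ : ∃ m, n = 2 ^ (padicValNat 2 n) * m ∧ ¬ 2 ∣ m := by
    obtain ⟨m, hm⟩ := (pow_padicValNat_dvd (p := 2) (n := n))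
    refine ⟨m, hm, fun h => ?_⟩
    obtain ⟨m', rfl⟩ := h
    have h1 : 2 ^ (padicValNat 2 n + 1) ∣ n := ⟨m', by rw [pow_succ, mul_assoc]; exact hm⟩
    exact pow_succ_padicValNat_not_dvd hn.ne' h1
  refine ⟨j, 2 * m, ?_, ?_, fun M hM h1 h2 => ?_⟩
  · rw [hm, hj, pow_succ, pow_mul]; norm_num; ring
  · omega
  · have e : n = 4 ^ j * (2 * m) := by
      conv_lhs => rw [hm, hj, pow_succ, pow_mul]
      norm_num; ring
    rw [e]
    exact good_of h1 h2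

open ScaleAux in
theorem almost_all {δ ε : ℝ} (hδ : 0 < δ) (hε : 0 < ε) : ∃ N₀ : ℕ, ∀ N : ℕ, N₀ ≤ N →
    ∀ B : Finset ℕ, (∀ n ∈ B, 0 < n ∧ n ≤ N ∧ Odd (padicValNat 2 n) ∧
      ¬ Good ((Real.log n) ^ (1 + δ)) n) → (B.card : ℝ) ≤ ε * N := by
  classical
  obtain ⟨C1, C1', h1⟩ := dens (δ := δ / 2) (ε := ε / 8) (by positivity) (by positivity)
    (c := 1) (Or.inl rfl)
  obtain ⟨C2, C2', h2⟩ := dens (δ := δ / 2) (ε := ε / 8) (by positivity) (by positivity)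
    (c := 2) (Or.inr rfl)
  set C : ℝ := max (max C1 C2) 0 with hC
  set C' : ℝ := max (max C1' C2') 0 with hC'
  have hC0 : 0 ≤ C := le_max_right _ _
  have hC'0 : 0 ≤ C' := le_max_right _ _
  have hd : ∀ c, c = 1 ∨ c = 2 → ∀ N : ℕ, ∀ B : Finset ℕ,
      (∀ n ∈ B, n % 4 = 2 ∧ ¬ Rep c (C * (Real.log n) ^ (1 + δ / 2)) n ∧ n ≤ N) →
      (B.card : ℝ) ≤ ε / 8 * N + C' := by
    intro c hc N B hB
    rcases hc with rfl | rfl
    · refine (h1 N B fun n hn => ⟨(hB n hn).1, fun h => (hB n hn).2.1 (h.mono ?_),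
        (hB n hn).2.2⟩).trans ?_
      · exact mul_le_mul_of_nonneg_right ((le_max_left _ _).trans (le_max_left _ _))
          (rpow_log_nonneg _)
      · have : C1' ≤ C' := (le_max_left _ _).trans (le_max_left _ _)
        linarith
    · refine (h2 N B fun n hn => ⟨(hB n hn).1, fun h => (hB n hn).2.1 (h.mono ?_),
        (hB n hn).2.2⟩).trans ?_
      · exact mul_le_mul_of_nonneg_right ((le_max_right _ _).trans (le_max_left _ _))
          (rpow_log_nonneg _)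
      · have : C2' ≤ C' := (le_max_right _ _).trans (le_max_left _ _)
        linarith
  obtain ⟨J, hJ⟩ := exists_pow_lt_of_lt_one (show (0 : ℝ) < ε / 8 by positivity)
    (show (1 / 4 : ℝ) < 1 by norm_num)
  -- the threshold
  obtain ⟨n₁, hn₁⟩ : ∃ n₁ : ℕ, ∀ n : ℕ, n₁ ≤ n →
      2 ^ (J + 1) * (C * (Real.log n) ^ (1 + δ / 2)) ≤ (Real.log n) ^ (1 + δ) := by
    have ht : Filter.Tendsto (fun n : ℕ => (Real.log n) ^ (δ / 2)) Filter.atTop Filter.atTop :=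
      (tendsto_rpow_atTop (by positivity)).comp
        (Real.tendsto_log_atTop.comp tendsto_natCast_atTop_atTop)
    have h3 := ht.eventually_ge_atTop (2 ^ (J + 1) * C)
    obtain ⟨n₁, hn₁⟩ := Filter.eventually_atTop.1 (h3.and (Filter.eventually_ge_atTop 2))
    refine ⟨n₁, fun n hn => ?_⟩
    obtain ⟨h4, h5⟩ := hn₁ n hn
    have hlog : 0 < Real.log n := Real.log_pos (by exact_mod_cast (by omega : 1 < n))
    have e : (Real.log n) ^ (1 + δ) = (Real.log n) ^ (δ / 2) * (Real.log n) ^ (1 + δ / 2) := by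
      rw [← Real.rpow_add hlog]; congr 1; ring
    rw [e, ← mul_assoc]
    exact mul_le_mul_of_nonneg_right h4 (rpow_log_nonneg _)
  obtain ⟨N₀, hN₀⟩ := exists_nat_ge ((n₁ + 2 * J * C') / (ε / 4))
  refine ⟨N₀, fun N hN B hB => ?_⟩
  -- the covering
  let Bjc : ℕ → ℕ → Finset ℕ := fun j c => (range (N / 4 ^ j + 1)).filter
    (fun n => n % 4 = 2 ∧ ¬ Rep c (C * (Real.log n) ^ (1 + δ / 2)) n)
  have hBjc : ∀ j c, c = 1 ∨ c = 2 →
      ((Bjc j c).card : ℝ) ≤ ε / 8 * ((1 / 4 : ℝ) ^ j * N) + C' := by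
    intro j c hc
    refine (hd c hc (N / 4 ^ j) (Bjc j c) fun n hn => ?_).trans ?_
    · obtain ⟨h3, h4, h5⟩ := Finset.mem_filter.1 hn
      exact ⟨h4, h5, Nat.lt_succ_iff.1 (Finset.mem_range.1 h3)⟩
    · have h3 : ((N / 4 ^ j : ℕ) : ℝ) ≤ (1 / 4 : ℝ) ^ j * N := by
        refine Nat.cast_div_le.trans ?_
        push_cast
        rw [one_div, inv_pow]
        apply le_of_eq
        field_simp
      have := mul_le_mul_of_nonneg_left h3 (show 0 ≤ ε / 8 by positivity)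
      linarith
  let Bd : Finset ℕ := B.filter (fun n => 4 ^ J ∣ n)
  have hBd : (Bd.card : ℝ) ≤ ε / 8 * N := by
    have h3 : Bd.card ≤ N / 4 ^ J := card_mult _ _ (by positivity) _ fun n hn => by
      obtain ⟨h3, h4⟩ := Finset.mem_filter.1 hn
      exact ⟨(hB n h3).1, (hB n h3).2.1, h4⟩
    calc (Bd.card : ℝ) ≤ ((N / 4 ^ J : ℕ) : ℝ) := by exact_mod_cast h3
      _ ≤ (N : ℝ) / ((4 ^ J : ℕ) : ℝ) := Nat.cast_div_le
      _ = (1 / 4 : ℝ) ^ J * N := by push_cast; rw [one_div, inv_pow]; field_simp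
      _ ≤ ε / 8 * N := mul_le_mul_of_nonneg_right hJ.le (Nat.cast_nonneg _)
  have hcov : B ⊆ (range n₁ ∪ Bd) ∪ (range J).biUnion (fun j =>
      (Bjc j 1).image (fun n => 4 ^ j * n) ∪ (Bjc j 2).image (fun n => 4 ^ j * n)) := by
    intro n hn
    obtain ⟨hn0, hnN, hno, hng⟩ := hB n hn
    rw [Finset.mem_union, Finset.mem_union]
    by_cases hlt : n < n₁
    · exact Or.inl (Or.inl (Finset.mem_range.2 hlt))
    push Not at hlt
    obtain ⟨j, n', hnj, hn4, hgood⟩ := scale_rep hn0 hno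
    by_cases hjJ : J ≤ j
    · refine Or.inl (Or.inr (Finset.mem_filter.2 ⟨hn, ?_⟩))
      rw [hnj]
      exact Dvd.dvd.mul_right (pow_dvd_pow 4 hjJ) _
    push Not at hjJ
    refine Or.inr (Finset.mem_biUnion.2 ⟨j, Finset.mem_range.2 hjJ, ?_⟩)
    have hn'0 : 0 < n' := by omega
    have hn'n : n' ≤ n := by
      rw [hnj]; exact Nat.le_mul_of_pos_left _ (by positivity)
    have hrange : n' ∈ range (N / 4 ^ j + 1) := by
      rw [Finset.mem_range, Nat.lt_succ_iff, Nat.le_div_iff_mul_le (by positivity), mul_comm,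
        ← hnj]
      exact hnN
    have hM0 : 0 ≤ C * (Real.log n') ^ (1 + δ / 2) := mul_nonneg hC0 (rpow_log_nonneg _)
    have hor : ¬ Rep 1 (C * (Real.log n') ^ (1 + δ / 2)) n' ∨
        ¬ Rep 2 (C * (Real.log n') ^ (1 + δ / 2)) n' := by
      by_contra hcon
      push Not at hcon
      have hg := hgood _ hM0 hcon.1 hcon.2
      apply hng
      have hle : 2 ^ (j + 1) * (C * (Real.log n') ^ (1 + δ / 2)) ≤ (Real.log n) ^ (1 + δ) := by
        refine le_trans ?_ (hn₁ n hlt)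
        refine mul_le_mul (pow_le_pow_right₀ (by norm_num) (by omega)) ?_ hM0 (by positivity)
        refine mul_le_mul_of_nonneg_left ?_ hC0
        refine Real.rpow_le_rpow (Real.log_natCast_nonneg n') ?_ (by positivity)
        exact Real.log_le_log (by exact_mod_cast hn'0) (by exact_mod_cast hn'n)
      obtain ⟨⟨x, y, z, k, hk, h3, h4⟩, ⟨x', y', z', k', hk', h3', h4'⟩⟩ := hg
      exact ⟨⟨x, y, z, k, hk.trans hle, h3, h4⟩, ⟨x', y', z', k', hk'.trans hle, h3', h4'⟩⟩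
    rw [Finset.mem_union]
    rcases hor with h | h
    · exact Or.inl (Finset.mem_image.2 ⟨n', Finset.mem_filter.2 ⟨hrange, hn4, h⟩, hnj.symm⟩)
    · exact Or.inr (Finset.mem_image.2 ⟨n', Finset.mem_filter.2 ⟨hrange, hn4, h⟩, hnj.symm⟩)
  have hcard : (B.card : ℝ) ≤ (n₁ + ε / 8 * N) +
      ∑ j ∈ range J, 2 * (ε / 8 * ((1 / 4 : ℝ) ^ j * N) + C') := by
    have e1 := Finset.card_le_card hcov
    have e2 := Finset.card_union_le (range n₁ ∪ Bd) ((range J).biUnion (fun j =>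
      (Bjc j 1).image (fun n => 4 ^ j * n) ∪ (Bjc j 2).image (fun n => 4 ^ j * n)))
    have e3 := Finset.card_union_le (range n₁) Bd
    have e4 : (((range J).biUnion (fun j =>
      (Bjc j 1).image (fun n => 4 ^ j * n) ∪ (Bjc j 2).image (fun n => 4 ^ j * n))).card : ℝ) ≤
        ∑ j ∈ range J, 2 * (ε / 8 * ((1 / 4 : ℝ) ^ j * N) + C') := by
      have e5 := Finset.card_biUnion_le (s := range J) (t := fun j =>
        (Bjc j 1).image (fun n => 4 ^ j * n) ∪ (Bjc j 2).image (fun n => 4 ^ j * n))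
      calc _ ≤ ((∑ j ∈ range J, ((Bjc j 1).image (fun n => 4 ^ j * n) ∪
              (Bjc j 2).image (fun n => 4 ^ j * n)).card : ℕ) : ℝ) := by exact_mod_cast e5
        _ ≤ _ := by
          push_cast
          refine Finset.sum_le_sum fun j _ => ?_
          have f1 := Finset.card_union_le ((Bjc j 1).image (fun n => 4 ^ j * n))
            ((Bjc j 2).image (fun n => 4 ^ j * n))
          have f2 : ((Bjc j 1).image (fun n => 4 ^ j * n)).card ≤ (Bjc j 1).card :=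
            Finset.card_image_le
          have f3 : ((Bjc j 2).image (fun n => 4 ^ j * n)).card ≤ (Bjc j 2).card :=
            Finset.card_image_le
          have f4 := hBjc j 1 (Or.inl rfl)
          have f5 := hBjc j 2 (Or.inr rfl)
          have f6 : ((((Bjc j 1).image (fun n => 4 ^ j * n) ∪
              (Bjc j 2).image (fun n => 4 ^ j * n)).card : ℕ) : ℝ) ≤
              ((Bjc j 1).card : ℝ) + ((Bjc j 2).card : ℝ) := by
            exact_mod_cast f1.trans (add_le_add f2 f3)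
          linarith
    have e6 : (B.card : ℝ) ≤ ((range n₁).card : ℝ) + (Bd.card : ℝ) + (((range J).biUnion (fun j =>
      (Bjc j 1).image (fun n => 4 ^ j * n) ∪ (Bjc j 2).image (fun n => 4 ^ j * n))).card : ℝ) := by
      exact_mod_cast e1.trans (e2.trans (Nat.add_le_add_right e3 _))
    rw [Finset.card_range] at e6
    linarith
  have hsum : ∑ j ∈ range J, 2 * (ε / 8 * ((1 / 4 : ℝ) ^ j * N) + C') ≤
      ε / 2 * N + 2 * J * C' := by
    have e1 : ∑ j ∈ range J, 2 * (ε / 8 * ((1 / 4 : ℝ) ^ j * N) + C') =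
        ε / 4 * N * ∑ j ∈ range J, (1 / 4 : ℝ) ^ j + J * (2 * C') := by
      have e0 : ∀ j ∈ range J, 2 * (ε / 8 * ((1 / 4 : ℝ) ^ j * N) + C') =
          ε / 4 * N * (1 / 4 : ℝ) ^ j + 2 * C' := fun j _ => by ring
      rw [Finset.sum_congr rfl e0, Finset.sum_add_distrib, ← Finset.mul_sum, Finset.sum_const,
        Finset.card_range, nsmul_eq_mul]
    rw [e1]
    have e2 := mul_le_mul_of_nonneg_left (geom_le J) (show 0 ≤ ε / 4 * (N : ℝ) by positivity)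
    linarith
  have hfin : (n₁ : ℝ) + 2 * J * C' ≤ ε / 4 * N := by
    have e1 : (n₁ + 2 * J * C') / (ε / 4) ≤ (N : ℝ) := hN₀.trans (by exact_mod_cast hN)
    rw [div_le_iff₀ (by positivity)] at e1
    linarith
  have hNn : (0 : ℝ) ≤ ε * N := by positivity
  linarith

end Pool.Agent.Lib.TSq
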