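import Pool.Agent.Lib.TSq.Defs

/-!
TSq.Second (about 1.5 h). The pairs of triples with the same value. Imports are black boxes (`six_eq_iff`).

PROOF. Let `((t₁,s₁,v₁),(t₂,s₂,v₂))` be counted by `S2`. By `six_eq_iff`,
`(v₁ - v₂)(u + E(v₁+v₂)) = Φ(t₁,t₂,s₁,s₂)`.  Fix `(t₁,t₂)` (`Finset.card_eq_sum_card_fiberwise` over `(t₁,t₂)`, or
`card_le_card_of_injOn` into a `Finset.sigma`).
`v₁ = v₂`: then `Φ = 0`; the pair is determined by `(s₁,s₂)` and `v₁ ∈ Ico V (V+L)`: at most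
`L #{(s₁,s₂) : Φ = 0}` pairs.
`v₁ = v₂ + d`, `1 ≤ d ≤ L` : `Φ = d(u + Ed) + 2Ed v₂`, so `2Ed ∣ Φ - d(u+Ed)`, and
`2EV ≤ u + E(v₁+v₂) < 2E(V+L)` (`v₁ + v₂ ≤ 2(V+L-1)`, `u < 2E`): `(s₁,s₂) ∈ Nset d 1`; `v₂` is determined by `(s₁,s₂)` and `d`.
`v₂ = v₁ + d`: the same with `-Φ = d(u + Ed) + 2Ed v₁`: `(s₁,s₂) ∈ Nset d (-1)`.
-/

open Finset

namespace Pool.Agent.Lib.TSq

open Par

namespace SecondAux

theorem cardZero {p : Par} (hp : p.OK) (K S V L t₁ t₂ : ℕ) :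
    (((TT K S V L ×ˢ TT K S V L).filter (fun w =>
      p.six w.1.1 w.1.2.1 w.1.2.2 = p.six w.2.1 w.2.2.1 w.2.2.2)).filter
        (fun w => (w.1.1 = t₁ ∧ w.2.1 = t₂) ∧ w.1.2.2 = w.2.2.2)).card ≤
      L * ((range S ×ˢ range S).filter (fun z => p.Ph t₁ t₂ z.1 z.2 = 0)).card := by
  have h0 : L * ((range S ×ˢ range S).filter (fun z => p.Ph t₁ t₂ z.1 z.2 = 0)).card =
      ((Ico V (V + L)) ×ˢ ((range S ×ˢ range S).filter
        (fun z => p.Ph t₁ t₂ z.1 z.2 = 0))).card := by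
    rw [card_product, Nat.card_Ico]
    congr 1
    omega
  rw [h0]
  refine card_le_card_of_injOn (fun w => (w.1.2.2, (w.1.2.1, w.2.2.1))) ?_ ?_
  · intro w hw
    obtain ⟨⟨a1, a2, a3⟩, ⟨b1, b2, b3⟩⟩ := w
    simp only [TT, coe_filter, mem_filter, mem_product, mem_range, mem_Ico, Set.mem_setOf_eq] at hw
    obtain ⟨⟨⟨⟨h1, h2, h3⟩, h4, h5, h6⟩, h7⟩, ⟨h8, h9⟩, h10⟩ := hw
    subst h8 h9 h10
    simp only [coe_product, Set.mem_prod, mem_coe, mem_Ico, mem_filter, mem_product, mem_range]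
    refine ⟨h3, ⟨h2, h5⟩, ?_⟩
    rw [six_eq_iff p hp.hE] at h7
    rw [← h7]
    ring
  · intro w hw w' hw' he
    obtain ⟨⟨a1, a2, a3⟩, ⟨b1, b2, b3⟩⟩ := w
    obtain ⟨⟨c1, c2, c3⟩, ⟨d1, d2, d3⟩⟩ := w'
    simp only [TT, coe_filter, mem_filter, mem_product, mem_range, mem_Ico, Set.mem_setOf_eq]
      at hw hw'
    simp only [Prod.mk.injEq] at he ⊢
    obtain ⟨_, ⟨h8, h9⟩, h10⟩ := hw
    obtain ⟨_, ⟨k8, k9⟩, k10⟩ := hw'
    obtain ⟨e1, e2, e3⟩ := he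
    refine ⟨⟨?_, ?_, ?_⟩, ?_, ?_, ?_⟩ <;> omega

theorem cardPos {p : Par} (hp : p.OK) (K S V L t₁ t₂ d : ℕ) (hd : 1 ≤ d) :
    (((TT K S V L ×ˢ TT K S V L).filter (fun w =>
      p.six w.1.1 w.1.2.1 w.1.2.2 = p.six w.2.1 w.2.2.1 w.2.2.2)).filter
        (fun w => (w.1.1 = t₁ ∧ w.2.1 = t₂) ∧ w.1.2.2 = w.2.2.2 + d)).card ≤
      (p.Nset t₁ t₂ S V L d 1).card := by
  refine card_le_card_of_injOn (fun w => (w.1.2.1, w.2.2.1)) ?_ ?_
  · intro w hw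
    obtain ⟨⟨a1, a2, a3⟩, ⟨b1, b2, b3⟩⟩ := w
    simp only [TT, coe_filter, mem_filter, mem_product, mem_range, mem_Ico, Set.mem_setOf_eq] at hw
    obtain ⟨⟨⟨⟨h1, h2, h3⟩, h4, h5, h6⟩, h7⟩, ⟨h8, h9⟩, h10⟩ := hw
    subst h8 h9 h10
    rw [six_eq_iff p hp.hE] at h7
    push_cast at h7
    have hPh : p.Ph a1 b1 a2 b2 = d * (p.u + p.E * (2 * b3 + d)) := by
      rw [← h7]; ring
    have hu := hp.hu
    have hE := hp.hE
    have hd' : (0 : ℤ) < d := by exact_mod_cast hd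
    have hE' : (0 : ℤ) < p.E := by exact_mod_cast hE
    have hu' : (p.u : ℤ) < 2 * p.E := by exact_mod_cast hu
    have hu0 : (0 : ℤ) ≤ p.u := by positivity
    simp only [Nset, coe_filter, mem_product, mem_range, Set.mem_setOf_eq]
    refine ⟨⟨h2, h5⟩, ?_, ?_, ?_⟩
    · rw [hPh]
      refine ⟨b3, ?_⟩
      push_cast
      ring
    · rw [hPh]
      have h61 : (V : ℤ) ≤ b3 := by exact_mod_cast h6.1
      have : 2 * (p.E : ℤ) * V ≤ p.u + p.E * (2 * b3 + d) := by nlinarith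
      nlinarith
    · rw [hPh]
      have h31 : (b3 : ℤ) + d + 1 ≤ V + L := by exact_mod_cast h3.2
      have : p.u + p.E * (2 * b3 + d) < 2 * (p.E : ℤ) * (V + L) := by nlinarith
      nlinarith
  · intro w hw w' hw' he
    obtain ⟨⟨a1, a2, a3⟩, ⟨b1, b2, b3⟩⟩ := w
    obtain ⟨⟨c1, c2, c3⟩, ⟨d1, d2, d3⟩⟩ := w'
    simp only [TT, coe_filter, mem_filter, mem_product, mem_range, mem_Ico, Set.mem_setOf_eq]
      at hw hw'
    simp only [Prod.mk.injEq] at he ⊢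
    obtain ⟨⟨_, h7⟩, ⟨h8, h9⟩, h10⟩ := hw
    obtain ⟨⟨_, k7⟩, ⟨k8, k9⟩, k10⟩ := hw'
    obtain ⟨e2, e3⟩ := he
    subst h8 h9 k8 k9 e2 e3 h10 k10
    rw [six_eq_iff p hp.hE] at h7 k7
    push_cast at h7 k7
    have hd' : (0 : ℤ) < d := by exact_mod_cast hd
    have hE' : (0 : ℤ) < p.E := by exact_mod_cast hp.hE
    have h1 : (d : ℤ) * p.E * (2 * b3) = d * p.E * (2 * d3) := by linarith
    have h2 : (2 * b3 : ℤ) = 2 * d3 := mul_left_cancel₀ (by positivity) h1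
    have h3 : b3 = d3 := by omega
    subst h3
    simp

theorem cardNeg {p : Par} (hp : p.OK) (K S V L t₁ t₂ d : ℕ) (hd : 1 ≤ d) :
    (((TT K S V L ×ˢ TT K S V L).filter (fun w =>
      p.six w.1.1 w.1.2.1 w.1.2.2 = p.six w.2.1 w.2.2.1 w.2.2.2)).filter
        (fun w => (w.1.1 = t₁ ∧ w.2.1 = t₂) ∧ w.2.2.2 = w.1.2.2 + d)).card ≤
      (p.Nset t₁ t₂ S V L d (-1)).card := by
  refine card_le_card_of_injOn (fun w => (w.1.2.1, w.2.2.1)) ?_ ?_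
  · intro w hw
    obtain ⟨⟨a1, a2, a3⟩, ⟨b1, b2, b3⟩⟩ := w
    simp only [TT, coe_filter, mem_filter, mem_product, mem_range, mem_Ico, Set.mem_setOf_eq] at hw
    obtain ⟨⟨⟨⟨h1, h2, h3⟩, h4, h5, h6⟩, h7⟩, ⟨h8, h9⟩, h10⟩ := hw
    subst h8 h9 h10
    rw [six_eq_iff p hp.hE] at h7
    push_cast at h7
    have hPh : (-1 : ℤ) * p.Ph a1 b1 a2 b2 = d * (p.u + p.E * (2 * a3 + d)) := by
      rw [← h7]; ring
    have hu := hp.hu
    have hE := hp.hE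
    have hd' : (0 : ℤ) < d := by exact_mod_cast hd
    have hE' : (0 : ℤ) < p.E := by exact_mod_cast hE
    have hu' : (p.u : ℤ) < 2 * p.E := by exact_mod_cast hu
    have hu0 : (0 : ℤ) ≤ p.u := by positivity
    simp only [Nset, coe_filter, mem_product, mem_range, Set.mem_setOf_eq]
    refine ⟨⟨h2, h5⟩, ?_, ?_, ?_⟩
    · rw [hPh]
      refine ⟨a3, ?_⟩
      push_cast
      ring
    · rw [hPh]
      have h61 : (V : ℤ) ≤ a3 := by exact_mod_cast h3.1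
      have : 2 * (p.E : ℤ) * V ≤ p.u + p.E * (2 * a3 + d) := by nlinarith
      nlinarith
    · rw [hPh]
      have h31 : (a3 : ℤ) + d + 1 ≤ V + L := by exact_mod_cast h6.2
      have : p.u + p.E * (2 * a3 + d) < 2 * (p.E : ℤ) * (V + L) := by nlinarith
      nlinarith
  · intro w hw w' hw' he
    obtain ⟨⟨a1, a2, a3⟩, ⟨b1, b2, b3⟩⟩ := w
    obtain ⟨⟨c1, c2, c3⟩, ⟨d1, d2, d3⟩⟩ := w'
    simp only [TT, coe_filter, mem_filter, mem_product, mem_range, mem_Ico, Set.mem_setOf_eq]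
      at hw hw'
    simp only [Prod.mk.injEq] at he ⊢
    obtain ⟨⟨_, h7⟩, ⟨h8, h9⟩, h10⟩ := hw
    obtain ⟨⟨_, k7⟩, ⟨k8, k9⟩, k10⟩ := hw'
    obtain ⟨e2, e3⟩ := he
    subst h8 h9 k8 k9 e2 e3 h10 k10
    rw [six_eq_iff p hp.hE] at h7 k7
    push_cast at h7 k7
    have hd' : (0 : ℤ) < d := by exact_mod_cast hd
    have hE' : (0 : ℤ) < p.E := by exact_mod_cast hp.hE
    have h1 : (d : ℤ) * p.E * (2 * a3) = d * p.E * (2 * c3) := by linarith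
    have h2 : (2 * a3 : ℤ) = 2 * c3 := mul_left_cancel₀ (by positivity) h1
    have h3 : a3 = c3 := by omega
    subst h3
    simp

end SecondAux

theorem S2_le {p : Par} (hp : p.OK) (K S V L : ℕ) :
    p.S2 K S V L ≤ ∑ t ∈ range K ×ˢ range K,
      (L * ((range S ×ˢ range S).filter (fun z => p.Ph t.1 t.2 z.1 z.2 = 0)).card +
        ∑ d ∈ Icc 1 L, ((p.Nset t.1 t.2 S V L d 1).card +
          (p.Nset t.1 t.2 S V L d (-1)).card)) := by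
  classical
  unfold S2
  set W := (TT K S V L ×ˢ TT K S V L).filter (fun w =>
      p.six w.1.1 w.1.2.1 w.1.2.2 = p.six w.2.1 w.2.2.1 w.2.2.2) with hW
  have hmaps : ∀ w ∈ W, (w.1.1, w.2.1) ∈ range K ×ˢ range K := by
    intro w hw
    obtain ⟨⟨a1, a2, a3⟩, ⟨b1, b2, b3⟩⟩ := w
    simp only [hW, TT, mem_filter, mem_product, mem_range] at hw ⊢
    exact ⟨hw.1.1.1, hw.1.2.1⟩
  rw [card_eq_sum_card_fiberwise (f := fun w => (w.1.1, w.2.1)) (t := range K ×ˢ range K)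
    (by intro w hw; exact hmaps w hw)]
  refine sum_le_sum fun t _ => ?_
  have hsub : W.filter (fun w => (w.1.1, w.2.1) = t) ⊆
      (W.filter (fun w => (w.1.1 = t.1 ∧ w.2.1 = t.2) ∧ w.1.2.2 = w.2.2.2)) ∪
      (Icc 1 L).biUnion (fun d =>
        (W.filter (fun w => (w.1.1 = t.1 ∧ w.2.1 = t.2) ∧ w.1.2.2 = w.2.2.2 + d)) ∪
        (W.filter (fun w => (w.1.1 = t.1 ∧ w.2.1 = t.2) ∧ w.2.2.2 = w.1.2.2 + d))) := by
    intro w hw
    rw [mem_filter] at hw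
    obtain ⟨hw1, hw2⟩ := hw
    have ht : w.1.1 = t.1 ∧ w.2.1 = t.2 := by rw [← hw2]; exact ⟨rfl, rfl⟩
    have hv : (V ≤ w.1.2.2 ∧ w.1.2.2 < V + L) ∧ (V ≤ w.2.2.2 ∧ w.2.2.2 < V + L) := by
      have h1 := (mem_filter.1 hw1).1
      simp only [TT, mem_product, mem_Ico] at h1
      exact ⟨h1.1.2.2, h1.2.2.2⟩
    rw [mem_union, mem_biUnion]
    rcases lt_trichotomy w.1.2.2 w.2.2.2 with h | h | h
    · right
      refine ⟨w.2.2.2 - w.1.2.2, ?_, ?_⟩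
      · rw [mem_Icc]; omega
      · rw [mem_union]
        right
        exact mem_filter.2 ⟨hw1, ht, by omega⟩
    · left
      exact mem_filter.2 ⟨hw1, ht, h⟩
    · right
      refine ⟨w.1.2.2 - w.2.2.2, ?_, ?_⟩
      · rw [mem_Icc]; omega
      · rw [mem_union]
        left
        exact mem_filter.2 ⟨hw1, ht, by omega⟩
  refine (card_le_card hsub).trans ((card_union_le _ _).trans ?_)
  refine Nat.add_le_add (SecondAux.cardZero hp K S V L t.1 t.2) ?_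
  refine card_biUnion_le.trans (sum_le_sum fun d hd => ?_)
  have hd1 : 1 ≤ d := (mem_Icc.1 hd).1
  exact (card_union_le _ _).trans (Nat.add_le_add (SecondAux.cardPos hp K S V L t.1 t.2 d hd1)
    (SecondAux.cardNeg hp K S V L t.1 t.2 d hd1))

end Pool.Agent.Lib.TSq
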