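import Pool.Agent.Lib.TSq.Second
import Pool.Agent.Lib.TSq.Pair

/-!
TSq.Total (about 1 h). Explicit upper bound for `S2`. Imports are black boxes (`S2_le`, `zero_same`, `zero_diff`, `pair_bound`,
`same_bound`, `ll_le`, `hh_le`).

PROOF. `S2_le` (cast to `ℝ`). Split the sum over `t ∈ [0,K)²` into `t₁ = t₂` (`K` terms) and `t₁ ≠ t₂` (at most `K²` terms).
With `lm = 16E²K²` (`ll_le`) and `|hh| ≤ 16E⁴K⁴` (`hh_le`):
`t₁ = t₂`: `#{Φ = 0} ≤ S` (`zero_same`) and `same_bound`. `t₁ ≠ t₂`: `#{Φ = 0} ≤ 2·24c²|hh| ≤ 3072E⁴K⁴` (`c ≤ 2`, `zero_diff`), and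
`pair_bound`; the sum of the `AA` is `≤ a` (`ha`; the factor `θS'² + 4S'r` is `≥ 0`).
-/

open Finset

namespace Pool.Agent.Lib.TSq

open Par

theorem S2_bound {p : Par} (hp : p.OK) {K S S' V L W r Φ₀ : ℕ} {θ a : ℝ}
    (hlS : 14 * (16 * p.E ^ 2 * K ^ 2) ≤ S)
    (hS' : S * V + 36 * p.E * S ^ 2 ≤ S' * V)
    (hW : 140 * p.E * S' + 26 * (16 * p.E ^ 2 * K ^ 2) ≤ W) (hWV : W < V)
    (h0 : 0 ≤ θ) (hθ1 : θ < 1) (hθ : (V : ℝ) + L + W ≤ (1 + θ) * ((V : ℝ) - W)) (hΦ : 0 < Φ₀)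
    (hr : Φ₀ + (13 * (16 * p.E ^ 2 * K ^ 2) * S' + 3 * (16 * p.E ^ 2 * K ^ 2) ^ 2) ≤
      35 * p.E * r ^ 2)
    (ha : ∑ t ∈ (range K ×ˢ range K).filter (fun t => t.1 ≠ t.2), p.AA t.1 t.2 ≤ a) :
    (p.S2 K S V L : ℝ) ≤
      L * (K * S + (K : ℝ) ^ 2 * (3072 * (p.E : ℝ) ^ 4 * (K : ℝ) ^ 4)) +
      K * (1 / (2 * p.E) * ((S' : ℝ) ^ 2 * (4 + 3 * Real.log L))) +
      1 / (2 * p.E) * (a * (θ * (S' : ℝ) ^ 2 + 4 * (S' * r)) +
        (K : ℝ) ^ 2 * ((16 * (p.E : ℝ) ^ 4 * (K : ℝ) ^ 4) *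
          (2 * p.E * ((V : ℝ) + L + W) / Φ₀) * (S' : ℝ) ^ 2)) := by
  have hE : 0 < p.E := hp.hE
  have hER : (0 : ℝ) < (p.E : ℝ) := by exact_mod_cast hE
  set P := range K ×ˢ range K with hPdef
  set N : ℕ × ℕ → ℝ := fun t => ∑ d ∈ Icc 1 L, (((p.Nset t.1 t.2 S V L d 1).card : ℝ) +
    (p.Nset t.1 t.2 S V L d (-1)).card) with hN
  set Z : ℕ × ℕ → ℝ := fun t =>
    (((range S ×ˢ range S).filter (fun z => p.Ph t.1 t.2 z.1 z.2 = 0)).card : ℝ) with hZ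
  have h1 : (p.S2 K S V L : ℝ) ≤ ∑ t ∈ P, ((L : ℝ) * Z t + N t) := by
    have h := S2_le hp K S V L
    have h' : (p.S2 K S V L : ℝ) ≤ ((∑ t ∈ range K ×ˢ range K,
      (L * ((range S ×ˢ range S).filter (fun z => p.Ph t.1 t.2 z.1 z.2 = 0)).card +
        ∑ d ∈ Icc 1 L, ((p.Nset t.1 t.2 S V L d 1).card +
          (p.Nset t.1 t.2 S V L d (-1)).card)) : ℕ) : ℝ) := by exact_mod_cast h
    refine h'.trans (le_of_eq ?_)
    push_cast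
    rfl
  have hVL : (0 : ℝ) ≤ (V : ℝ) + L + W := by positivity
  set X : ℝ := θ * (S' : ℝ) ^ 2 + 4 * (S' * r) with hX
  have hX0 : 0 ≤ X := by positivity
  set Y : ℝ := (2 * p.E * ((V : ℝ) + L + W) / Φ₀) with hY
  have hY0 : 0 ≤ Y := by positivity
  set D : ℝ := 1 / (2 * (p.E : ℝ)) with hD
  have hD0 : 0 ≤ D := by positivity
  have hsame : ∀ t ∈ P.filter (fun t => t.1 = t.2), (L : ℝ) * Z t + N t ≤
      L * S + D * ((S' : ℝ) ^ 2 * (4 + 3 * Real.log L)) := by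
    rintro ⟨t, t'⟩ ht
    obtain ⟨h2, h3⟩ := Finset.mem_filter.1 ht
    have h3' : t = t' := h3
    subst h3'
    have h4 : t < K := Finset.mem_range.1 (Finset.mem_product.1 h2).1
    have h5 : Z (t, t) ≤ S := by
      simp only [hZ]
      exact_mod_cast zero_same hp t S
    have h6 := same_bound hp (ll_le hp h4) hlS hS' hW hWV h0 hθ1 hθ
    have h7 : (L : ℝ) * Z (t, t) ≤ L * S := mul_le_mul_of_nonneg_left h5 (Nat.cast_nonneg _)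
    exact add_le_add h7 h6
  have hdiff : ∀ t ∈ P.filter (fun t => ¬ t.1 = t.2), (L : ℝ) * Z t + N t ≤
      L * (3072 * (p.E : ℝ) ^ 4 * (K : ℝ) ^ 4) + D * (p.AA t.1 t.2 * X +
        (16 * (p.E : ℝ) ^ 4 * (K : ℝ) ^ 4) * Y * (S' : ℝ) ^ 2) := by
    rintro ⟨t₁, t₂⟩ ht
    obtain ⟨h2, h3⟩ := Finset.mem_filter.1 ht
    have h3' : t₁ ≠ t₂ := h3
    have h4 : t₁ < K := Finset.mem_range.1 (Finset.mem_product.1 h2).1
    have h4' : t₂ < K := Finset.mem_range.1 (Finset.mem_product.1 h2).2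
    have hhn : (p.hh t₁ t₂).natAbs ≤ 16 * p.E ^ 4 * K ^ 4 := hh_le hp h4 h4'
    have h5 : Z (t₁, t₂) ≤ 3072 * (p.E : ℝ) ^ 4 * (K : ℝ) ^ 4 := by
      have h6 := zero_diff hp h3' S
      have h7 : p.c ^ 2 ≤ 4 := by
        rcases hp.c12 with h | h <;> rw [h] <;> norm_num
      have h8 : 2 * (24 * p.c ^ 2 * (p.hh t₁ t₂).natAbs) ≤ 3072 * p.E ^ 4 * K ^ 4 := by
        calc 2 * (24 * p.c ^ 2 * (p.hh t₁ t₂).natAbs)
            ≤ 2 * (24 * 4 * (16 * p.E ^ 4 * K ^ 4)) := by gcongr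
          _ = 3072 * p.E ^ 4 * K ^ 4 := by ring
      simp only [hZ]
      exact_mod_cast h6.trans h8
    have h6 := pair_bound hp h3' (ll_le hp h4) (ll_le hp h4') hlS hS' hW hWV h0 hθ1 hθ hΦ hr
    have h7 : (L : ℝ) * Z (t₁, t₂) ≤ L * (3072 * (p.E : ℝ) ^ 4 * (K : ℝ) ^ 4) :=
      mul_le_mul_of_nonneg_left h5 (Nat.cast_nonneg _)
    have h8 : ((p.hh t₁ t₂).natAbs : ℝ) ≤ 16 * (p.E : ℝ) ^ 4 * (K : ℝ) ^ 4 := by
      exact_mod_cast hhn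
    have h9 : N (t₁, t₂) ≤ D * (p.AA t₁ t₂ * X +
        (16 * (p.E : ℝ) ^ 4 * (K : ℝ) ^ 4) * Y * (S' : ℝ) ^ 2) := by
      refine h6.trans ?_
      apply mul_le_mul_of_nonneg_left _ hD0
      have h10 : ((p.hh t₁ t₂).natAbs : ℝ) * Y * (S' : ℝ) ^ 2 ≤
          (16 * (p.E : ℝ) ^ 4 * (K : ℝ) ^ 4) * Y * (S' : ℝ) ^ 2 := by gcongr
      exact add_le_add le_rfl h10
    exact add_le_add h7 h9
  have hc1 : ((P.filter (fun t => t.1 = t.2)).card : ℝ) ≤ K := by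
    have h2 : (P.filter (fun t => t.1 = t.2)).card ≤ (range K).card := by
      apply Finset.card_le_card_of_injOn (fun t => t.1)
      · intro t ht
        have h3 := Finset.mem_filter.1 (Finset.mem_coe.1 ht)
        exact Finset.mem_coe.2 (Finset.mem_product.1 h3.1).1
      · intro t ht t' ht' htt
        have h3 := (Finset.mem_filter.1 (Finset.mem_coe.1 ht)).2
        have h4 := (Finset.mem_filter.1 (Finset.mem_coe.1 ht')).2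
        exact Prod.ext htt (h3.symm.trans (Eq.trans htt h4))
    rw [Finset.card_range] at h2
    exact_mod_cast h2
  have hc2 : ((P.filter (fun t => ¬ t.1 = t.2)).card : ℝ) ≤ (K : ℝ) ^ 2 := by
    have h2 : (P.filter (fun t => ¬ t.1 = t.2)).card ≤ K ^ 2 := by
      refine (Finset.card_filter_le _ _).trans ?_
      rw [hPdef, Finset.card_product, Finset.card_range, sq]
    exact_mod_cast h2
  have hs1 : 0 ≤ L * (S : ℝ) + D * ((S' : ℝ) ^ 2 * (4 + 3 * Real.log L)) := by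
    have h2 : 0 ≤ Real.log (L : ℝ) := Real.log_natCast_nonneg L
    positivity
  have hs2 : 0 ≤ (L : ℝ) * (3072 * (p.E : ℝ) ^ 4 * (K : ℝ) ^ 4) +
      D * ((16 * (p.E : ℝ) ^ 4 * (K : ℝ) ^ 4) * Y * (S' : ℝ) ^ 2) := by positivity
  have hA : ∑ t ∈ P.filter (fun t => t.1 = t.2), ((L : ℝ) * Z t + N t) ≤
      K * (L * S + D * ((S' : ℝ) ^ 2 * (4 + 3 * Real.log L))) := by
    refine (Finset.sum_le_sum hsame).trans ?_
    rw [Finset.sum_const, nsmul_eq_mul]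
    exact mul_le_mul_of_nonneg_right hc1 hs1
  have hB : ∑ t ∈ P.filter (fun t => ¬ t.1 = t.2), ((L : ℝ) * Z t + N t) ≤
      (K : ℝ) ^ 2 * (L * (3072 * (p.E : ℝ) ^ 4 * (K : ℝ) ^ 4) +
        D * ((16 * (p.E : ℝ) ^ 4 * (K : ℝ) ^ 4) * Y * (S' : ℝ) ^ 2)) + D * (a * X) := by
    refine (Finset.sum_le_sum hdiff).trans ?_
    have h2 : ∑ t ∈ P.filter (fun t => ¬ t.1 = t.2),
        (L * (3072 * (p.E : ℝ) ^ 4 * (K : ℝ) ^ 4) + D * (p.AA t.1 t.2 * X +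
          (16 * (p.E : ℝ) ^ 4 * (K : ℝ) ^ 4) * Y * (S' : ℝ) ^ 2)) =
        ((P.filter (fun t => ¬ t.1 = t.2)).card : ℝ) *
          (L * (3072 * (p.E : ℝ) ^ 4 * (K : ℝ) ^ 4) +
            D * ((16 * (p.E : ℝ) ^ 4 * (K : ℝ) ^ 4) * Y * (S' : ℝ) ^ 2)) +
        D * ((∑ t ∈ P.filter (fun t => ¬ t.1 = t.2), p.AA t.1 t.2) * X) := by
      have h3 : ∀ c : ℝ, ((P.filter (fun t => ¬ t.1 = t.2)).card : ℝ) * c =
          ∑ _t ∈ P.filter (fun t => ¬ t.1 = t.2), c := by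
        intro c
        rw [Finset.sum_const, nsmul_eq_mul]
      rw [h3, Finset.sum_mul, Finset.mul_sum, ← Finset.sum_add_distrib]
      exact Finset.sum_congr rfl (fun t _ => by ring)
    rw [h2]
    apply add_le_add
    · exact mul_le_mul_of_nonneg_right hc2 hs2
    · apply mul_le_mul_of_nonneg_left _ hD0
      exact mul_le_mul_of_nonneg_right ha hX0
  calc (p.S2 K S V L : ℝ) ≤ ∑ t ∈ P, ((L : ℝ) * Z t + N t) := h1
    _ = ∑ t ∈ P.filter (fun t => t.1 = t.2), ((L : ℝ) * Z t + N t) +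
        ∑ t ∈ P.filter (fun t => ¬ t.1 = t.2), ((L : ℝ) * Z t + N t) :=
      (Finset.sum_filter_add_sum_filter_not P (fun t => t.1 = t.2) _).symm
    _ ≤ K * (L * S + D * ((S' : ℝ) ^ 2 * (4 + 3 * Real.log L))) +
        ((K : ℝ) ^ 2 * (L * (3072 * (p.E : ℝ) ^ 4 * (K : ℝ) ^ 4) +
        D * ((16 * (p.E : ℝ) ^ 4 * (K : ℝ) ^ 4) * Y * (S' : ℝ) ^ 2)) + D * (a * X)) :=
      add_le_add hA hB
    _ = _ := by ring


end Pool.Agent.Lib.TSq
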