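import Pool.Agent.Lib.TSq.Asym
import Pool.Agent.Lib.TSq.Count
import Pool.Agent.Lib.TSq.LocSol

/-!
TSq.Window (about 1.3 h). Few exceptions in a window. Imports are black boxes (`second_moment`, `count`, `exists_par`).

PROOF. `second_moment` for `δ`, `ε` gives `w₀`; put `w = max w₀ 7`, `E = 6 primorial(w)`; every prime `P ≤ w` divides `2E`. Take `m, q, y₀` from
`second_moment` and put `Q = 2E q²`, `C = 2E`. For `y ≥ y₀`: `V = m(q²y)`, `L = q²y`, `S = mqy`, so `2EV = mQy`, `2E(V+L) = (m+1)Qy`.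
Let `n ∈ B`. As `6n ≥ (mQy)² ≥ 36 y²` (`Q ≥ 2E ≥ 6`), `y ≤ n`, so `2E KK δ y ≤ C (log y)^(1+δ) ≤ C (log n)^(1+δ)` (`Nat.floor_le`,
`Real.rpow_le_rpow`), and `¬ Rep c (C (log n)^(1+δ)) n` gives `¬ Rep c (2E KK δ y) n` (`Rep.mono`).
Put `n` in the class `β = n % (2E/3)`, `2E/3 = 4 primorial(w)`; then `β % 4 = n % 4 = 2`; at most `2E/3` classes. For each `β` with `β % 4 = 2` take
`p` from `exists_par` for `n = β`; if `n ≡ β (mod 2E/3)` then `6n ≡ 6β ≡ cls (mod 4E)`. `count` (with `M = 2E KK δ y`) gives at most `ε R` elements of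
`B` in the class,
`R = E(2VL+L²) + 36ES² = E L² (2m + 1) + 36E m² q² y² ≤ E L² (3m + m) = 4m E L²` (`36m ≤ q²`, `1 ≤ m`).
Total: `≤ (2E/3) ε 4mEL² ≤ ε m (2EL)² = ε m (Qy)²`  (`8/3 ≤ 4`).
-/

open Finset

namespace Pool.Agent.Lib.TSq

namespace WindowAux

open Par

theorem fibre {δ ε : ℝ} (hε : 0 < ε) {c : ℕ} (hc : c = 1 ∨ c = 2) {w m q y β : ℕ} (hw : 7 ≤ w)
    (hq : 0 < q) (hm : 0 < m) (hK : 0 < KK δ y) (hy : 0 < y)
    (hS : 14 * (16 * (6 * primorial w) ^ 2 * KK δ y ^ 2) ≤ m * q * y)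
    (hβ : β % 4 = 2)
    (hsec : ∀ p : Par, p.OK → p.E = 6 * primorial w →
        (∀ P : ℕ, P.Prime → P ≤ w → P ∣ 2 * (6 * primorial w)) →
        (p.S2 (KK δ y) (m * q * y) (m * (q ^ 2 * y)) (q ^ 2 * y) : ℝ) *
          (((6 * primorial w) * (2 * (m * (q ^ 2 * y)) * (q ^ 2 * y) + (q ^ 2 * y) ^ 2) +
            36 * (6 * primorial w) * (m * q * y) ^ 2 : ℕ) : ℝ) ≤
        (1 + ε) * ((KK δ y * (m * q * y) * (q ^ 2 * y) : ℕ) : ℝ) ^ 2)
    (B : Finset ℕ) (hB : ∀ n ∈ B, n % (4 * primorial w) = β ∧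
      (m * (2 * (6 * primorial w) * q ^ 2) * y) ^ 2 ≤ 6 * n ∧
      6 * n < ((m + 1) * (2 * (6 * primorial w) * q ^ 2) * y) ^ 2 ∧
      ¬ Rep c (2 * ((6 * primorial w : ℕ) : ℝ) * (KK δ y : ℕ)) n) :
    (B.card : ℝ) ≤ ε * (((6 * primorial w) * (2 * (m * (q ^ 2 * y)) * (q ^ 2 * y) +
      (q ^ 2 * y) ^ 2) + 36 * (6 * primorial w) * (m * q * y) ^ 2 : ℕ) : ℝ) := by
  obtain ⟨p, hp, hpc, hpE, h6, hcls⟩ := exists_par hc hw hβ
  have hprim : ∀ P : ℕ, P.Prime → P ≤ w → P ∣ 2 * (6 * primorial w) := by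
    intro P hP hPw
    have h1 : P ∣ primorial w := by
      unfold primorial
      exact Finset.dvd_prod_of_mem (fun p => p)
        (Finset.mem_filter.2 ⟨Finset.mem_range.2 (Nat.lt_succ_of_le hPw), hP⟩)
    exact (h1.mul_left 6).mul_left 2
  have hs := hsec p hp hpE hprim
  have hcount := count (p := p) hp h6 (K := KK δ y) (S := m * q * y) (V := m * (q ^ 2 * y))
    (L := q ^ 2 * y) (M := 2 * ((6 * primorial w : ℕ) : ℝ) * (KK δ y : ℕ)) (ε := ε) hK
    (by positivity) (by positivity) (by rw [hpE]; exact hS) hε (by rw [hpE])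
    (by rw [hpE]; exact hs) B
    (by
      intro n hn
      obtain ⟨h1, h2, h3, h4⟩ := hB n hn
      refine ⟨?_, ?_, ?_, ?_⟩
      · rw [hpE]
        refine le_trans (le_of_eq ?_) h2
        ring
      · rw [hpE]
        refine lt_of_lt_of_eq h3 ?_
        ring
      · rw [hpE] at hcls ⊢
        have h5 : (n : ℤ) = β + (4 * primorial w : ℕ) * (n / (4 * primorial w) : ℕ) := by
          have := Nat.mod_add_div n (4 * primorial w)
          rw [h1] at this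
          exact_mod_cast this.symm
        have h7 : p.cls - 6 * (n : ℤ) = (p.cls - 6 * β) -
            ((4 * (6 * primorial w) : ℕ) : ℤ) * (n / (4 * primorial w) : ℕ) := by
          rw [h5]
          push_cast
          ring
        rw [h7]
        exact dvd_sub hcls (Dvd.intro _ rfl)
      · rw [hpc]
        exact h4)
  rw [hpE] at hcount
  exact hcount

theorem arith {P m q y : ℕ} (hm : 0 < m) (h36 : 36 * m ≤ q ^ 2) :
    4 * P * ((6 * P) * (2 * (m * (q ^ 2 * y)) * (q ^ 2 * y) +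
      (q ^ 2 * y) ^ 2) + 36 * (6 * P) * (m * q * y) ^ 2) ≤
      m * (2 * (6 * P) * q ^ 2 * y) ^ 2 := by
  have h1 : 36 * (6 * P) * (m * q * y) ^ 2 ≤ 6 * P * m * (q ^ 2 * y) ^ 2 := by
    calc 36 * (6 * P) * (m * q * y) ^ 2 = (36 * m) * (6 * P * m * (q * y) ^ 2) := by ring
      _ ≤ q ^ 2 * (6 * P * m * (q * y) ^ 2) := Nat.mul_le_mul_right _ h36
      _ = 6 * P * m * (q ^ 2 * y) ^ 2 := by ring
  have h2 : (q ^ 2 * y) ^ 2 ≤ m * (q ^ 2 * y) ^ 2 := Nat.le_mul_of_pos_left _ hm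
  calc 4 * P * ((6 * P) * (2 * (m * (q ^ 2 * y)) * (q ^ 2 * y) +
      (q ^ 2 * y) ^ 2) + 36 * (6 * P) * (m * q * y) ^ 2)
      ≤ 4 * P * ((6 * P) * (2 * (m * (q ^ 2 * y)) * (q ^ 2 * y) +
      m * (q ^ 2 * y) ^ 2) + 6 * P * m * (q ^ 2 * y) ^ 2) := by gcongr
    _ = 96 * (P ^ 2 * m * (q ^ 2 * y) ^ 2) := by ring
    _ ≤ 144 * (P ^ 2 * m * (q ^ 2 * y) ^ 2) := Nat.mul_le_mul_right _ (by norm_num)
    _ = m * (2 * (6 * P) * q ^ 2 * y) ^ 2 := by ring

end WindowAux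

theorem window {δ ε : ℝ} (hδ : 0 < δ) (hε : 0 < ε) : ∃ m Q y₀ C : ℕ, 0 < m ∧ 0 < Q ∧
    ∀ y : ℕ, y₀ ≤ y → ∀ c : ℕ, (c = 1 ∨ c = 2) → ∀ B : Finset ℕ,
      (∀ n ∈ B, n % 4 = 2 ∧ ¬ Rep c (C * (Real.log n) ^ (1 + δ)) n ∧
        (m * Q * y) ^ 2 ≤ 6 * n ∧ 6 * n < ((m + 1) * Q * y) ^ 2) →
      (B.card : ℝ) ≤ ε * m * ((Q * y : ℕ) : ℝ) ^ 2 := by
  classical
  obtain ⟨w₀, hw₀⟩ := second_moment hδ hε
  obtain ⟨w, hw7, hww⟩ : ∃ w : ℕ, 7 ≤ w ∧ w₀ ≤ w := ⟨max w₀ 7, le_max_right _ _, le_max_left _ _⟩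
  have hPpos : 0 < primorial w := primorial_pos w
  obtain ⟨m, q, hm, hq, h36, y₀, hy₀⟩ := hw₀ (6 * primorial w) (by positivity)
  refine ⟨m, 2 * (6 * primorial w) * q ^ 2, y₀, 2 * (6 * primorial w), hm, by positivity, ?_⟩
  intro y hy c hc B hB
  obtain ⟨hK, hy1, hS, hsec⟩ := hy₀ y hy
  have hfib : ∀ β ∈ range (4 * primorial w),
      ((B.filter (fun n => n % (4 * primorial w) = β)).card : ℝ) ≤
      ε * (((6 * primorial w) * (2 * (m * (q ^ 2 * y)) * (q ^ 2 * y) +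
      (q ^ 2 * y) ^ 2) + 36 * (6 * primorial w) * (m * q * y) ^ 2 : ℕ) : ℝ) := by
    intro β _
    by_cases hβ : β % 4 = 2
    · refine WindowAux.fibre (δ := δ) hε hc hw7 hq hm hK hy1 hS hβ ?_ _ ?_
      · intro p hp hpE hprim
        have := hsec p hp hpE (fun P hP hPw => hprim P hP (hPw.trans hww))
        exact this
      · intro n hn
        rw [mem_filter] at hn
        obtain ⟨hn1, hn2⟩ := hn
        obtain ⟨h1, h2, h3, h4⟩ := hB n hn1
        refine ⟨hn2, h3, h4, ?_⟩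
        intro hrep
        apply h2
        refine hrep.mono ?_
        have hyn : y ≤ n := by
          have hQ : 6 ≤ 2 * (6 * primorial w) * q ^ 2 := by
            have : 1 ≤ primorial w * q ^ 2 := Nat.one_le_iff_ne_zero.2 (by positivity)
            nlinarith
          have h5 : 6 * y ≤ m * (2 * (6 * primorial w) * q ^ 2) * y := by
            calc 6 * y = 1 * 6 * y := by ring
              _ ≤ m * (2 * (6 * primorial w) * q ^ 2) * y := by gcongr; exact hm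
          have h6 : (6 * y) ^ 2 ≤ 6 * n := (Nat.pow_le_pow_left h5 2).trans h3
          nlinarith
        have hlog : Real.log y ≤ Real.log n :=
          Real.log_le_log (by exact_mod_cast hy1) (by exact_mod_cast hyn)
        have hlog0 : 0 ≤ Real.log y := Real.log_natCast_nonneg y
        have h7 : ((KK δ y : ℕ) : ℝ) ≤ (Real.log y) ^ (1 + δ) :=
          Nat.floor_le (Real.rpow_nonneg hlog0 _)
        have h8 : (Real.log y) ^ (1 + δ) ≤ (Real.log n) ^ (1 + δ) :=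
          Real.rpow_le_rpow hlog0 hlog (by linarith)
        have h9 : ((KK δ y : ℕ) : ℝ) ≤ (Real.log n) ^ (1 + δ) := h7.trans h8
        have h10 : (0 : ℝ) ≤ 2 * ((6 * primorial w : ℕ) : ℝ) := by positivity
        calc 2 * ((6 * primorial w : ℕ) : ℝ) * (KK δ y : ℕ)
            ≤ 2 * ((6 * primorial w : ℕ) : ℝ) * (Real.log n) ^ (1 + δ) :=
              mul_le_mul_of_nonneg_left h9 h10
          _ = ((2 * (6 * primorial w) : ℕ) : ℝ) * (Real.log n) ^ (1 + δ) := by push_cast; ring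
    · have : B.filter (fun n => n % (4 * primorial w) = β) = ∅ := by
        rw [filter_eq_empty_iff]
        intro n hn h
        have h1 := (hB n hn).1
        apply hβ
        rw [← h, Nat.mod_mod_of_dvd n (Dvd.intro _ rfl)]
        exact h1
      rw [this]
      simp only [card_empty, Nat.cast_zero]
      positivity
  have hcard : (B.card : ℝ) = ∑ β ∈ range (4 * primorial w),
      ((B.filter (fun n => n % (4 * primorial w) = β)).card : ℝ) := by
    rw [card_eq_sum_card_fiberwise (f := fun n => n % (4 * primorial w))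
      (t := range (4 * primorial w)) (by
        intro n _
        exact mem_coe.2 (mem_range.2 (Nat.mod_lt _ (by positivity))))]
    push_cast
    rfl
  rw [hcard]
  refine (sum_le_sum hfib).trans ?_
  rw [sum_const, card_range, nsmul_eq_mul]
  have harith := WindowAux.arith (P := primorial w) (m := m) (q := q) (y := y) hm h36
  have harith' : ((4 * primorial w * ((6 * primorial w) * (2 * (m * (q ^ 2 * y)) * (q ^ 2 * y) +
      (q ^ 2 * y) ^ 2) + 36 * (6 * primorial w) * (m * q * y) ^ 2) : ℕ) : ℝ) ≤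
      ((m * (2 * (6 * primorial w) * q ^ 2 * y) ^ 2 : ℕ) : ℝ) := by exact_mod_cast harith
  rw [Nat.cast_mul (4 * primorial w), Nat.cast_mul m, Nat.cast_pow] at harith'
  calc ((4 * primorial w : ℕ) : ℝ) * (ε * (((6 * primorial w) * (2 * (m * (q ^ 2 * y)) *
        (q ^ 2 * y) + (q ^ 2 * y) ^ 2) + 36 * (6 * primorial w) * (m * q * y) ^ 2 : ℕ) : ℝ))
      = ε * (((4 * primorial w : ℕ) : ℝ) * (((6 * primorial w) * (2 * (m * (q ^ 2 * y)) *
        (q ^ 2 * y) + (q ^ 2 * y) ^ 2) + 36 * (6 * primorial w) * (m * q * y) ^ 2 : ℕ) : ℝ)) := by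
        ring
    _ ≤ ε * ((m : ℝ) * ((2 * (6 * primorial w) * q ^ 2 * y : ℕ) : ℝ) ^ 2) :=
        mul_le_mul_of_nonneg_left harith' hε.le
    _ = ε * m * ((2 * (6 * primorial w) * q ^ 2 * y : ℕ) : ℝ) ^ 2 := by ring

end Pool.Agent.Lib.TSq
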